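import Pool.Agent.W5h45.RC.W9

/-! The limit theorem for the words. -/

namespace Pool.Agent.W5h45.RC
open Finset Filter Topology ArithmeticFunction

/-- The sum over the words of length `L`. -/
noncomputable def SS (a L : ℕ) : ℝ :=
  ∑ w ∈ Wd L, Real.log (Nat.gcd (cw a w) (DD a L (on w)) : ℕ)

lemma SS_eq (a L : ℕ) : SS a L = ∑ o ∈ range (L + 1), TT a L o := by
  unfold SS TT
  rw [← Finset.sum_fiberwise_of_maps_to (s := Wd L) (t := range (L + 1)) (g := on)]
  · refine sum_congr rfl fun o _ => sum_congr rfl fun w hw => ?_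
    rw [mem_filter] at hw
    rw [hw.2]
  · intro w hw
    rw [mem_Wd] at hw
    rw [mem_range]
    have := on_le w
    omega

lemma main_ineq {a : ℕ} (ha : 3 ≤ a) (hodd : Odd a) {L : ℕ} (hL : 1 ≤ L) {l : ℕ} (hl : l ≤ L)
    {κ : ℝ} (hκ0 : 0 ≤ κ)
    (hκ : ∀ m, 0 < m → m.Coprime (2 * a) → m ≤ a ^ l → ∀ o y,
      |(cnt a L o m y : ℝ) - (L.choose o : ℝ) / m| ≤ 2 ^ L * κ) :
    |SS a L / 2 ^ L - GG a L| ≤ L * Real.log a / 2 ^ L + 3 * (HH (a ^ l) / Real.sqrt L)
      + Real.log a * ((L : ℝ) ^ 2 * κ) + Real.log a * ((L : ℝ) ^ 2 / 2 ^ l)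
      + (∑' d, wt a d - ∑ d ∈ range (a ^ l + 1), wt a d) := by
  set Y := a ^ l with hY
  have h2L : (0 : ℝ) < 2 ^ L := by positivity
  have hlog : 0 ≤ Real.log a := Real.log_natCast_nonneg a
  have h1 : |SS a L - ∑ o ∈ range (L + 1), AA a L Y o| ≤ (L * Real.log a + HH Y)
      + L * ((L * Real.log a) * (2 ^ L * κ + 2 ^ (L - l))) := by
    rw [SS_eq, ← sum_sub_distrib]
    refine (abs_sum_le_sum_abs _ _).trans ?_
    rw [Finset.sum_range_succ', add_comm]
    refine add_le_add (TT_zero ha hodd hL Y) ?_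
    have h2 : ∀ o ∈ range L, |TT a L (o + 1) - AA a L Y (o + 1)| ≤
        (L * Real.log a) * (2 ^ L * κ + 2 ^ (L - l)) := by
      intro o ho
      rw [mem_range] at ho
      exact TT_sub_AA ha hodd hL (by omega) (by omega) hl hκ0 hκ
    have h3 := sum_le_card_nsmul _ _ _ h2
    rw [card_range, nsmul_eq_mul] at h3
    exact h3
  have h2 := sum_AA ha L Y
  have h3 : |∑ d ∈ range (Y + 1), gt a L d - GG a L| ≤
      (∑' d, wt a d - ∑ d ∈ range (Y + 1), wt a d) := by
    have h4 : ∑ d ∈ range (Y + 1), gt a L d ≤ GG a L :=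
      (summable_gt ha L).sum_le_tsum _ (fun d _ => gt_nonneg a L d)
    have h5 : ∑ d ∈ range (Y + 1), (wt a d - gt a L d) ≤ ∑' d, (wt a d - gt a L d) :=
      ((summable_wt ha).sub (summable_gt ha L)).sum_le_tsum _
        (fun d _ => sub_nonneg.2 (gt_le_wt a L d))
    rw [sum_sub_distrib, (summable_wt ha).tsum_sub (summable_gt ha L)] at h5
    rw [abs_of_nonpos (by linarith)]
    unfold GG at h4 ⊢
    linarith
  have hs : 0 < Real.sqrt L := Real.sqrt_pos.2 (by exact_mod_cast (by omega : 0 < L))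
  have hmid : (L.choose (L / 2) : ℝ) / 2 ^ L ≤ 1 / Real.sqrt L := by
    rw [div_le_div_iff₀ h2L hs, one_mul]
    exact choose_middle_le L
  have hH := HH_nonneg Y
  have e1 : SS a L / 2 ^ L - GG a L = (SS a L - ∑ o ∈ range (L + 1), AA a L Y o) / 2 ^ L
      + (∑ o ∈ range (L + 1), AA a L Y o - 2 ^ L * ∑ d ∈ range (Y + 1), gt a L d) / 2 ^ L
      + (∑ d ∈ range (Y + 1), gt a L d - GG a L) := by
    field_simp
    ring
  rw [e1]
  refine (abs_add_three _ _ _).trans ?_
  have t1 : |(SS a L - ∑ o ∈ range (L + 1), AA a L Y o) / 2 ^ L| ≤ L * Real.log a / 2 ^ L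
      + HH Y / Real.sqrt L + Real.log a * ((L : ℝ) ^ 2 * κ) + Real.log a * ((L : ℝ) ^ 2 / 2 ^ l) := by
    rw [abs_div, abs_of_pos h2L, div_le_iff₀ h2L]
    refine h1.trans ?_
    have e2 : (2 : ℝ) ^ (L - l) = 2 ^ L / 2 ^ l := by
      rw [eq_div_iff (by positivity), ← pow_add]; congr 1; omega
    have e3 : HH Y ≤ HH Y / Real.sqrt L * 2 ^ L := by
      rw [div_mul_eq_mul_div, le_div_iff₀ hs]
      refine mul_le_mul_of_nonneg_left ?_ hH
      have h6 : Real.sqrt L ≤ L := by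
        rw [Real.sqrt_le_left (Nat.cast_nonneg _)]
        have : (1 : ℝ) ≤ L := by exact_mod_cast hL
        nlinarith
      have h7 : (L : ℝ) ≤ 2 ^ L := by exact_mod_cast (Nat.lt_two_pow_self).le
      exact h6.trans h7
    rw [e2]
    have e4 : (L * Real.log a / 2 ^ L + HH Y / Real.sqrt L + Real.log a * ((L : ℝ) ^ 2 * κ)
        + Real.log a * ((L : ℝ) ^ 2 / 2 ^ l)) * 2 ^ L
        = L * Real.log a + HH Y / Real.sqrt L * 2 ^ L
          + L * ((L * Real.log a) * (2 ^ L * κ + 2 ^ L / 2 ^ l)) := by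
      field_simp
      ring
    rw [e4]
    linarith
  have t2 : |(∑ o ∈ range (L + 1), AA a L Y o - 2 ^ L * ∑ d ∈ range (Y + 1), gt a L d) / 2 ^ L|
      ≤ 2 * (HH Y / Real.sqrt L) := by
    rw [abs_div, abs_of_pos h2L]
    calc |∑ o ∈ range (L + 1), AA a L Y o - 2 ^ L * ∑ d ∈ range (Y + 1), gt a L d| / 2 ^ L
        ≤ (2 * L.choose (L / 2) * HH Y) / 2 ^ L := div_le_div_of_nonneg_right h2 h2L.le
      _ = 2 * HH Y * (L.choose (L / 2) / 2 ^ L) := by ring
      _ ≤ 2 * HH Y * (1 / Real.sqrt L) := mul_le_mul_of_nonneg_left hmid (by positivity)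
      _ = 2 * (HH Y / Real.sqrt L) := by ring
  linarith

theorem words_mean {a : ℕ} (ha : 3 ≤ a) (hodd : Odd a) :
    Tendsto (fun L : ℕ => SS a L / 2 ^ L - GG a L) atTop (𝓝 0) := by
  obtain ⟨κ, hκ0, hκlim, hκ⟩ := params ha hodd 3
  have hlog : 0 ≤ Real.log a := Real.log_natCast_nonneg a
  have ha1 : (1 : ℝ) ≤ a := by exact_mod_cast (by omega : 1 ≤ a)
  -- the terms
  have l1 : Tendsto (fun L : ℕ => (L : ℝ) * Real.log a / 2 ^ L) atTop (𝓝 0) := by
    have := (tendsto_pow_const_div_const_pow_of_one_lt 1 (by norm_num : (1 : ℝ) < 2)).const_mul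
      (Real.log a)
    rw [mul_zero] at this
    refine this.congr fun L => ?_
    rw [pow_one]; ring
  have l2 : Tendsto (fun L : ℕ => HH (a ^ (3 * Nat.log 2 L)) / Real.sqrt L) atTop (𝓝 0) := by
    have hF : Tendsto (fun n : ℕ => (1 + 3 * Real.log a) ^ 2 * ((n : ℝ) ^ 2 / (Real.sqrt 2) ^ n))
        atTop (𝓝 0) := by
      have := (tendsto_pow_const_div_const_pow_of_one_lt 2
        (by rw [Real.lt_sqrt (by norm_num)]; norm_num : (1 : ℝ) < Real.sqrt 2)).const_mul
        ((1 + 3 * Real.log a) ^ 2)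
      rwa [mul_zero] at this
    refine squeeze_zero' (Eventually.of_forall fun L => div_nonneg (HH_nonneg _) (Real.sqrt_nonneg _))
      ?_ (hF.comp tendsto_log2)
    filter_upwards [tendsto_log2.eventually (eventually_ge_atTop 1), eventually_ge_atTop 1]
      with L h1 hL
    simp only [Function.comp]
    set n := Nat.log 2 L with hn
    have h2 : (2 : ℝ) ^ n ≤ L := by exact_mod_cast Nat.pow_log_le_self 2 (by omega : L ≠ 0)
    have h3 : (Real.sqrt 2) ^ n ≤ Real.sqrt L := by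
      rw [Real.le_sqrt (by positivity) (Nat.cast_nonneg _), ← pow_mul, mul_comm, pow_mul,
        Real.sq_sqrt (by norm_num)]
      exact h2
    have h4 : HH (a ^ (3 * n)) ≤ (1 + 3 * Real.log a) ^ 2 * (n : ℝ) ^ 2 := by
      refine (HH_le _).trans ?_
      rw [← mul_pow]
      have h5 : Real.log ((a ^ (3 * n) : ℕ) : ℝ) = 3 * n * Real.log a := by
        push_cast
        rw [Real.log_pow]
        push_cast
        ring
      rw [h5]
      have h6 : (1 : ℝ) ≤ n := by exact_mod_cast h1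
      refine pow_le_pow_left₀ (by positivity) ?_ 2
      nlinarith
    rw [← mul_div_assoc]
    exact div_le_div₀ (by positivity) h4 (by positivity) h3
  have l3 : Tendsto (fun L : ℕ => (L : ℝ) ^ 2 * κ L) atTop (𝓝 0) := by
    refine squeeze_zero (fun L => mul_nonneg (by positivity) (hκ0 L)) (fun L => ?_) hκlim
    refine mul_le_mul_of_nonneg_right ?_ (hκ0 L)
    refine le_mul_of_one_le_right (by positivity) ?_
    exact one_le_pow₀ (one_le_pow₀ ha1)
  have l4 : Tendsto (fun L : ℕ => (L : ℝ) ^ 2 / 2 ^ (3 * Nat.log 2 L)) atTop (𝓝 0) := by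
    have hF : Tendsto (fun L : ℕ => 8 / (L : ℝ)) atTop (𝓝 0) :=
      tendsto_const_div_atTop_nhds_zero_nat 8
    refine squeeze_zero' (Eventually.of_forall fun L => by positivity) ?_ hF
    filter_upwards [eventually_ge_atTop 1] with L hL
    have h1 : (L : ℝ) ≤ 2 ^ (Nat.log 2 L + 1) := by
      exact_mod_cast (Nat.lt_pow_succ_log_self (by norm_num) L).le
    have hL0 : (0 : ℝ) < L := by exact_mod_cast (by omega : 0 < L)
    rw [div_le_div_iff₀ (by positivity) hL0]
    calc (L : ℝ) ^ 2 * L = (L : ℝ) ^ 3 := by ring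
      _ ≤ (2 ^ (Nat.log 2 L + 1)) ^ 3 := pow_le_pow_left₀ hL0.le h1 3
      _ = 8 * 2 ^ (3 * Nat.log 2 L) := by
          rw [← pow_mul, show (Nat.log 2 L + 1) * 3 = 3 * Nat.log 2 L + 3 by ring, pow_add]; ring
  have l5 : Tendsto (fun L : ℕ => (∑' d, wt a d - ∑ d ∈ range (a ^ (3 * Nat.log 2 L) + 1), wt a d))
      atTop (𝓝 0) := by
    have h1 := (summable_wt ha).hasSum.tendsto_sum_nat
    have h2 : Tendsto (fun L : ℕ => a ^ (3 * Nat.log 2 L) + 1) atTop atTop := by
      refine tendsto_atTop_mono (fun L => ?_) tendsto_log2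
      have h3 : Nat.log 2 L < 2 ^ Nat.log 2 L := Nat.lt_two_pow_self
      have h4 : 2 ^ Nat.log 2 L ≤ a ^ (3 * Nat.log 2 L) :=
        (Nat.pow_le_pow_left (by omega) _).trans (Nat.pow_le_pow_right (by omega) (by omega))
      omega
    have h3 := (h1.comp h2).const_sub (∑' d, wt a d)
    simp only [sub_self] at h3
    exact h3
  have hlim : Tendsto (fun L : ℕ => (L : ℝ) * Real.log a / 2 ^ L
      + 3 * (HH (a ^ (3 * Nat.log 2 L)) / Real.sqrt L)
      + Real.log a * ((L : ℝ) ^ 2 * κ L) + Real.log a * ((L : ℝ) ^ 2 / 2 ^ (3 * Nat.log 2 L))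
      + (∑' d, wt a d - ∑ d ∈ range (a ^ (3 * Nat.log 2 L) + 1), wt a d)) atTop (𝓝 0) := by
    have := (((l1.add (l2.const_mul 3)).add (l3.const_mul (Real.log a))).add
      (l4.const_mul (Real.log a))).add l5
    simpa using this
  have hlL : ∀ᶠ L : ℕ in atTop, 3 * Nat.log 2 L ≤ L := by
    have := tendsto_log2.eventually (eventually_poly_le 3 1)
    filter_upwards [this, eventually_ge_atTop 1] with L h1 hL
    have h2 : 2 ^ Nat.log 2 L ≤ L := Nat.pow_log_le_self 2 (by omega)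
    have h3 : 3 * Nat.log 2 L ≤ 2 ^ Nat.log 2 L := by
      rw [pow_one] at h1
      exact_mod_cast h1
    omega
  rw [tendsto_zero_iff_abs_tendsto_zero]
  refine squeeze_zero' (Eventually.of_forall fun L => abs_nonneg _) ?_ hlim
  filter_upwards [hκ, hlL, eventually_ge_atTop 1] with L h1 h2 h3
  exact main_ineq ha hodd h3 h2 (hκ0 L) h1

end Pool.Agent.W5h45.RC
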