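import Pool.Agent.W5h45.RC.X3

/-! The law of the greatest common divisor of numerator and denominator. -/

namespace Pool.Agent.W5h45.RC
open Finset Filter Topology ArithmeticFunction

lemma card_primeFactors_le {a A L o : ℕ} (ha3 : 3 ≤ a) (hodd : Odd a) (haA : a ≤ 2 ^ A)
    (hL : 1 ≤ L) (ho : o ≤ L) : (DD a L o).primeFactors.card ≤ A * L := by
  have hD := DD_ne_zero hodd hL o
  have h1 : 2 ^ (DD a L o).primeFactors.card ≤ DD a L o := by
    calc 2 ^ (DD a L o).primeFactors.card = ∏ p ∈ (DD a L o).primeFactors, 2 := by rw [prod_const]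
      _ ≤ ∏ p ∈ (DD a L o).primeFactors, p :=
          prod_le_prod' fun p hp => (Nat.prime_of_mem_primeFactors hp).two_le
      _ ≤ DD a L o := Nat.le_of_dvd (Nat.pos_of_ne_zero hD) (Nat.prod_primeFactors_dvd _)
  have h2 : 2 ^ (DD a L o).primeFactors.card ≤ 2 ^ (A * L) := by
    calc 2 ^ (DD a L o).primeFactors.card ≤ DD a L o := h1
      _ ≤ a ^ L := DD_le ha3 ho
      _ ≤ (2 ^ A) ^ L := Nat.pow_le_pow_left haA _
      _ = 2 ^ (A * L) := by rw [pow_mul]
  exact (Nat.pow_le_pow_iff_right (by norm_num)).1 h2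

/-- The sieve with the chosen parameters. -/
lemma sieve_apply {Ω : Type*} {s : Finset Ω} {c : Ω → ℕ} {a A L o : ℕ} (ha3 : 3 ≤ a)
    (hodd : Odd a) (haA : a ≤ 2 ^ A) (hL : 1 ≤ L) (ho : o ≤ L) {r : ℕ} (hr : 1 ≤ r)
    {n : ℕ} (hn : 3 ≤ n) (hLn : L ≤ 2 ^ (n + 1))
    (H1 : ∀ d, d ∣ DD a L o → d ≤ a ^ n ^ (r + 3) →
      |pr s c d - 1 / (d : ℝ)| ≤ Real.exp (-(n : ℝ) ^ (2 * r + 6)))
    (H2 : ∀ d, d ∣ DD a L o → a ^ n ^ (r + 3) < d → pr s c d ≤ 1 / 4 ^ n
      + Real.exp (-(n : ℝ) ^ (2 * r + 6)) + Real.exp (-(n : ℝ) ^ (r + 2))) :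
    ∑ k ∈ (DD a L o).divisors, |gl s c (DD a L o) k -
      if k ∈ Kset (DD a L o) (4 ^ n) (2 ^ n ^ (r + 2)) then gs (DD a L o) (4 ^ n) (n ^ 2) k else 0|
      ≤ errf (2 * (A + Real.log a)) r n := by
  set D := DD a L o with hDdef
  have hD : D ≠ 0 := DD_ne_zero hodd hL o
  set z := 4 ^ n with hz
  set K := 2 ^ n ^ (r + 2) with hK
  set j := n ^ 2 with hj
  have hn3 : (3 : ℝ) ≤ n := by exact_mod_cast hn
  have hn0 : (0 : ℝ) < n := by linarith
  have hz1 : 1 ≤ z := Nat.one_le_pow _ _ (by norm_num)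
  have hK2 : 2 ≤ K := by
    rw [hK]
    calc 2 = 2 ^ 1 := by norm_num
      _ ≤ 2 ^ n ^ (r + 2) := Nat.pow_le_pow_right (by norm_num) (Nat.one_le_pow _ _ (by omega))
  have hj1 : 1 ≤ j := Nat.one_le_pow _ _ (by omega)
  have hKz' : K * z ^ j ≤ 2 ^ (3 * n ^ (r + 2)) := by
    calc K * z ^ j = 2 ^ (n ^ (r + 2) + 2 * n ^ 3) := by
          rw [hK, hz, hj, show (4 : ℕ) = 2 ^ 2 by norm_num, ← pow_mul, ← pow_mul, ← pow_add]
          congr 1
          ring
      _ ≤ 2 ^ (3 * n ^ (r + 2)) := by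
          refine Nat.pow_le_pow_right (by norm_num) ?_
          have : n ^ 3 ≤ n ^ (r + 2) := Nat.pow_le_pow_right (by omega) (by omega)
          omega
  have hKz : K * z ^ j ≤ a ^ n ^ (r + 3) := by
    calc K * z ^ j ≤ 2 ^ (3 * n ^ (r + 2)) := hKz'
      _ ≤ 2 ^ n ^ (r + 3) := by
          refine Nat.pow_le_pow_right (by norm_num) ?_
          calc 3 * n ^ (r + 2) ≤ n * n ^ (r + 2) := Nat.mul_le_mul_right _ hn
            _ = n ^ (r + 3) := by rw [← pow_succ']
      _ ≤ a ^ n ^ (r + 3) := Nat.pow_le_pow_left (by omega) _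
  set η := Real.exp (-(n : ℝ) ^ (2 * r + 6)) with hη
  set τ := 1 / 4 ^ n + Real.exp (-(n : ℝ) ^ (2 * r + 6)) + Real.exp (-(n : ℝ) ^ (r + 2)) with hτ
  have hη0 : 0 ≤ η := (Real.exp_pos _).le
  have hτ0 : 0 ≤ τ := by positivity
  have h := sieve_law (s := s) (c := c) (D := D) (z := z) (j := j) (K := K) hD hz1 hK2 hj1 hη0 hτ0
    (fun d hd hle => H1 d hd (hle.trans hKz)) (by
      intro d hd hzd
      by_cases hle : d ≤ a ^ n ^ (r + 3)
      · have h1 := H1 d hd hle
        rw [abs_le] at h1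
        have h2 : 1 / (d : ℝ) ≤ 1 / 4 ^ n := by
          refine one_div_le_one_div_of_le (by positivity) ?_
          exact_mod_cast hzd.le
        have h3 : 0 < Real.exp (-(n : ℝ) ^ (r + 2)) := Real.exp_pos _
        rw [hτ]
        linarith [h1.2]
      · exact H2 d hd (by omega))
  refine h.trans ?_
  -- numerical bounds
  have hlog2 : Real.log 2 ≤ 1 := by have := Real.log_two_lt_d9; linarith
  have hlog2' : 1 / 2 ≤ Real.log 2 := by have := Real.log_two_gt_d9; linarith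
  have hlogz : Real.log z ≤ 2 * n := by
    rw [hz]
    push_cast
    rw [Real.log_pow, show (4 : ℝ) = 2 ^ 2 by norm_num, Real.log_pow]
    push_cast
    nlinarith
  have hlogz0 : 0 ≤ Real.log z := Real.log_natCast_nonneg _
  have hlogK : Real.log K = n ^ (r + 2) * Real.log 2 := by
    rw [hK]
    push_cast
    rw [Real.log_pow]
    push_cast
    ring
  have hn3pos : (0 : ℝ) < (n : ℝ) ^ (r + 2) := by positivity
  have hlogK1 : (n : ℝ) ^ (r + 2) / 2 ≤ Real.log K := by rw [hlogK]; nlinarith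
  have hlogK2 : Real.log K ≤ (n : ℝ) ^ (r + 2) := by rw [hlogK]; nlinarith
  have hLr : (L : ℝ) ≤ 2 * 2 ^ n := by
    have : (L : ℝ) ≤ 2 ^ (n + 1) := by exact_mod_cast hLn
    rw [pow_succ] at this
    linarith
  have hloga : 0 ≤ Real.log a := Real.log_natCast_nonneg a
  have hω : (D.primeFactors.card : ℝ) ≤ 2 * (A + Real.log a) * 2 ^ n := by
    have h1 : (D.primeFactors.card : ℝ) ≤ A * L := by
      exact_mod_cast card_primeFactors_le ha3 hodd haA hL ho
    have h2 : (A : ℝ) * L ≤ A * (2 * 2 ^ n) := mul_le_mul_of_nonneg_left hLr (Nat.cast_nonneg _)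
    have h3 : 0 ≤ Real.log a * 2 ^ n := by positivity
    nlinarith
  have hlogD : Real.log D ≤ 2 * (A + Real.log a) * 2 ^ n := by
    have h1 : Real.log D ≤ L * Real.log a := log_DD_le ha3 ho
    have h2 : (L : ℝ) * Real.log a ≤ (2 * 2 ^ n) * Real.log a := mul_le_mul_of_nonneg_right hLr hloga
    have h3 : 0 ≤ (A : ℝ) * 2 ^ n := by positivity
    nlinarith
  have hlogD0 : 0 ≤ Real.log D := Real.log_natCast_nonneg _
  unfold errf
  refine add_le_add (add_le_add ?_ ?_) (add_le_add ?_ ?_)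
  · exact mul_le_mul_of_nonneg_left (mul_le_mul_of_nonneg_right hω hτ0) (by norm_num)
  · have hnum : HH z + (η + τ) * Real.log D ≤ (1 + 2 * (n : ℝ)) ^ 2 +
        (2 * Real.exp (-(n : ℝ) ^ (2 * r + 6)) + 1 / 4 ^ n + Real.exp (-(n : ℝ) ^ (r + 2))) *
        (2 * (A + Real.log a) * 2 ^ n) := by
      refine add_le_add ((HH_le z).trans (pow_le_pow_left₀ (by positivity) (by linarith) 2)) ?_
      have e1 : η + τ = 2 * Real.exp (-(n : ℝ) ^ (2 * r + 6)) + 1 / 4 ^ n
          + Real.exp (-(n : ℝ) ^ (r + 2)) := by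
        rw [hη, hτ]; ring
      rw [← e1]
      exact mul_le_mul_of_nonneg_left hlogD (by positivity)
    exact div_le_div₀ (by positivity) hnum (by positivity) hlogK1
  · have h2 : (K : ℝ) * (z : ℝ) ^ j ≤ Real.exp (3 * (n : ℝ) ^ (r + 2)) := by
      have h3 : (K : ℝ) * (z : ℝ) ^ j ≤ 2 ^ (3 * n ^ (r + 2)) := by exact_mod_cast hKz'
      refine h3.trans ((two_pow_le_exp _).trans (le_of_eq ?_))
      push_cast
      rfl
    calc (K : ℝ) * ((2 * (j : ℝ) + 1) * (z : ℝ) ^ j * η)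
        = (2 * (j : ℝ) + 1) * (((K : ℝ) * (z : ℝ) ^ j) * η) := by ring
      _ ≤ (2 * (j : ℝ) + 1) * (Real.exp (3 * (n : ℝ) ^ (r + 2)) * η) := by
          refine mul_le_mul_of_nonneg_left (mul_le_mul_of_nonneg_right h2 hη0) (by positivity)
      _ = (2 * (n : ℝ) ^ 2 + 1) * Real.exp (3 * (n : ℝ) ^ (r + 2) - (n : ℝ) ^ (2 * r + 6)) := by
          rw [hη, ← Real.exp_add, hj]
          push_cast
          congr 2
  · refine mul_le_mul (by linarith) (Real.exp_le_exp.2 ?_) (Real.exp_pos _).le (by positivity)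
    rw [hj]
    push_cast
    linarith

lemma log_le_natlog {L : ℕ} (hL : 1 ≤ L) (hn : 3 ≤ Nat.log 2 L) :
    Real.log L ≤ ((Nat.log 2 L : ℕ) : ℝ) := by
  set n := Nat.log 2 L with hndef
  have h1 : (L : ℝ) ≤ 2 ^ (n + 1) := by
    exact_mod_cast (Nat.lt_pow_succ_log_self (by norm_num) L).le
  have hL0 : (0 : ℝ) < L := by exact_mod_cast (by omega : 0 < L)
  have h2 : Real.log L ≤ (n + 1) * Real.log 2 := by
    refine (Real.log_le_log hL0 h1).trans (le_of_eq ?_)
    rw [Real.log_pow]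
    push_cast
    ring
  have h3 : Real.log 2 < 0.6931471808 := Real.log_two_lt_d9
  have h4 : (3 : ℝ) ≤ n := by exact_mod_cast hn
  nlinarith

/-- The law of the greatest common divisor of the numerator and the denominator in the class of the
words of length `L` with `o` letters `true` is close to that of a random fraction. -/
theorem gcd_law {a : ℕ} (ha3 : 3 ≤ a) (hodd : Odd a) {ε : ℝ} (hε : 0 < ε) (K : ℕ) :
    ∀ᶠ L : ℕ in atTop, ∀ o : ℕ, ε * L ≤ o → (o : ℝ) ≤ (1 - ε) * L →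
      ∑ k ∈ (DD a L o).divisors, |gl (Wo L o) (cw a) (DD a L o) k
        - (Nat.totient (DD a L o / k) : ℝ) / (DD a L o : ℕ)| ≤ 1 / (Real.log L) ^ K := by
  set ε' := min ε (1 / 2) with hε'
  have hε'0 : 0 < ε' := lt_min hε (by norm_num)
  have hε'1 : ε' ≤ 1 / 2 := min_le_right _ _
  have hε'2 : ε' ≤ ε := min_le_left _ _
  set A := Nat.clog 2 a with hA
  have haA : a ≤ 2 ^ A := Nat.le_pow_clog (by norm_num) a
  have hc : 0 ≤ 2 * ((A : ℝ) + Real.log a) := by
    have := Real.log_natCast_nonneg a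
    positivity
  set r := K + 1 with hr
  have hr1 : 1 ≤ r := by omega
  have herr := errf_le hc hr1
  filter_upwards [equi_small ha3 r hε'0 hε'1, equi_large ha3 hodd r hε'0 hε'1,
    tendsto_log2.eventually herr, tendsto_log2.eventually (eventually_ge_atTop 60),
    eventually_ge_atTop 1] with L hs hl he h60 hL1
  intro o ho1 ho2
  have hLr : (0 : ℝ) < L := by exact_mod_cast (by omega : 0 < L)
  have ho1' : ε' * L ≤ o := (mul_le_mul_of_nonneg_right hε'2 hLr.le).trans ho1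
  have ho2' : (o : ℝ) ≤ (1 - ε') * L :=
    ho2.trans (mul_le_mul_of_nonneg_right (by linarith) hLr.le)
  have ho0 : 1 ≤ o := by
    have : (0 : ℝ) < o := lt_of_lt_of_le (by positivity) ho1
    exact_mod_cast this
  have hoL : o ≤ L := by
    have : (o : ℝ) ≤ L := ho2.trans (by nlinarith)
    exact_mod_cast this
  have hlogn := log_le_natlog hL1 (by omega)
  set n := Nat.log 2 L with hn
  have h3 : 3 ≤ n := by omega
  have hLn : L ≤ 2 ^ (n + 1) := (Nat.lt_pow_succ_log_self (by norm_num) L).le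
  set D := DD a L o with hD
  have hD0 : D ≠ 0 := DD_ne_zero hodd hL1 o
  have hC : (0 : ℝ) < L.choose o := by exact_mod_cast Nat.choose_pos hoL
  -- the words
  have hw := sieve_apply (s := Wo L o) (c := cw a) ha3 hodd haA hL1 hoL hr1 h3 hLn (by
      intro d hd hle
      have hcop := cop_of_dvd hodd hL1 ho0 hd
      have hd0 := pos_of_cop ha3 hcop
      have h1 := hs o ho1' ho2' d hd0 hcop hle 0
      rw [pr_words]
      have h2 : (cnt a L o d 0 : ℝ) / L.choose o - 1 / (d : ℝ)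
          = ((cnt a L o d 0 : ℝ) - L.choose o / d) / L.choose o := by
        field_simp
      rw [h2, abs_div, abs_of_pos hC, div_le_iff₀ hC]
      linarith) (by
      intro d hd hle
      have hcop := cop_of_dvd hodd hL1 ho0 hd
      have h1 := hl o ho1' ho2' d (Nat.Coprime.coprime_mul_left_right hcop).symm hle.le 0
      rw [pr_words, div_le_iff₀ hC]
      have h2 : (0 : ℝ) ≤ 1 / 4 ^ n := by positivity
      have h3 : (0 : ℝ) < Real.exp (-(n : ℝ) ^ (2 * r + 6)) := Real.exp_pos _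
      nlinarith)
  -- the uniform model
  have hu := sieve_apply (s := range D) (c := fun u => u) (a := a) (A := A) (L := L) (o := o)
    ha3 hodd haA hL1 hoL hr1 h3 hLn (by
      intro d hd _
      rw [pr_uniform hD0 hd, sub_self, abs_zero]
      exact (Real.exp_pos _).le) (by
      intro d hd hle
      rw [pr_uniform hD0 hd]
      have h2 : (4 : ℝ) ^ n ≤ d := by
        have h4 : 4 ^ n ≤ a ^ n ^ (r + 3) := by
          calc 4 ^ n = 2 ^ (2 * n) := by rw [pow_mul]; norm_num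
            _ ≤ 2 ^ n ^ (r + 3) := by
                refine Nat.pow_le_pow_right (by norm_num) ?_
                calc 2 * n ≤ n ^ (r + 2) * n := Nat.mul_le_mul_right _ (by
                      calc 2 ≤ n ^ 1 := by rw [pow_one]; omega
                        _ ≤ n ^ (r + 2) := Nat.pow_le_pow_right (by omega) (by omega))
                  _ = n ^ (r + 3) := by rw [← pow_succ]
            _ ≤ a ^ n ^ (r + 3) := Nat.pow_le_pow_left (by omega) _
        exact_mod_cast (h4.trans hle.le)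
      have h5 : 1 / (d : ℝ) ≤ 1 / 4 ^ n := one_div_le_one_div_of_le (by positivity) h2
      have h3 : (0 : ℝ) < Real.exp (-(n : ℝ) ^ (2 * r + 6)) := Real.exp_pos _
      have h4 : (0 : ℝ) < Real.exp (-(n : ℝ) ^ (r + 2)) := Real.exp_pos _
      linarith)
  have hfin : ∀ k ∈ D.divisors, |gl (Wo L o) (cw a) D k - (Nat.totient (D / k) : ℝ) / (D : ℕ)|
      ≤ |gl (Wo L o) (cw a) D k -
        if k ∈ Kset D (4 ^ n) (2 ^ n ^ (r + 2)) then gs D (4 ^ n) (n ^ 2) k else 0|
      + |gl (range D) (fun u => u) D k -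
        if k ∈ Kset D (4 ^ n) (2 ^ n ^ (r + 2)) then gs D (4 ^ n) (n ^ 2) k else 0| := by
    intro k hk
    rw [Nat.mem_divisors] at hk
    rw [← gl_uniform hk.1]
    have := abs_sub_le (gl (Wo L o) (cw a) D k)
      (if k ∈ Kset D (4 ^ n) (2 ^ n ^ (r + 2)) then gs D (4 ^ n) (n ^ 2) k else 0)
      (gl (range D) (fun u => u) D k)
    rw [abs_sub_comm (if k ∈ Kset D (4 ^ n) (2 ^ n ^ (r + 2)) then gs D (4 ^ n) (n ^ 2) k else 0)] at this
    exact this
  refine (sum_le_sum hfin).trans ?_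
  rw [sum_add_distrib]
  have hn60 : (60 : ℝ) ≤ n := by exact_mod_cast h60
  have hn0 : (0 : ℝ) < n := by linarith
  have hlogL0 : 0 < Real.log L := by
    apply Real.log_pos
    have : 2 ^ n ≤ L := Nat.pow_log_le_self 2 (by omega)
    have h2 : 2 ≤ L := by
      calc 2 = 2 ^ 1 := by norm_num
        _ ≤ 2 ^ n := Nat.pow_le_pow_right (by norm_num) (by omega)
        _ ≤ L := this
    exact_mod_cast (by omega : 1 < L)
  have hfinal : 30 / (n : ℝ) ^ r + 30 / (n : ℝ) ^ r ≤ 1 / (Real.log L) ^ K := by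
    have h1 : 1 / (n : ℝ) ^ K ≤ 1 / (Real.log L) ^ K :=
      one_div_le_one_div_of_le (by positivity) (pow_le_pow_left₀ hlogL0.le hlogn K)
    refine le_trans ?_ h1
    rw [← add_div, div_le_div_iff₀ (by positivity) (by positivity), one_mul, hr, pow_succ]
    have : (0 : ℝ) < (n : ℝ) ^ K := by positivity
    nlinarith
  linarith

/-- The mean of the logarithm of the greatest common divisor. -/
theorem mean_log {a : ℕ} (ha3 : 3 ≤ a) (hodd : Odd a) {ε : ℝ} (hε : 0 < ε) (K : ℕ) :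
    ∀ᶠ L : ℕ in atTop, ∀ o : ℕ, ε * L ≤ o → (o : ℝ) ≤ (1 - ε) * L →
      |Ex (Wo L o) (fun w => Real.log (Nat.gcd (cw a w) (DD a L o) : ℕ))
        - ∑ d ∈ (DD a L o).divisors, (vonMangoldt d : ℝ) / d| ≤ 1 / (L : ℝ) ^ K := by
  set ε' := min ε (1 / 2) with hε'
  have hε'0 : 0 < ε' := lt_min hε (by norm_num)
  have hε'1 : ε' ≤ 1 / 2 := min_le_right _ _
  have hε'2 : ε' ≤ ε := min_le_left _ _
  have hloga : 0 ≤ Real.log a := Real.log_natCast_nonneg a
  have herr : ∀ᶠ n : ℕ in atTop, (Real.log a * 2 * 3) * Real.exp (-(n : ℝ)) ≤ 1 := by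
    have h1 : Tendsto (fun n : ℕ => (Real.log a * 2 * 3) * Real.exp (-(n : ℝ))) atTop (𝓝 0) := by
      have := (Real.tendsto_exp_neg_atTop_nhds_zero.comp
        (tendsto_natCast_atTop_atTop (R := ℝ))).const_mul (Real.log a * 2 * 3)
      simpa using this
    exact h1.eventually (ge_mem_nhds one_pos)
  filter_upwards [equi_small ha3 1 hε'0 hε'1, equi_large ha3 hodd 1 hε'0 hε'1,
    tendsto_log2.eventually herr, tendsto_log2.eventually (eventually_ge_atTop 3),
    tendsto_log2.eventually (eventually_poly_le' (2 + 2 * K) 1 3 (by norm_num)),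
    eventually_ge_atTop 1] with L hs hl he h3 hpoly hL1
  intro o ho1 ho2
  have hLr : (0 : ℝ) < L := by exact_mod_cast (by omega : 0 < L)
  have ho1' : ε' * L ≤ o := (mul_le_mul_of_nonneg_right hε'2 hLr.le).trans ho1
  have ho2' : (o : ℝ) ≤ (1 - ε') * L :=
    ho2.trans (mul_le_mul_of_nonneg_right (by linarith) hLr.le)
  have ho0 : 1 ≤ o := by
    have : (0 : ℝ) < o := lt_of_lt_of_le (by positivity) ho1
    exact_mod_cast this
  have hoL : o ≤ L := by
    have : (o : ℝ) ≤ L := ho2.trans (by nlinarith)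
    exact_mod_cast this
  set n := Nat.log 2 L with hn
  have hLn : L ≤ 2 ^ (n + 1) := (Nat.lt_pow_succ_log_self (by norm_num) L).le
  have hn3 : (3 : ℝ) ≤ n := by exact_mod_cast h3
  set D := DD a L o with hD
  have hD0 : D ≠ 0 := DD_ne_zero hodd hL1 o
  have hC : (0 : ℝ) < L.choose o := by exact_mod_cast Nat.choose_pos hoL
  have h4 : Ex (Wo L o) (fun w => Real.log (Nat.gcd (cw a w) D : ℕ))
      = ∑ d ∈ D.divisors, (vonMangoldt d : ℝ) * pr (Wo L o) (cw a) d := by
    have h5 : Ex (Wo L o) (fun w => Real.log (Nat.gcd (cw a w) D : ℕ))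
        = Ex (Wo L o) (fun w => ∑ d ∈ D.divisors,
          (vonMangoldt d : ℝ) * if d ∣ cw a w then (1 : ℝ) else 0) := by
      refine Ex_congr fun ω _ => ?_
      rw [log_gcd hD0]
      refine sum_congr rfl fun d _ => ?_
      rw [mul_ite, mul_one, mul_zero]
    rw [h5, Ex_sum]
    refine sum_congr rfl fun d _ => ?_
    rw [Ex_mul]
    rfl
  -- exponentials
  have hexp8 : Real.exp (-(n : ℝ) ^ (2 * 1 + 6)) ≤ Real.exp (-(n : ℝ) ^ 3) := by
    apply Real.exp_le_exp.2
    have h1 : (n : ℝ) ^ 3 ≤ (n : ℝ) ^ (2 * 1 + 6) := pow_le_pow_right₀ (by linarith) (by norm_num)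
    linarith
  have hY : 1 / ((a ^ n ^ (1 + 3) : ℕ) : ℝ) ≤ Real.exp (-(n : ℝ) ^ 3) := by
    rw [Real.exp_neg, ← one_div]
    refine one_div_le_one_div_of_le (Real.exp_pos _) ?_
    have h5 : Real.exp 1 ≤ 3 := by
      have := Real.exp_one_lt_d9
      linarith
    calc Real.exp ((n : ℝ) ^ 3) = (Real.exp 1) ^ (n ^ 3) := by
          rw [← Real.exp_nat_mul]; congr 1; push_cast; ring
      _ ≤ 3 ^ (n ^ 3) := pow_le_pow_left₀ (Real.exp_pos _).le h5 _
      _ ≤ 3 ^ n ^ (1 + 3) :=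
          pow_le_pow_right₀ (by norm_num) (Nat.pow_le_pow_right (by omega) (by norm_num))
      _ ≤ ((a ^ n ^ (1 + 3) : ℕ) : ℝ) := by
          push_cast
          exact pow_le_pow_left₀ (by norm_num) (by exact_mod_cast ha3) _
  have hterm : ∀ d ∈ D.divisors, |(vonMangoldt d : ℝ) * pr (Wo L o) (cw a) d
      - (vonMangoldt d : ℝ) / d| ≤ (vonMangoldt d : ℝ) * (3 * Real.exp (-(n : ℝ) ^ 3)) := by
    intro d hd
    rw [Nat.mem_divisors] at hd
    have hcop := cop_of_dvd hodd hL1 ho0 hd.1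
    have hd0 := pos_of_cop ha3 hcop
    have hΛ : 0 ≤ (vonMangoldt d : ℝ) := vonMangoldt_nonneg
    have e1 : (vonMangoldt d : ℝ) * pr (Wo L o) (cw a) d - (vonMangoldt d : ℝ) / d
        = (vonMangoldt d : ℝ) * (pr (Wo L o) (cw a) d - 1 / (d : ℝ)) := by ring
    rw [e1, abs_mul, abs_of_nonneg hΛ]
    refine mul_le_mul_of_nonneg_left ?_ hΛ
    have hexp0 : 0 < Real.exp (-(n : ℝ) ^ 3) := Real.exp_pos _
    by_cases hle : d ≤ a ^ n ^ (1 + 3)
    · have h1 := hs o ho1' ho2' d hd0 hcop hle 0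
      rw [pr_words]
      have h2 : (cnt a L o d 0 : ℝ) / L.choose o - 1 / (d : ℝ)
          = ((cnt a L o d 0 : ℝ) - L.choose o / d) / L.choose o := by
        field_simp
      rw [h2, abs_div, abs_of_pos hC, div_le_iff₀ hC]
      have h5 : Real.exp (-(n : ℝ) ^ (2 * 1 + 6)) ≤ 3 * Real.exp (-(n : ℝ) ^ 3) := by linarith
      calc |(cnt a L o d 0 : ℝ) - L.choose o / d| ≤ L.choose o * Real.exp (-(n : ℝ) ^ (2 * 1 + 6)) := h1
        _ ≤ L.choose o * (3 * Real.exp (-(n : ℝ) ^ 3)) := mul_le_mul_of_nonneg_left h5 hC.le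
        _ = 3 * Real.exp (-(n : ℝ) ^ 3) * L.choose o := by ring
    · push Not at hle
      have h1 := hl o ho1' ho2' d (Nat.Coprime.coprime_mul_left_right hcop).symm hle.le 0
      have h2 : pr (Wo L o) (cw a) d ≤ Real.exp (-(n : ℝ) ^ 3) := by
        rw [pr_words, div_le_iff₀ hC]
        have e3 : (n : ℝ) ^ (1 + 2) = (n : ℝ) ^ 3 := by norm_num
        rw [e3] at h1
        linarith
      have h3 : 0 ≤ pr (Wo L o) (cw a) d := by
        rw [pr_words]; positivity
      have h4 : 1 / (d : ℝ) ≤ Real.exp (-(n : ℝ) ^ 3) := by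
        refine le_trans ?_ hY
        refine one_div_le_one_div_of_le ?_ (by exact_mod_cast hle.le)
        exact_mod_cast (by positivity : 0 < a ^ n ^ (1 + 3))
      have h5 : 0 ≤ 1 / (d : ℝ) := by positivity
      rw [abs_le]
      constructor <;> linarith
  rw [h4, ← sum_sub_distrib]
  refine (abs_sum_le_sum_abs _ _).trans ((sum_le_sum hterm).trans ?_)
  rw [← sum_mul, vonMangoldt_sum]
  have hlogD : Real.log D ≤ (2 * 2 ^ n) * Real.log a := by
    have h1 : Real.log D ≤ L * Real.log a := log_DD_le ha3 hoL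
    have h2 : (L : ℝ) ≤ 2 * 2 ^ n := by
      have : (L : ℝ) ≤ 2 ^ (n + 1) := by exact_mod_cast hLn
      rw [pow_succ] at this
      linarith
    exact h1.trans (mul_le_mul_of_nonneg_right h2 hloga)
  have hLK : (L : ℝ) ^ K ≤ Real.exp (K * (n + 1)) := by
    have h1 : (L : ℝ) ≤ Real.exp (n + 1) := by
      have h2 : (L : ℝ) ≤ 2 ^ (n + 1) := by exact_mod_cast hLn
      refine h2.trans ((two_pow_le_exp (n + 1)).trans (le_of_eq ?_))
      push_cast
      rfl
    calc (L : ℝ) ^ K ≤ (Real.exp (n + 1)) ^ K := pow_le_pow_left₀ hLr.le h1 K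
      _ = Real.exp (K * (n + 1)) := by rw [← Real.exp_nat_mul]
  rw [le_div_iff₀ (by positivity)]
  have hKn : (n : ℝ) + K * (n + 1) + n ≤ (n : ℝ) ^ 3 := by
    have h1 : (2 + 2 * (K : ℝ)) * (n : ℝ) ≤ (n : ℝ) ^ 3 := by simpa using hpoly
    have h2 : (K : ℝ) * (n + 1) ≤ K * (2 * n) :=
      mul_le_mul_of_nonneg_left (by linarith) (Nat.cast_nonneg _)
    linarith
  calc Real.log D * (3 * Real.exp (-(n : ℝ) ^ 3)) * (L : ℝ) ^ K
      ≤ ((2 * 2 ^ n) * Real.log a) * (3 * Real.exp (-(n : ℝ) ^ 3)) * Real.exp (K * (n + 1)) :=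
        mul_le_mul (mul_le_mul_of_nonneg_right hlogD (by positivity)) hLK (by positivity)
          (by positivity)
    _ ≤ ((2 * Real.exp n) * Real.log a) * (3 * Real.exp (-(n : ℝ) ^ 3)) * Real.exp (K * (n + 1)) := by
        refine mul_le_mul_of_nonneg_right (mul_le_mul_of_nonneg_right
          (mul_le_mul_of_nonneg_right ?_ hloga) (by positivity)) (by positivity)
        exact mul_le_mul_of_nonneg_left (two_pow_le_exp n) (by norm_num)
    _ = (Real.log a * 2 * 3) * (Real.exp n * Real.exp (-(n : ℝ) ^ 3) * Real.exp (K * (n + 1))) := by ring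
    _ = (Real.log a * 2 * 3) * Real.exp (n + -(n : ℝ) ^ 3 + K * (n + 1)) := by
        rw [← Real.exp_add, ← Real.exp_add]
    _ ≤ (Real.log a * 2 * 3) * Real.exp (-(n : ℝ)) :=
        mul_le_mul_of_nonneg_left (Real.exp_le_exp.2 (by linarith)) (by positivity)
    _ ≤ 1 := he

end Pool.Agent.W5h45.RC
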