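import Pool.Agent.W5h45.RC.R1
import Pool.Agent.W5h45.RC.X4
import Pool.Agent.W5h45.RC.W10

/-! The law of the denominators of the rational periodic points. -/

namespace Pool.Agent.W5h45.RC
open Finset Filter Topology ArithmeticFunction

/-- The finite set of the periodic points of the class. -/
noncomputable def PP (a L o : ℕ) : Finset ℚ := (Wo L o).image (xw a)

lemma mem_Wo {L o : ℕ} {w : List Bool} : w ∈ Wo L o ↔ w.length = L ∧ on w = o := by
  rw [Wo, mem_filter, mem_Wd]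

lemma mem_PP {a L o : ℕ} (hodd : Odd a) (hL : 1 ≤ L) (x : ℚ) :
    x ∈ PP a L o ↔ Odd x.den ∧ (T a)^[L] x = x ∧ odds a L x = o := by
  rw [PP, mem_image]
  constructor
  · rintro ⟨w, hw, rfl⟩
    rw [mem_Wo] at hw
    exact xw_mem hodd hL hw.1 hw.2
  · rintro ⟨_, h2, h3⟩
    obtain ⟨h4, h5, h6⟩ := mem_PerClass hodd hL h2 h3
    exact ⟨pw a L x, by rw [mem_Wo]; exact ⟨h5, h6⟩, h4.symm⟩

lemma injOn_xw {a L o : ℕ} (hodd : Odd a) (hL : 1 ≤ L) :
    Set.InjOn (xw a) (Wo L o : Finset (List Bool)) := by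
  intro w hw w' hw' h
  rw [mem_coe, mem_Wo] at hw hw'
  exact xw_inj hodd hL hw.1 hw'.1 hw.2 hw'.2 h

lemma card_PP {a L o : ℕ} (hodd : Odd a) (hL : 1 ≤ L) : (PP a L o).card = L.choose o := by
  rw [PP, card_image_of_injOn (injOn_xw hodd hL), card_Wo]

lemma den_eq {a L o : ℕ} (hodd : Odd a) (hL : 1 ≤ L) {w : List Bool} (hw : w ∈ Wo L o) :
    (xw a w).den = DD a L o / Nat.gcd (cw a w) (DD a L o) := by
  rw [mem_Wo] at hw
  rw [den_xw hodd (by omega), hw.1, hw.2]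

lemma den_dvd_PP {a L o : ℕ} (hodd : Odd a) (hL : 1 ≤ L) {x : ℚ} (hx : x ∈ PP a L o) :
    x.den ∣ DD a L o := by
  rw [PP, mem_image] at hx
  obtain ⟨w, hw, rfl⟩ := hx
  rw [den_eq hodd hL hw]
  exact Nat.div_dvd_of_dvd (Nat.gcd_dvd_right _ _)

lemma law_PP {a L o : ℕ} (hodd : Odd a) (hL : 1 ≤ L) {b : ℕ} (hb : b ∣ DD a L o) :
    (((PP a L o).filter (fun x => x.den = b)).card : ℝ) / (PP a L o).card
      = gl (Wo L o) (cw a) (DD a L o) (DD a L o / b) := by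
  have hD0 := DD_ne_zero hodd hL o
  unfold gl Ex
  rw [card_PP hodd hL, card_Wo]
  congr 1
  have h1 : (PP a L o).filter (fun x => x.den = b)
      = ((Wo L o).filter (fun w => Nat.gcd (cw a w) (DD a L o) = DD a L o / b)).image (xw a) := by
    rw [PP, filter_image]
    congr 1
    refine filter_congr fun w hw => ?_
    rw [den_eq hodd hL hw]
    have hg : Nat.gcd (cw a w) (DD a L o) ∣ DD a L o := Nat.gcd_dvd_right _ _
    have hg0 : 0 < Nat.gcd (cw a w) (DD a L o) := Nat.pos_of_dvd_of_pos hg (Nat.pos_of_ne_zero hD0)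
    have hb0 : 0 < b := Nat.pos_of_dvd_of_pos hb (Nat.pos_of_ne_zero hD0)
    constructor
    · intro h
      rw [← h, Nat.div_div_self hg hD0]
    · intro h
      rw [h, Nat.div_div_self hb hD0]
  rw [h1, card_image_of_injOn ((injOn_xw hodd hL).mono (by
    intro w hw
    rw [mem_coe, mem_filter] at hw
    exact hw.1)), Finset.card_eq_sum_ones, Nat.cast_sum, Nat.cast_one, sum_filter]

lemma log_PP {a L o : ℕ} (hodd : Odd a) (hL : 1 ≤ L) :
    (∑ x ∈ PP a L o, Real.log ((DD a L o : ℝ) / (x.den : ℝ))) / (PP a L o).card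
      = Ex (Wo L o) (fun w => Real.log (Nat.gcd (cw a w) (DD a L o) : ℕ)) := by
  have hD0 := DD_ne_zero hodd hL o
  unfold Ex
  rw [card_PP hodd hL, card_Wo, PP, sum_image (injOn_xw hodd hL)]
  congr 1
  refine sum_congr rfl fun w hw => ?_
  rw [den_eq hodd hL hw]
  have hg : Nat.gcd (cw a w) (DD a L o) ∣ DD a L o := Nat.gcd_dvd_right _ _
  have hg0 : (Nat.gcd (cw a w) (DD a L o) : ℝ) ≠ 0 := by
    exact_mod_cast (Nat.pos_of_dvd_of_pos hg (Nat.pos_of_ne_zero hD0)).ne'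
  have hD0' : (DD a L o : ℝ) ≠ 0 := by exact_mod_cast hD0
  rw [Nat.cast_div hg hg0]
  congr 1
  field_simp

/-- The finite set of all periodic points. -/
noncomputable def QQ (a L : ℕ) : Finset ℚ := (Wd L).image (xw a)

lemma mem_QQ {a L : ℕ} (hodd : Odd a) (hL : 1 ≤ L) (x : ℚ) :
    x ∈ QQ a L ↔ Odd x.den ∧ (T a)^[L] x = x := by
  rw [QQ, mem_image]
  constructor
  · rintro ⟨w, hw, rfl⟩
    rw [mem_Wd] at hw
    have := xw_mem hodd hL hw rfl
    exact ⟨this.1, this.2.1⟩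
  · rintro ⟨_, h2⟩
    obtain ⟨h4, h5, h6⟩ := mem_PerClass hodd hL h2 rfl
    exact ⟨pw a L x, by rw [mem_Wd]; exact h5, h4.symm⟩

lemma odds_xw {a L : ℕ} (hodd : Odd a) {w : List Bool} (hw : w.length = L) :
    odds a L (xw a w) = on w := by
  have h := iter_xw hodd w []
  simp only [List.append_nil, List.nil_append] at h
  rw [← hw]; exact h.2

lemma injOn_xw' {a L : ℕ} (hodd : Odd a) (hL : 1 ≤ L) :
    Set.InjOn (xw a) (Wd L : Finset (List Bool)) := by
  intro w hw w' hw' h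
  rw [mem_coe, mem_Wd] at hw hw'
  have h1 := odds_xw (a := a) hodd hw
  have h2 := odds_xw (a := a) hodd hw'
  rw [h, h2] at h1
  exact xw_inj hodd hL hw hw' h1.symm rfl h

lemma sum_QQ {a L : ℕ} (hodd : Odd a) (hL : 1 ≤ L) :
    ∑ x ∈ QQ a L, Real.log ((DD a L (odds a L x) : ℝ) / (x.den : ℝ)) = SS a L := by
  rw [QQ, sum_image (injOn_xw' hodd hL), SS]
  refine sum_congr rfl fun w hw => ?_
  rw [mem_Wd] at hw
  rw [odds_xw hodd hw, den_eq hodd hL (mem_Wo.2 ⟨hw, rfl⟩)]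
  have hD0 := DD_ne_zero hodd hL (on w)
  have hg : Nat.gcd (cw a w) (DD a L (on w)) ∣ DD a L (on w) := Nat.gcd_dvd_right _ _
  have hg0 : (Nat.gcd (cw a w) (DD a L (on w)) : ℝ) ≠ 0 := by
    exact_mod_cast (Nat.pos_of_dvd_of_pos hg (Nat.pos_of_ne_zero hD0)).ne'
  have hD0' : (DD a L (on w) : ℝ) ≠ 0 := by exact_mod_cast hD0
  rw [Nat.cast_div hg hg0]
  congr 1
  field_simp

end Pool.Agent.W5h45.RC
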