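import Pool.Agent.W5h45.RC.R1

/-! The integer cycles of `T_3` and `T_5` lie in the classes covered by the law. -/

namespace Pool.Agent.W5h45.RC
open Finset

/-- The map on the integers. -/
def Tz (a : ℕ) (x : ℤ) : ℤ := if Even x then x / 2 else (a * x + 1) / 2

lemma two_mul_Tz_even {a : ℕ} {x : ℤ} (h : Even x) : 2 * Tz a x = x := by
  unfold Tz; rw [if_pos h]
  exact Int.mul_ediv_cancel' h.two_dvd

lemma two_mul_Tz_odd {a : ℕ} (hodd : Odd a) {x : ℤ} (h : ¬ Even x) : 2 * Tz a x = a * x + 1 := by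
  unfold Tz; rw [if_neg h]
  have h1 : Odd x := Int.not_even_iff_odd.1 h
  have h2 : Odd (a : ℤ) := by exact_mod_cast hodd
  have h3 : Even ((a : ℤ) * x + 1) := (h2.mul h1).add_one
  exact Int.mul_ediv_cancel' h3.two_dvd

lemma T_int {a : ℕ} (hodd : Odd a) (x : ℤ) : T a (x : ℚ) = (Tz a x : ℚ) := by
  unfold T
  rw [Rat.num_intCast]
  by_cases h : Even x
  · rw [if_pos h]
    have := two_mul_Tz_even (a := a) h
    have h2 : (2 : ℚ) * (Tz a x : ℚ) = x := by exact_mod_cast this
    linarith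
  · rw [if_neg h]
    have := two_mul_Tz_odd hodd h
    have h2 : (2 : ℚ) * (Tz a x : ℚ) = a * x + 1 := by exact_mod_cast this
    linarith

lemma iter_int {a : ℕ} (hodd : Odd a) (i : ℕ) (x : ℤ) : (T a)^[i] (x : ℚ) = ((Tz a)^[i] x : ℤ) := by
  induction i generalizing x with
  | zero => rfl
  | succ i ih => rw [Function.iterate_succ, Function.comp, T_int hodd, ih]; rfl

lemma odds_int_succ {a : ℕ} (hodd : Odd a) (L : ℕ) (x : ℤ) :
    odds a (L + 1) (x : ℚ) = (if Even x then 0 else 1) + odds a L (Tz a x : ℚ) := by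
  rw [odds_succ, T_int hodd, Rat.num_intCast]
  congr 1
  by_cases h : Even x
  · rw [if_pos h, if_neg (Int.not_odd_iff_even.2 h)]
  · rw [if_neg h, if_pos (Int.not_even_iff_odd.1 h)]

lemma pos_bounds {a : ℕ} (ha : 3 ≤ a) (hodd : Odd a) (L : ℕ) : ∀ x : ℤ, 1 ≤ x →
    (a : ℤ) ^ odds a L (x : ℚ) * x ≤ 2 ^ L * (Tz a)^[L] x ∧
      2 ^ L * (Tz a)^[L] x ≤ ((a : ℤ) + 1) ^ odds a L (x : ℚ) * x := by
  have ha' : (3 : ℤ) ≤ a := by exact_mod_cast ha
  induction L with
  | zero => intro x _; simp [odds]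
  | succ L ih =>
    intro x hx
    rw [odds_int_succ hodd, Function.iterate_succ, Function.comp]
    by_cases h : Even x
    · have h2 := two_mul_Tz_even (a := a) h
      obtain ⟨i1, i2⟩ := ih (Tz a x) (by omega)
      rw [if_pos h, zero_add]
      set o := odds a L (Tz a x : ℚ)
      set y := (Tz a)^[L] (Tz a x)
      constructor
      · calc (a : ℤ) ^ o * x = (a : ℤ) ^ o * (2 * Tz a x) := by rw [h2]
          _ = 2 * ((a : ℤ) ^ o * Tz a x) := by ring
          _ ≤ 2 * (2 ^ L * y) := by linarith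
          _ = 2 ^ (L + 1) * y := by ring
      · calc 2 ^ (L + 1) * y = 2 * (2 ^ L * y) := by ring
          _ ≤ 2 * (((a : ℤ) + 1) ^ o * Tz a x) := by linarith
          _ = ((a : ℤ) + 1) ^ o * (2 * Tz a x) := by ring
          _ = ((a : ℤ) + 1) ^ o * x := by rw [h2]
    · have h2 := two_mul_Tz_odd hodd h
      have hT : 1 ≤ Tz a x := by nlinarith
      obtain ⟨i1, i2⟩ := ih (Tz a x) hT
      rw [if_neg h, add_comm 1]
      set o := odds a L (Tz a x : ℚ)
      set y := (Tz a)^[L] (Tz a x)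
      have hp1 : (0 : ℤ) < (a : ℤ) ^ o := by positivity
      have hp2 : (0 : ℤ) < ((a : ℤ) + 1) ^ o := by positivity
      constructor
      · calc (a : ℤ) ^ (o + 1) * x = (a : ℤ) ^ o * (a * x) := by ring
          _ ≤ (a : ℤ) ^ o * (2 * Tz a x) := mul_le_mul_of_nonneg_left (by linarith) hp1.le
          _ = 2 * ((a : ℤ) ^ o * Tz a x) := by ring
          _ ≤ 2 * (2 ^ L * y) := by linarith
          _ = 2 ^ (L + 1) * y := by ring
      · calc 2 ^ (L + 1) * y = 2 * (2 ^ L * y) := by ring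
          _ ≤ 2 * (((a : ℤ) + 1) ^ o * Tz a x) := by linarith
          _ = ((a : ℤ) + 1) ^ o * (2 * Tz a x) := by ring
          _ ≤ ((a : ℤ) + 1) ^ o * (((a : ℤ) + 1) * x) :=
              mul_le_mul_of_nonneg_left (by nlinarith) hp2.le
          _ = ((a : ℤ) + 1) ^ (o + 1) * x := by ring

lemma neg_bounds {a : ℕ} (ha : 3 ≤ a) (hodd : Odd a) (L : ℕ) : ∀ x : ℤ, x ≤ -1 →
    ((a : ℤ) - 1) ^ odds a L (x : ℚ) * (-x) ≤ 2 ^ L * (-(Tz a)^[L] x) ∧
      2 ^ L * (-(Tz a)^[L] x) ≤ (a : ℤ) ^ odds a L (x : ℚ) * (-x) := by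
  have ha' : (3 : ℤ) ≤ a := by exact_mod_cast ha
  induction L with
  | zero => intro x _; simp [odds]
  | succ L ih =>
    intro x hx
    rw [odds_int_succ hodd, Function.iterate_succ, Function.comp]
    by_cases h : Even x
    · have h2 := two_mul_Tz_even (a := a) h
      obtain ⟨i1, i2⟩ := ih (Tz a x) (by omega)
      rw [if_pos h, zero_add]
      set o := odds a L (Tz a x : ℚ)
      set y := (Tz a)^[L] (Tz a x)
      have e1 : -x = 2 * (- Tz a x) := by linarith
      constructor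
      · rw [e1]
        calc ((a : ℤ) - 1) ^ o * (2 * (- Tz a x)) = 2 * (((a : ℤ) - 1) ^ o * (- Tz a x)) := by ring
          _ ≤ 2 * (2 ^ L * (-y)) := by linarith
          _ = 2 ^ (L + 1) * (-y) := by ring
      · rw [e1]
        calc 2 ^ (L + 1) * (-y) = 2 * (2 ^ L * (-y)) := by ring
          _ ≤ 2 * ((a : ℤ) ^ o * (- Tz a x)) := by linarith
          _ = (a : ℤ) ^ o * (2 * (- Tz a x)) := by ring
    · have h2 := two_mul_Tz_odd hodd h
      have hT : Tz a x ≤ -1 := by nlinarith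
      obtain ⟨i1, i2⟩ := ih (Tz a x) hT
      rw [if_neg h, add_comm 1]
      set o := odds a L (Tz a x : ℚ)
      set y := (Tz a)^[L] (Tz a x)
      have hp1 : (0 : ℤ) < (a : ℤ) ^ o := by positivity
      have hp2 : (0 : ℤ) < ((a : ℤ) - 1) ^ o := pow_pos (by linarith) _
      constructor
      · calc ((a : ℤ) - 1) ^ (o + 1) * (-x) = ((a : ℤ) - 1) ^ o * (((a : ℤ) - 1) * (-x)) := by ring
          _ ≤ ((a : ℤ) - 1) ^ o * (2 * (- Tz a x)) := mul_le_mul_of_nonneg_left (by nlinarith) hp2.le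
          _ = 2 * (((a : ℤ) - 1) ^ o * (- Tz a x)) := by ring
          _ ≤ 2 * (2 ^ L * (-y)) := by linarith
          _ = 2 ^ (L + 1) * (-y) := by ring
      · calc 2 ^ (L + 1) * (-y) = 2 * (2 ^ L * (-y)) := by ring
          _ ≤ 2 * ((a : ℤ) ^ o * (- Tz a x)) := by linarith
          _ = (a : ℤ) ^ o * (2 * (- Tz a x)) := by ring
          _ ≤ (a : ℤ) ^ o * (a * (-x)) := mul_le_mul_of_nonneg_left (by linarith) hp1.le
          _ = (a : ℤ) ^ (o + 1) * (-x) := by ring

lemma neg_bounds3 (L : ℕ) : ∀ x : ℤ, x ≤ -1 → (∀ i < L, (Tz 3)^[i] x ≠ -1) →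
    8 ^ odds 3 L (x : ℚ) * (-x) ≤ 3 ^ odds 3 L (x : ℚ) * (2 ^ L * (-(Tz 3)^[L] x)) := by
  have hodd : Odd 3 := by decide
  induction L with
  | zero => intro x _ _; simp [odds]
  | succ L ih =>
    intro x hx hne
    rw [odds_int_succ hodd, Function.iterate_succ, Function.comp]
    have hne' : ∀ i < L, (Tz 3)^[i] (Tz 3 x) ≠ -1 := by
      intro i hi
      have := hne (i + 1) (by omega)
      rwa [Function.iterate_succ, Function.comp] at this
    by_cases h : Even x
    · have h2 := two_mul_Tz_even (a := 3) h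
      have i1 := ih (Tz 3 x) (by omega) hne'
      rw [if_pos h, zero_add]
      set o := odds 3 L (Tz 3 x : ℚ)
      set y := (Tz 3)^[L] (Tz 3 x)
      have e1 : -x = 2 * (- Tz 3 x) := by linarith
      rw [e1]
      calc (8 : ℤ) ^ o * (2 * (- Tz 3 x)) = 2 * (8 ^ o * (- Tz 3 x)) := by ring
        _ ≤ 2 * (3 ^ o * (2 ^ L * (-y))) := by linarith
        _ = 3 ^ o * (2 ^ (L + 1) * (-y)) := by ring
    · have h2 := two_mul_Tz_odd hodd h
      push_cast at h2
      have hx1 : x ≠ -1 := hne 0 (by omega)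
      have hx2 : x ≠ -2 := by
        rintro rfl
        exact h (by decide)
      have hx3 : x ≤ -3 := by omega
      have hT : Tz 3 x ≤ -1 := by linarith
      have i1 := ih (Tz 3 x) hT hne'
      rw [if_neg h, add_comm 1]
      set o := odds 3 L (Tz 3 x : ℚ)
      set y := (Tz 3)^[L] (Tz 3 x)
      have hp1 : (0 : ℤ) < 8 ^ o := by positivity
      calc (8 : ℤ) ^ (o + 1) * (-x) = 8 ^ o * (8 * (-x)) := by ring
        _ ≤ 8 ^ o * (3 * (2 * (- Tz 3 x))) := mul_le_mul_of_nonneg_left (by linarith) hp1.le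
        _ = 6 * (8 ^ o * (- Tz 3 x)) := by ring
        _ ≤ 6 * (3 ^ o * (2 ^ L * (-y))) := by linarith
        _ = 3 ^ (o + 1) * (2 ^ (L + 1) * (-y)) := by ring

lemma Tz_three_neg_one (i : ℕ) : (Tz 3)^[i] (-1) = -1 := by
  induction i with
  | zero => rfl
  | succ i ih =>
    rw [Function.iterate_succ, Function.comp]
    have : Tz 3 (-1) = -1 := by decide
    rw [this, ih]

lemma pow_cmp {m n : ℕ} (h : (2 : ℤ) ^ m ≤ 2 ^ n) : m ≤ n :=
  (pow_le_pow_iff_right₀ (by norm_num : (1 : ℤ) < 2)).1 h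

/-- The classes that contain an integer periodic point. -/
theorem integer_classes {a : ℕ} (ha : a = 3 ∨ a = 5) {x : ℤ} (hx0 : x ≠ 0) (hx1 : x ≠ -1)
    {L : ℕ} (hx : (T a)^[L] (x : ℚ) = x) :
    L ≤ 3 * odds a L (x : ℚ) ∧ 4 * odds a L (x : ℚ) ≤ 3 * L := by
  have cmp : ∀ {b c y : ℤ}, 0 < y → b * y ≤ c * y → b ≤ c := by
    intro b c y hy h
    exact le_of_mul_le_mul_right h hy
  rcases ha with rfl | rfl
  · have hodd : Odd 3 := by decide
    have hxz : (Tz 3)^[L] x = x := by
      rw [iter_int hodd] at hx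
      exact_mod_cast hx
    rcases lt_or_gt_of_ne hx0 with hneg | hpos
    · have hx' : x ≤ -1 := by omega
      have b2 := (neg_bounds le_rfl hodd L x hx').2
      have hne : ∀ i < L, (Tz 3)^[i] x ≠ -1 := by
        intro i hi hcon
        apply hx1
        have h1 : (Tz 3)^[L] x = (Tz 3)^[L - i] ((Tz 3)^[i] x) := by
          rw [← Function.iterate_add_apply]; congr 2; omega
        rw [← hxz, h1, hcon, Tz_three_neg_one]
      have b3 := neg_bounds3 L x hx' hne
      rw [hxz] at b2 b3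
      rw [← mul_assoc] at b3
      have c2 := cmp (by omega) b2
      have c3 := cmp (by omega) b3
      generalize odds 3 L (x : ℚ) = o at *
      push_cast at c2
      constructor
      · have h1 : (2 : ℤ) ^ L ≤ 2 ^ (2 * o) := by
          calc (2 : ℤ) ^ L ≤ 3 ^ o := c2
            _ ≤ 4 ^ o := pow_le_pow_left₀ (by norm_num) (by norm_num) _
            _ = 2 ^ (2 * o) := by rw [pow_mul]; norm_num
        have := pow_cmp h1
        omega
      · have h1 : (2 : ℤ) ^ (15 * o) ≤ 2 ^ (8 * o + 5 * L) := by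
          calc (2 : ℤ) ^ (15 * o) = (8 ^ o) ^ 5 := by
                rw [← pow_mul, show (8 : ℤ) = 2 ^ 3 by norm_num, ← pow_mul]; congr 1; ring
            _ ≤ (3 ^ o * 2 ^ L) ^ 5 := pow_le_pow_left₀ (by positivity) c3 5
            _ = (3 ^ 5) ^ o * 2 ^ (5 * L) := by
                rw [mul_pow, ← pow_mul, ← pow_mul, ← pow_mul, mul_comm o 5, mul_comm L 5]
            _ ≤ (2 ^ 8) ^ o * 2 ^ (5 * L) := by
                refine mul_le_mul_of_nonneg_right ?_ (by positivity)
                exact pow_le_pow_left₀ (by norm_num) (by norm_num) _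
            _ = 2 ^ (8 * o + 5 * L) := by rw [← pow_mul, ← pow_add]
        have := pow_cmp h1
        omega
    · obtain ⟨b1, b2⟩ := pos_bounds le_rfl hodd L x (by omega)
      rw [hxz] at b1 b2
      have c1 := cmp hpos b1
      have c2 := cmp hpos b2
      generalize odds 3 L (x : ℚ) = o at *
      norm_num at c1 c2
      constructor
      · have h1 : (2 : ℤ) ^ L ≤ 2 ^ (2 * o) := by
          calc (2 : ℤ) ^ L ≤ 4 ^ o := c2
            _ = 2 ^ (2 * o) := by rw [pow_mul]; norm_num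
        have := pow_cmp h1
        omega
      · by_contra hcon
        push Not at hcon
        have h1 : (27 : ℤ) ^ L * 3 ≤ 16 ^ L := by
          calc (27 : ℤ) ^ L * 3 = 3 ^ (3 * L + 1) := by rw [pow_succ, pow_mul]; norm_num
            _ ≤ 3 ^ (4 * o) := pow_le_pow_right₀ (by norm_num) (by omega)
            _ = (3 ^ o) ^ 4 := by rw [← pow_mul]; congr 1; ring
            _ ≤ (2 ^ L) ^ 4 := pow_le_pow_left₀ (by positivity) c1 4
            _ = 16 ^ L := by rw [← pow_mul, mul_comm, pow_mul]; norm_num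
        have h2 : (16 : ℤ) ^ L ≤ 27 ^ L := pow_le_pow_left₀ (by norm_num) (by norm_num) _
        have h3 : (0 : ℤ) < 16 ^ L := by positivity
        linarith
  · have hodd : Odd 5 := by decide
    have hxz : (Tz 5)^[L] x = x := by
      rw [iter_int hodd] at hx
      exact_mod_cast hx
    rcases lt_or_gt_of_ne hx0 with hneg | hpos
    · obtain ⟨b1, b2⟩ := neg_bounds (by norm_num) hodd L x (by omega)
      rw [hxz] at b1 b2
      have c1 := cmp (by omega) b1
      have c2 := cmp (by omega) b2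
      generalize odds 5 L (x : ℚ) = o at *
      norm_num at c1 c2
      constructor
      · have h1 : (2 : ℤ) ^ L ≤ 2 ^ (3 * o) := by
          calc (2 : ℤ) ^ L ≤ 5 ^ o := c2
            _ ≤ 8 ^ o := pow_le_pow_left₀ (by norm_num) (by norm_num) _
            _ = 2 ^ (3 * o) := by rw [pow_mul]; norm_num
        exact pow_cmp h1
      · have h1 : (2 : ℤ) ^ (2 * o) ≤ 2 ^ L := by
          calc (2 : ℤ) ^ (2 * o) = 4 ^ o := by rw [pow_mul]; norm_num
            _ ≤ 2 ^ L := c1
        have := pow_cmp h1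
        omega
    · obtain ⟨b1, b2⟩ := pos_bounds (by norm_num) hodd L x (by omega)
      rw [hxz] at b1 b2
      have c1 := cmp hpos b1
      have c2 := cmp hpos b2
      generalize odds 5 L (x : ℚ) = o at *
      norm_num at c1 c2
      constructor
      · have h1 : (2 : ℤ) ^ L ≤ 2 ^ (3 * o) := by
          calc (2 : ℤ) ^ L ≤ 6 ^ o := c2
            _ ≤ 8 ^ o := pow_le_pow_left₀ (by norm_num) (by norm_num) _
            _ = 2 ^ (3 * o) := by rw [pow_mul]; norm_num
        exact pow_cmp h1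
      · have h1 : (2 : ℤ) ^ (2 * o) ≤ 2 ^ L := by
          calc (2 : ℤ) ^ (2 * o) = 4 ^ o := by rw [pow_mul]; norm_num
            _ ≤ 5 ^ o := pow_le_pow_left₀ (by norm_num) (by norm_num) _
            _ ≤ 2 ^ L := c1
        have := pow_cmp h1
        omega

end Pool.Agent.W5h45.RC
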