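import Pool.Agent.W5h45.RC.W9

/-! Rational cycles: the bijection between words and rational periodic points. -/

namespace Pool.Agent.W5h45.RC
open Finset

/-- The map `T_a` on the rational numbers. -/
def T (a : ℕ) (x : ℚ) : ℚ := if Even x.num then x / 2 else (a * x + 1) / 2

/-- The number of odd terms among `x, T x, ..., T^(L-1) x`. -/
def odds (a L : ℕ) (x : ℚ) : ℕ := ((range L).filter (fun i => Odd ((T a)^[i] x).num)).card

/-- The parity word. -/
def pw (a : ℕ) : ℕ → ℚ → List Bool
  | 0, _ => []
  | L + 1, x => (decide (Odd x.num)) :: pw a L (T a x)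

lemma length_pw (a L : ℕ) (x : ℚ) : (pw a L x).length = L := by
  induction L generalizing x with
  | zero => rfl
  | succ L ih => simp [pw, ih]

lemma odds_succ (a L : ℕ) (x : ℚ) :
    odds a (L + 1) x = (if Odd x.num then 1 else 0) + odds a L (T a x) := by
  unfold odds
  rw [Finset.card_eq_sum_ones, Finset.card_eq_sum_ones, sum_filter, sum_filter,
    Finset.sum_range_succ']
  simp only [Function.iterate_succ, Function.comp, Function.iterate_zero, id]
  ring

lemma on_pw (a L : ℕ) (x : ℚ) : on (pw a L x) = odds a L x := by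
  induction L generalizing x with
  | zero => simp [pw, odds]
  | succ L ih =>
    rw [odds_succ, ← ih, pw]
    by_cases h : Odd x.num
    · simp [h]; ring
    · simp [h]

lemma iter_eq (a L : ℕ) (x : ℚ) :
    2 ^ L * (T a)^[L] x = a ^ on (pw a L x) * x + cw a (pw a L x) := by
  induction L generalizing x with
  | zero => simp [pw]
  | succ L ih =>
    rw [Function.iterate_succ, Function.comp, pow_succ, mul_assoc, mul_left_comm, ih]
    by_cases h : Odd x.num
    · have h' : ¬ Even x.num := Int.not_even_iff_odd.2 h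
      simp only [pw, h, decide_true, on_true, cw_true]
      have hT : T a x = (a * x + 1) / 2 := by unfold T; rw [if_neg h']
      rw [hT]
      push_cast
      ring
    · have h' : Even x.num := Int.not_odd_iff_even.1 h
      simp only [pw, h, decide_false, on_false, cw_false]
      have hT : T a x = x / 2 := by unfold T; rw [if_pos h']
      rw [hT]
      push_cast
      ring

/-- The integer `2 ^ L - a ^ o`. -/
def Di (a L o : ℕ) : ℤ := (2 : ℤ) ^ L - (a : ℤ) ^ o

lemma Di_odd {a : ℕ} (hodd : Odd a) {L : ℕ} (hL : 1 ≤ L) (o : ℕ) : Odd (Di a L o) := by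
  have := DD_odd hodd hL o
  unfold DD at this
  exact Int.natAbs_odd.1 this

lemma Di_ne_zero {a : ℕ} (hodd : Odd a) {L : ℕ} (hL : 1 ≤ L) (o : ℕ) : (Di a L o : ℚ) ≠ 0 := by
  have h := Di_odd hodd hL o
  intro h0
  have : Di a L o = 0 := by exact_mod_cast h0
  rw [this] at h
  simp at h

/-- The rational number attached to a word. -/
def xw (a : ℕ) (w : List Bool) : ℚ := (cw a w : ℚ) / (Di a w.length (on w) : ℚ)

lemma xw_eq_divInt (a : ℕ) (w : List Bool) : xw a w = Rat.divInt (cw a w : ℤ) (Di a w.length (on w)) := by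
  unfold xw
  rw [Rat.divInt_eq_div]
  push_cast
  rfl

lemma den_xw {a : ℕ} (hodd : Odd a) {w : List Bool} (hw : 1 ≤ w.length) :
    (xw a w).den = DD a w.length (on w) / Nat.gcd (cw a w) (DD a w.length (on w)) := by
  rw [xw_eq_divInt, Rat.den_divInt, if_neg]
  · rw [Int.gcd_comm]; rfl
  · intro h
    exact Di_ne_zero hodd hw (on w) (by exact_mod_cast h)

lemma odd_den_xw {a : ℕ} (hodd : Odd a) {w : List Bool} (hw : 1 ≤ w.length) : Odd (xw a w).den := by
  rw [den_xw hodd hw]
  have h1 := DD_odd hodd hw (on w)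
  have h2 : DD a w.length (on w) / Nat.gcd (cw a w) (DD a w.length (on w)) ∣ DD a w.length (on w) :=
    Nat.div_dvd_of_dvd (Nat.gcd_dvd_right _ _)
  exact h1.of_dvd_nat h2

lemma parity_xw {a : ℕ} (hodd : Odd a) {w : List Bool} (hw : 1 ≤ w.length) :
    Odd (xw a w).num ↔ Odd (cw a w) := by
  have hD := Di_odd hodd hw (on w)
  have hD0 := Di_ne_zero hodd hw (on w)
  have hden := odd_den_xw hodd hw
  set x := xw a w with hx
  have h1 : (x.num : ℚ) * (Di a w.length (on w) : ℚ) = (cw a w : ℚ) * (x.den : ℚ) := by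
    have h2 : x * (Di a w.length (on w) : ℚ) = cw a w := by
      rw [hx, xw, div_mul_cancel₀ _ hD0]
    have h3 : x * x.den = x.num := Rat.mul_den_eq_num x
    rw [← h3, ← h2]
    ring
  have h2 : x.num * Di a w.length (on w) = (cw a w : ℤ) * (x.den : ℤ) := by exact_mod_cast h1
  have h3 : Odd (x.num * Di a w.length (on w)) ↔ Odd ((cw a w : ℤ) * (x.den : ℤ)) := by rw [h2]
  rw [Int.odd_mul, Int.odd_mul] at h3
  constructor
  · intro h
    have := (h3.1 ⟨h, hD⟩).1
    exact_mod_cast this
  · intro h
    have h5 : Odd (cw a w : ℤ) := by exact_mod_cast h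
    have h4 : Odd (x.den : ℤ) := by exact_mod_cast hden
    exact (h3.2 ⟨h5, h4⟩).1

lemma odd_cw_cons {a : ℕ} (hodd : Odd a) (b : Bool) (u : List Bool) : Odd (cw a (b :: u)) ↔ b = true := by
  have h := hodd.pow (n := on u)
  rw [Nat.odd_iff] at h ⊢
  cases b
  · simp only [cw_false, Bool.false_eq_true, iff_false]; omega
  · simp only [cw_true, iff_true]; omega

lemma T_xw {a : ℕ} (hodd : Odd a) (b : Bool) (u : List Bool) :
    T a (xw a (b :: u)) = xw a (u ++ [b]) := by
  have hw : 1 ≤ (b :: u).length := by simp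
  have hpar : Odd (xw a (b :: u)).num ↔ b = true := (parity_xw hodd hw).trans (odd_cw_cons hodd b u)
  have hlen : (u ++ [b]).length = (b :: u).length := by simp
  have hon : on (u ++ [b]) = on (b :: u) := by
    cases b <;> simp
  have hD0 := Di_ne_zero hodd hw (on (b :: u))
  have hx : xw a (u ++ [b]) = (cw a (u ++ [b]) : ℚ) / (Di a (b :: u).length (on (b :: u)) : ℚ) := by
    unfold xw; rw [hlen, hon]
  rw [hx, eq_div_iff hD0]
  cases b
  · have h1 : Even (xw a (false :: u)).num := by
      rw [← Int.not_odd_iff_even, hpar]; simp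
    unfold T
    rw [if_pos h1]
    have h2 : xw a (false :: u) * (Di a (false :: u).length (on (false :: u)) : ℚ) = cw a (false :: u) := by
      unfold xw; rw [div_mul_cancel₀ _ hD0]
    rw [div_mul_eq_mul_div, h2, cw_append]
    simp
  · have h1 : ¬ Even (xw a (true :: u)).num := by
      rw [Int.not_even_iff_odd, hpar]
    unfold T
    rw [if_neg h1]
    have h2 : xw a (true :: u) * (Di a (true :: u).length (on (true :: u)) : ℚ) = cw a (true :: u) := by
      unfold xw; rw [div_mul_cancel₀ _ hD0]
    have h3 : (a * xw a (true :: u) + 1) / 2 * (Di a (true :: u).length (on (true :: u)) : ℚ)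
        = (a * (cw a (true :: u) : ℚ) + (Di a (true :: u).length (on (true :: u)) : ℚ)) / 2 := by
      rw [← h2]; ring
    rw [h3, cw_append, Di]
    simp only [on_true, cw_true, on_nil, cw_nil, List.length_cons]
    push_cast
    rw [pow_succ, pow_succ]
    ring

lemma iter_xw {a : ℕ} (hodd : Odd a) (u v : List Bool) :
    (T a)^[u.length] (xw a (u ++ v)) = xw a (v ++ u) ∧ odds a u.length (xw a (u ++ v)) = on u := by
  induction u generalizing v with
  | nil => simp [odds]
  | cons b u ih =>
    have h1 : T a (xw a (b :: u ++ v)) = xw a (u ++ (v ++ [b])) := by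
      rw [List.cons_append, T_xw hodd, List.append_assoc]
    obtain ⟨h2, h3⟩ := ih (v ++ [b])
    constructor
    · rw [List.length_cons, Function.iterate_succ, Function.comp, h1, h2]
      simp
    · rw [List.length_cons, odds_succ, h1, h3]
      have hpar : Odd (xw a (b :: u ++ v)).num ↔ b = true :=
        (parity_xw hodd (by simp)).trans (by rw [List.cons_append]; exact odd_cw_cons hodd b (u ++ v))
      rw [if_congr hpar rfl rfl]
      cases b
      · simp
      · simp; ring

/-- The rational periodic points with period `L` and `o` odd terms. -/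
def PerClass (a L o : ℕ) : Set ℚ := {x | Odd x.den ∧ (T a)^[L] x = x ∧ odds a L x = o}

lemma xw_mem {a L o : ℕ} (hodd : Odd a) (hL : 1 ≤ L) {w : List Bool} (hwL : w.length = L)
    (hwo : on w = o) : xw a w ∈ PerClass a L o := by
  have h := iter_xw hodd w []
  simp only [List.append_nil, List.nil_append] at h
  refine ⟨odd_den_xw hodd (by omega), ?_, ?_⟩
  · rw [← hwL]; exact h.1
  · rw [← hwL, ← hwo]; exact h.2

lemma mem_PerClass {a L o : ℕ} (hodd : Odd a) (hL : 1 ≤ L) {x : ℚ} (hx : (T a)^[L] x = x)
    (ho : odds a L x = o) : x = xw a (pw a L x) ∧ (pw a L x).length = L ∧ on (pw a L x) = o := by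
  have h1 := iter_eq a L x
  have hlen := length_pw a L x
  have hon := on_pw a L x
  refine ⟨?_, hlen, hon.trans ho⟩
  have hD0 := Di_ne_zero hodd hL (on (pw a L x))
  unfold xw
  rw [hlen, eq_div_iff hD0]
  rw [hx] at h1
  unfold Di
  push_cast
  linarith

lemma xw_inj {a L o : ℕ} (hodd : Odd a) (hL : 1 ≤ L) {w w' : List Bool}
    (hw : w.length = L) (hw' : w'.length = L) (ho : on w = o) (ho' : on w' = o)
    (h : xw a w = xw a w') : w = w' := by
  have hD0 := Di_ne_zero hodd hL o
  unfold xw at h
  rw [hw, hw', ho, ho'] at h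
  have h1 : (cw a w : ℚ) = cw a w' := by
    field_simp at h
    exact h
  exact cw_inj hodd (hw.trans hw'.symm) (ho.trans ho'.symm) (by exact_mod_cast h1)

end Pool.Agent.W5h45.RC
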