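import Mathlib

/-! Binomial coefficients in residue classes. -/

namespace Pool.Agent.W5h45.RC
open Finset Filter Topology

lemma sum_range_blocks {M : Type*} [AddCommMonoid M] (F : ℕ → M) (Q h : ℕ) :
    ∑ i ∈ range (Q * h), F i = ∑ q ∈ range Q, ∑ r ∈ range h, F (q * h + r) := by
  induction Q with
  | zero => simp
  | succ Q ih => rw [Nat.succ_mul, Finset.sum_range_add, ih, sum_range_succ]

lemma choose_anti {L i : ℕ} (h : L / 2 ≤ i) : L.choose (i + 1) ≤ L.choose i := by
  have h1 := Nat.choose_succ_right_eq L i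
  have h2 : L - i ≤ i + 1 := by omega
  have h3 : L.choose (i + 1) * (i + 1) ≤ L.choose i * (i + 1) := by
    rw [h1]; exact Nat.mul_le_mul_left _ h2
  exact Nat.le_of_mul_le_mul_right h3 (Nat.succ_pos i)

lemma choose_tv (L N : ℕ) :
    ∑ i ∈ range N, |(L.choose (i + 1) : ℝ) - L.choose i| ≤ 2 * L.choose (L / 2) := by
  have hmono : ∑ i ∈ range N, |(L.choose (i + 1) : ℝ) - L.choose i|
      ≤ ∑ i ∈ range (L / 2 + N), |(L.choose (i + 1) : ℝ) - L.choose i| :=
    sum_le_sum_of_subset_of_nonneg (by intro x; simp only [mem_range]; omega)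
      (fun _ _ _ => abs_nonneg _)
  refine hmono.trans ?_
  rw [Finset.sum_range_add]
  have h1 : ∑ i ∈ range (L / 2), |(L.choose (i + 1) : ℝ) - L.choose i|
      = (L.choose (L / 2) : ℝ) - L.choose 0 := by
    rw [← Finset.sum_range_sub (fun i => (L.choose i : ℝ))]
    refine sum_congr rfl fun i hi => ?_
    rw [mem_range] at hi
    rw [abs_of_nonneg]
    have := Nat.choose_le_succ_of_lt_half_left hi
    rw [sub_nonneg]
    exact_mod_cast this
  have h2 : ∑ i ∈ range N, |(L.choose (L / 2 + i + 1) : ℝ) - L.choose (L / 2 + i)|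
      = (L.choose (L / 2) : ℝ) - L.choose (L / 2 + N) := by
    have h0 := Finset.sum_range_sub' (fun i => (L.choose (L / 2 + i) : ℝ)) N
    simp only [add_zero] at h0
    rw [← h0]
    refine sum_congr rfl fun i _ => ?_
    rw [abs_of_nonpos]
    · rw [neg_sub]; rfl
    · have := choose_anti (L := L) (i := L / 2 + i) (by omega)
      rw [sub_nonpos]
      exact_mod_cast this
  rw [h1, h2]
  have h3 : (0 : ℝ) ≤ L.choose 0 := Nat.cast_nonneg _
  have h4 : (0 : ℝ) ≤ L.choose (L / 2 + N) := Nat.cast_nonneg _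
  linarith

lemma abs_sub_le_tv (f : ℕ → ℝ) (s h r r' : ℕ) (hr : r < h) (hr' : r' < h) :
    |f (s + r) - f (s + r')| ≤ ∑ i ∈ range h, |f (s + i + 1) - f (s + i)| := by
  wlog hle : r' ≤ r generalizing r r'
  · rw [abs_sub_comm]; exact this r' r hr' hr (by omega)
  have h1 : f (s + r) - f (s + r') = ∑ i ∈ Ico r' r, (f (s + i + 1) - f (s + i)) := by
    rw [Finset.sum_Ico_eq_sum_range, ← sum_range_sub_aux f s r' r hle]
  rw [h1]
  refine (abs_sum_le_sum_abs _ _).trans ?_
  refine sum_le_sum_of_subset_of_nonneg ?_ (fun _ _ _ => abs_nonneg _)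
  intro x
  simp only [mem_Ico, mem_range]
  omega
where
  sum_range_sub_aux (f : ℕ → ℝ) (s r' r : ℕ) (hle : r' ≤ r) :
      ∑ k ∈ range (r - r'), (f (s + (r' + k) + 1) - f (s + (r' + k))) = f (s + r) - f (s + r') := by
    have := Finset.sum_range_sub (fun k => f (s + (r' + k))) (r - r')
    simp only [add_zero] at this
    rw [show s + (r' + (r - r')) = s + r by omega] at this
    exact this

/-- Binomial coefficients are equidistributed in residue classes. -/
lemma choose_class {L h r : ℕ} (hr : r < h) :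
    |∑ q ∈ range (L + 1), (L.choose (q * h + r) : ℝ) - 2 ^ L / h| ≤ 2 * L.choose (L / 2) := by
  have hh : 0 < h := by omega
  have hh' : (0 : ℝ) < h := by exact_mod_cast hh
  set S : ℕ → ℝ := fun r => ∑ q ∈ range (L + 1), (L.choose (q * h + r) : ℝ) with hS
  have htot : ∑ r' ∈ range h, S r' = 2 ^ L := by
    simp only [hS]
    rw [sum_comm, ← sum_range_blocks (fun i => (L.choose i : ℝ)) (L + 1) h]
    have h1 : ∑ i ∈ range (L + 1), (L.choose i : ℝ) = 2 ^ L := by
      exact_mod_cast Nat.sum_range_choose L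
    rw [← h1]
    symm
    refine sum_subset ?_ ?_
    · intro x
      simp only [mem_range]
      intro hx
      calc x < L + 1 := hx
        _ ≤ (L + 1) * h := Nat.le_mul_of_pos_right _ hh
    · intro x _ hx
      rw [mem_range] at hx
      rw [Nat.choose_eq_zero_of_lt (by omega)]
      simp
  have hdiff : ∀ r' ∈ range h, |S r - S r'| ≤ 2 * L.choose (L / 2) := by
    intro r' hr'
    rw [mem_range] at hr'
    have h1 : S r - S r' = ∑ q ∈ range (L + 1), ((L.choose (q * h + r) : ℝ) - L.choose (q * h + r')) := by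
      rw [sum_sub_distrib]
    rw [h1]
    refine (abs_sum_le_sum_abs _ _).trans ?_
    refine (sum_le_sum fun q _ =>
      abs_sub_le_tv (fun i => (L.choose i : ℝ)) (q * h) h r r' hr hr').trans ?_
    rw [← sum_range_blocks (fun i => |(L.choose (i + 1) : ℝ) - L.choose i|) (L + 1) h]
    exact choose_tv L _
  have h1 : S r - 2 ^ L / h = (∑ r' ∈ range h, (S r - S r')) / h := by
    rw [sum_sub_distrib, htot, sum_const, card_range, nsmul_eq_mul]
    field_simp
  rw [h1, abs_div, abs_of_pos hh', div_le_iff₀ hh']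
  refine (abs_sum_le_sum_abs _ _).trans ((sum_le_card_nsmul _ _ _ hdiff).trans (le_of_eq ?_))
  rw [card_range, nsmul_eq_mul, mul_comm]

lemma centralBinom_sq_le (n : ℕ) : (n.centralBinom) ^ 2 * (2 * n + 1) ≤ 16 ^ n := by
  induction n with
  | zero => simp
  | succ n ih =>
    have h1 := Nat.succ_mul_centralBinom_succ n
    have h2 : ((n + 1) * (n + 1).centralBinom) ^ 2 * (2 * n + 3) * (2 * n + 1)
        = 4 * (2 * n + 1) ^ 2 * (2 * n + 3) * ((n.centralBinom) ^ 2 * (2 * n + 1)) := by
      rw [h1]; ring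
    have h3 : (n + 1) ^ 2 * (2 * n + 1) * (((n + 1).centralBinom) ^ 2 * (2 * (n + 1) + 1))
        ≤ (n + 1) ^ 2 * (2 * n + 1) * 16 ^ (n + 1) := by
      calc (n + 1) ^ 2 * (2 * n + 1) * (((n + 1).centralBinom) ^ 2 * (2 * (n + 1) + 1))
          = ((n + 1) * (n + 1).centralBinom) ^ 2 * (2 * n + 3) * (2 * n + 1) := by ring
        _ = 4 * (2 * n + 1) ^ 2 * (2 * n + 3) * ((n.centralBinom) ^ 2 * (2 * n + 1)) := h2
        _ ≤ 4 * (2 * n + 1) ^ 2 * (2 * n + 3) * 16 ^ n := Nat.mul_le_mul_left _ ih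
        _ = (4 * (2 * n + 1) * (2 * n + 3)) * (2 * n + 1) * 16 ^ n := by ring
        _ ≤ (16 * (n + 1) ^ 2) * (2 * n + 1) * 16 ^ n := by
            refine Nat.mul_le_mul_right _ (Nat.mul_le_mul_right _ ?_)
            nlinarith
        _ = (n + 1) ^ 2 * (2 * n + 1) * 16 ^ (n + 1) := by ring
    exact Nat.le_of_mul_le_mul_left h3 (by positivity)

lemma choose_middle_le (L : ℕ) : (L.choose (L / 2) : ℝ) * Real.sqrt L ≤ 2 ^ L := by
  set n := L / 2 with hn
  have h1 : L.choose n ≤ 2 ^ (L - 2 * n) * n.centralBinom := by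
    rcases Nat.even_or_odd' L with ⟨k, hk | hk⟩
    · have : n = k := by omega
      rw [this, hk, Nat.sub_self, pow_zero, one_mul, Nat.centralBinom]
    · have : n = k := by omega
      rw [this, hk, show 2 * k + 1 - 2 * k = 1 by omega, pow_one]
      cases k with
      | zero => simp
      | succ k =>
        rw [Nat.choose_succ_succ]
        have h2 : (2 * (k + 1)).choose k ≤ (k + 1).centralBinom := Nat.choose_le_centralBinom k (k + 1)
        have h3 : (2 * (k + 1)).choose (k + 1) = (k + 1).centralBinom := rfl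
        have h4 : (2 * (k + 1)).choose k.succ = (k + 1).centralBinom := rfl
        rw [h4]
        omega
  have h2 : (n.centralBinom : ℝ) * Real.sqrt (2 * n + 1) ≤ 4 ^ n := by
    have h3 : ((n.centralBinom : ℝ) * Real.sqrt (2 * n + 1)) ^ 2 ≤ (4 ^ n) ^ 2 := by
      rw [mul_pow, Real.sq_sqrt (by positivity)]
      have h4 := centralBinom_sq_le n
      have h5 : ((4 : ℝ) ^ n) ^ 2 = 16 ^ n := by rw [← pow_mul, mul_comm, pow_mul]; norm_num
      rw [h5]
      exact_mod_cast h4
    exact (pow_le_pow_iff_left₀ (by positivity) (by positivity) (by norm_num)).1 h3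
  have h3 : Real.sqrt L ≤ Real.sqrt (2 * n + 1) := by
    apply Real.sqrt_le_sqrt
    have : L ≤ 2 * n + 1 := by omega
    exact_mod_cast this
  calc (L.choose n : ℝ) * Real.sqrt L
      ≤ ((2 ^ (L - 2 * n) * n.centralBinom : ℕ) : ℝ) * Real.sqrt (2 * n + 1) :=
        mul_le_mul (by exact_mod_cast h1) h3 (Real.sqrt_nonneg _) (by positivity)
    _ = 2 ^ (L - 2 * n) * ((n.centralBinom : ℝ) * Real.sqrt (2 * n + 1)) := by push_cast; ring
    _ ≤ 2 ^ (L - 2 * n) * 4 ^ n := mul_le_mul_of_nonneg_left h2 (by positivity)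
    _ = 2 ^ L := by
        rw [show (4 : ℝ) = 2 ^ 2 by norm_num, ← pow_mul, ← pow_add]
        congr 1
        omega

end Pool.Agent.W5h45.RC
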