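import Pool.Agent.W5h45.RC.W6
import Pool.Agent.W5h45.RC.W7

/-! Tilted sums and an anti-concentration bound for binomial distributions. -/

namespace Pool.Agent.W5h45.RC
open Finset Filter Topology

/-- The tilted sum of the absolute values of the exponential sums. -/
noncomputable def Mz (a : ℕ) (z : ℝ) (L : ℕ) (t : ℝ) : ℝ :=
  ∑ o ∈ range (L + 1), z ^ o * ‖E a L o t‖

lemma Mz_nonneg (a : ℕ) {z : ℝ} (hz : 0 ≤ z) (L : ℕ) (t : ℝ) : 0 ≤ Mz a z L t :=
  sum_nonneg fun _ _ => mul_nonneg (pow_nonneg hz _) (norm_nonneg _)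

lemma Mz_eq {a : ℕ} (z : ℝ) {L K : ℕ} (h : L + 1 ≤ K) (t : ℝ) :
    ∑ o ∈ range K, z ^ o * ‖E a L o t‖ = Mz a z L t := by
  unfold Mz
  symm
  refine Finset.sum_subset (by intro x; simp only [mem_range]; omega) ?_
  intro o _ ho
  rw [mem_range] at ho
  rw [E_of_lt (by omega), norm_zero, mul_zero]

lemma Mz_add_le (a : ℕ) {z : ℝ} (hz : 0 ≤ z) (m n : ℕ) (t : ℝ) :
    Mz a z (m + n) t ≤ ∑ o' ∈ range (n + 1),
      (z ^ o' * ‖E a n o' (2 ^ m * t)‖) * Mz a z m (t * a ^ o') := by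
  have h1 : ∀ o, z ^ o * ‖E a (m + n) o t‖ ≤ ∑ o' ∈ range (n + 1), if o' ≤ o then
      (z ^ o' * ‖E a n o' (2 ^ m * t)‖) * (z ^ (o - o') * ‖E a m (o - o') (t * a ^ o')‖) else 0 := by
    intro o
    rw [E_add]
    have h2 : ‖∑ o' ∈ range (n + 1), (if o' ≤ o then
        E a n o' (2 ^ m * t) * E a m (o - o') (t * a ^ o') else 0)‖
        ≤ ∑ o' ∈ range (n + 1), if o' ≤ o then
          ‖E a n o' (2 ^ m * t)‖ * ‖E a m (o - o') (t * a ^ o')‖ else 0 := by
      refine (norm_sum_le _ _).trans (le_of_eq (sum_congr rfl fun o' _ => ?_))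
      split_ifs
      · rw [norm_mul]
      · rw [norm_zero]
    refine (mul_le_mul_of_nonneg_left h2 (pow_nonneg hz _)).trans (le_of_eq ?_)
    rw [mul_sum]
    refine sum_congr rfl fun o' _ => ?_
    split_ifs with h
    · have : z ^ o = z ^ o' * z ^ (o - o') := by rw [← pow_add]; congr 1; omega
      rw [this]; ring
    · rw [mul_zero]
  unfold Mz
  refine (sum_le_sum fun o _ => h1 o).trans ?_
  rw [sum_comm]
  refine sum_le_sum fun o' ho' => ?_
  rw [mem_range] at ho'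
  rw [← sum_filter, ← mul_sum]
  refine mul_le_mul_of_nonneg_left ?_ (mul_nonneg (pow_nonneg hz _) (norm_nonneg _))
  have h2 : (range (m + n + 1)).filter (fun o => o' ≤ o) = Ico o' (m + n + 1) := by
    ext x; simp; omega
  rw [h2, Finset.sum_Ico_eq_sum_range]
  simp only [Nat.add_sub_cancel_left]
  rw [Mz_eq z (by omega)]
  exact le_rfl

lemma Mz_le_sum_KK (a B : ℕ) {z : ℝ} (hz : 0 ≤ z) (t : ℝ) :
    Mz a z (2 * B) t ≤ ∑ w ∈ Wd (2 * B), z ^ on w * KK a w t := by
  unfold Mz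
  refine (sum_le_sum fun o _ => mul_le_mul_of_nonneg_left (norm_E_le a B o t)
    (pow_nonneg hz _)).trans (le_of_eq ?_)
  simp only [mul_sum]
  rw [sum_comm]
  refine sum_congr rfl fun w hw => ?_
  rw [mem_Wd] at hw
  simp only [mul_ite, mul_zero]
  rw [sum_ite_eq, if_pos]
  rw [mem_range]
  have := on_le w
  omega

lemma Mz_le (a L : ℕ) {z : ℝ} (hz : 0 ≤ z) (t : ℝ) : Mz a z L t ≤ (1 + z) ^ L := by
  unfold Mz
  have h1 : ∀ o, z ^ o * ‖E a L o t‖ ≤ ∑ w ∈ Wd L, if on w = o then z ^ on w else 0 := by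
    intro o
    unfold E
    refine (mul_le_mul_of_nonneg_left (norm_sum_le _ _) (pow_nonneg hz _)).trans (le_of_eq ?_)
    rw [mul_sum]
    refine sum_congr rfl fun w _ => ?_
    split_ifs with h <;> simp [h]
  refine (sum_le_sum fun o _ => h1 o).trans ?_
  rw [sum_comm, ← sum_pow_on]
  refine le_of_eq (sum_congr rfl fun w hw => ?_)
  rw [mem_Wd] at hw
  rw [sum_ite_eq, if_pos]
  rw [mem_range]
  have := on_le w
  omega

lemma sum_on_eq (z : ℝ) (n : ℕ) (J : Finset ℕ) :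
    ∑ w ∈ (Wd n).filter (fun w => on w ∈ J), z ^ on w = ∑ s ∈ J, (n.choose s : ℝ) * z ^ s := by
  rw [← Finset.sum_fiberwise_of_maps_to (s := (Wd n).filter (fun w => on w ∈ J)) (t := J) (g := on)]
  · refine sum_congr rfl fun s hs => ?_
    have h1 : ((Wd n).filter (fun w => on w ∈ J)).filter (fun w => on w = s)
        = (Wd n).filter (fun w => on w = s) := by
      ext w
      simp only [mem_filter]
      constructor
      · rintro ⟨⟨h1, h2⟩, h3⟩; exact ⟨h1, h3⟩
      · rintro ⟨h1, h2⟩; exact ⟨⟨h1, by rw [h2]; exact hs⟩, h2⟩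
    rw [h1, ← card_on, ← nsmul_eq_mul, ← sum_const]
    refine sum_congr rfl fun w hw => ?_
    rw [mem_filter] at hw
    rw [hw.2]
  · intro w hw
    rw [mem_filter] at hw
    exact hw.2

/-- A weighted inequality of arithmetic and geometric means. -/
lemma amgm {n s : ℕ} (hs : 0 < s) (hsn : s < n) {z : ℝ} (hz : 0 < z) :
    z ^ s * (n : ℝ) ^ n ≤ (1 + z) ^ n * ((s : ℝ) ^ s * ((n - s : ℕ) : ℝ) ^ (n - s)) := by
  have hn : (0 : ℝ) < n := by exact_mod_cast (by omega : 0 < n)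
  have hs' : (0 : ℝ) < s := by exact_mod_cast hs
  have hr : (0 : ℝ) < ((n - s : ℕ) : ℝ) := by exact_mod_cast (by omega : 0 < n - s)
  have hsum : (s : ℝ) + ((n - s : ℕ) : ℝ) = n := by
    rw [← Nat.cast_add]; congr 1; omega
  have h1 := Real.geom_mean_le_arith_mean2_weighted (w₁ := s / n) (w₂ := ((n - s : ℕ) : ℝ) / n)
    (p₁ := z * n / s) (p₂ := n / ((n - s : ℕ) : ℝ)) (by positivity) (by positivity) (by positivity)
    (by positivity) (by rw [← add_div, hsum, div_self hn.ne'])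
  have h2 : (s : ℝ) / n * (z * n / s) + ((n - s : ℕ) : ℝ) / n * (n / ((n - s : ℕ) : ℝ)) = 1 + z := by
    field_simp
    ring
  rw [h2] at h1
  have h3 : ((z * n / s) ^ ((s : ℝ) / n) * (n / ((n - s : ℕ) : ℝ)) ^ (((n - s : ℕ) : ℝ) / n)) ^ n
      = (z * n / s) ^ s * (n / ((n - s : ℕ) : ℝ)) ^ (n - s) := by
    rw [mul_pow, ← Real.rpow_mul_natCast (by positivity), ← Real.rpow_mul_natCast (by positivity),
      div_mul_cancel₀ _ hn.ne', div_mul_cancel₀ _ hn.ne', Real.rpow_natCast, Real.rpow_natCast]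
  have h4 := pow_le_pow_left₀ (by positivity) h1 n
  rw [h3] at h4
  have h5 : z ^ s * (n : ℝ) ^ n = ((z * n / s) ^ s * (n / ((n - s : ℕ) : ℝ)) ^ (n - s)) *
      ((s : ℝ) ^ s * ((n - s : ℕ) : ℝ) ^ (n - s)) := by
    rw [div_pow, div_pow, mul_pow]
    have : (n : ℝ) ^ n = (n : ℝ) ^ s * (n : ℝ) ^ (n - s) := by rw [← pow_add]; congr 1; omega
    rw [this]
    field_simp
  rw [h5]
  exact mul_le_mul_of_nonneg_right h4 (by positivity)

lemma factorial_le {n : ℕ} (hn : 0 < n) :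
    (n.factorial : ℝ) ≤ Real.exp 1 * Real.sqrt n * (n / Real.exp 1) ^ n := by
  have h1 : Stirling.stirlingSeq n ≤ Stirling.stirlingSeq 1 := by
    have := Stirling.stirlingSeq'_antitone (Nat.zero_le (n - 1))
    simp only [Function.comp, Nat.succ_eq_add_one] at this
    rwa [show n - 1 + 1 = n by omega] at this
  rw [Stirling.stirlingSeq_one, Stirling.stirlingSeq] at h1
  have hn' : (0 : ℝ) < n := by exact_mod_cast hn
  have hpos : 0 < Real.sqrt (2 * n) * (n / Real.exp 1) ^ n := by positivity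
  rw [div_le_iff₀ hpos] at h1
  refine h1.trans (le_of_eq ?_)
  rw [Real.sqrt_mul (by norm_num)]
  have : Real.sqrt 2 ≠ 0 := by positivity
  field_simp

/-- Anti-concentration. -/
lemma choose_mul_pow_le {n s : ℕ} (hs : 0 < s) (hsn : s < n) {z : ℝ} (hz : 0 < z) :
    (n.choose s : ℝ) * z ^ s ≤ Real.sqrt (n / (s * ((n - s : ℕ) : ℝ))) * (1 + z) ^ n := by
  have hn : (0 : ℝ) < n := by exact_mod_cast (by omega : 0 < n)
  have hs' : (0 : ℝ) < s := by exact_mod_cast hs
  set r := n - s with hr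
  have hr' : (0 : ℝ) < (r : ℝ) := by exact_mod_cast (by omega : 0 < r)
  have h1 := factorial_le (n := n) (by omega)
  have h2 := Stirling.le_factorial_stirling s
  have h3 := Stirling.le_factorial_stirling r
  have he : (0 : ℝ) < Real.exp 1 := Real.exp_pos 1
  have hfac : (n.choose s : ℝ) * (s.factorial * r.factorial) = n.factorial := by
    have := Nat.choose_mul_factorial_mul_factorial (show s ≤ n by omega)
    rw [← mul_assoc]
    exact_mod_cast this
  set S₁ := Real.sqrt (2 * Real.pi * s) * (s / Real.exp 1) ^ s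
  set S₂ := Real.sqrt (2 * Real.pi * r) * (r / Real.exp 1) ^ r
  have hpi := Real.pi_pos
  have hS₁ : 0 < S₁ := by positivity
  have hS₂ : 0 < S₂ := by positivity
  have h4 : (n.choose s : ℝ) * (S₁ * S₂) ≤ Real.exp 1 * Real.sqrt n * (n / Real.exp 1) ^ n := by
    refine le_trans ?_ h1
    rw [← hfac]
    refine mul_le_mul_of_nonneg_left ?_ (Nat.cast_nonneg _)
    exact mul_le_mul h2 h3 hS₂.le (Nat.cast_nonneg _)
  have h5 := amgm hs hsn hz
  have hn2 : n = s + r := by omega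
  have hSS : S₁ * S₂ = (2 * Real.pi * Real.sqrt (s * r)) * ((s : ℝ) ^ s * (r : ℝ) ^ r) /
      (Real.exp 1) ^ n := by
    simp only [S₁, S₂]
    rw [Real.sqrt_mul (by positivity), Real.sqrt_mul (by positivity : (0 : ℝ) ≤ 2 * Real.pi) (r : ℝ),
      Real.sqrt_mul hs'.le, div_pow, div_pow, hn2, pow_add]
    have h6 : Real.sqrt (2 * Real.pi) * Real.sqrt (2 * Real.pi) = 2 * Real.pi :=
      Real.mul_self_sqrt (by positivity)
    field_simp
    linear_combination h6
  -- multiply everything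
  have h6 : (n.choose s : ℝ) * z ^ s * (2 * Real.pi * Real.sqrt (s * r)) * (n : ℝ) ^ n
      ≤ Real.exp 1 * Real.sqrt n * (1 + z) ^ n * (n : ℝ) ^ n := by
    have h7 : (n.choose s : ℝ) * (2 * Real.pi * Real.sqrt (s * r)) * ((s : ℝ) ^ s * (r : ℝ) ^ r)
        ≤ Real.exp 1 * Real.sqrt n * (n : ℝ) ^ n := by
      rw [hSS, div_pow, ← mul_div_assoc, ← mul_div_assoc] at h4
      have h8 := (div_le_div_iff_of_pos_right (by positivity : (0 : ℝ) < (Real.exp 1) ^ n)).1 h4
      linarith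
    have hC : (0 : ℝ) ≤ (n.choose s : ℝ) * (2 * Real.pi * Real.sqrt (s * r)) := by positivity
    calc (n.choose s : ℝ) * z ^ s * (2 * Real.pi * Real.sqrt (s * r)) * (n : ℝ) ^ n
        = ((n.choose s : ℝ) * (2 * Real.pi * Real.sqrt (s * r))) * (z ^ s * (n : ℝ) ^ n) := by ring
      _ ≤ ((n.choose s : ℝ) * (2 * Real.pi * Real.sqrt (s * r))) *
          ((1 + z) ^ n * ((s : ℝ) ^ s * (r : ℝ) ^ r)) := mul_le_mul_of_nonneg_left h5 hC
      _ = ((n.choose s : ℝ) * (2 * Real.pi * Real.sqrt (s * r)) * ((s : ℝ) ^ s * (r : ℝ) ^ r)) *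
          (1 + z) ^ n := by ring
      _ ≤ (Real.exp 1 * Real.sqrt n * (n : ℝ) ^ n) * (1 + z) ^ n :=
          mul_le_mul_of_nonneg_right h7 (by positivity)
      _ = Real.exp 1 * Real.sqrt n * (1 + z) ^ n * (n : ℝ) ^ n := by ring
  have h7 := le_of_mul_le_mul_right h6 (by positivity : (0 : ℝ) < (n : ℝ) ^ n)
  have h8 : Real.exp 1 ≤ 2 * Real.pi := by
    have := Real.exp_one_lt_d9
    have := Real.pi_gt_three
    linarith
  rw [Real.sqrt_div hn.le, div_mul_eq_mul_div, le_div_iff₀ (by positivity)]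
  have h9 : (n.choose s : ℝ) * z ^ s * Real.sqrt (s * r) * (2 * Real.pi)
      ≤ Real.sqrt n * (1 + z) ^ n * (2 * Real.pi) := by
    calc (n.choose s : ℝ) * z ^ s * Real.sqrt (s * r) * (2 * Real.pi)
        = (n.choose s : ℝ) * z ^ s * (2 * Real.pi * Real.sqrt (s * r)) := by ring
      _ ≤ Real.exp 1 * Real.sqrt n * (1 + z) ^ n := h7
      _ = Real.sqrt n * (1 + z) ^ n * Real.exp 1 := by ring
      _ ≤ Real.sqrt n * (1 + z) ^ n * (2 * Real.pi) :=
          mul_le_mul_of_nonneg_left h8 (by positivity)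
  exact le_of_mul_le_mul_right h9 (by positivity)

end Pool.Agent.W5h45.RC
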