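import Pool.Agent.W5h45.RC.V1

/-! The block lemma for the tilted sums. -/

namespace Pool.Agent.W5h45.RC
open Finset Filter Topology

lemma exists_far' {a : ℕ} (ha3 : 3 ≤ a) {B g m : ℕ}
    (hm : Nat.Coprime m (2 * a)) (hm0 : 0 < m) (h2g : 2 * g ≤ B) {ξ : ℤ}
    (hξ : ¬ (m : ℤ) ∣ ξ) {w : List Bool} (hw : w ∈ Wd (2 * B))
    (hwin : ∀ i, i + g ≤ B → ∃ j, i ≤ j ∧ j < i + g ∧ sp w j = 1)
    (hgrow : m * a ^ (4 * g) * a ^ on w ≤ 4 ^ B ∨ m * a ^ (4 * g) * 4 ^ B ≤ a ^ on w) :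
    ∃ i, i < B ∧ sp w i = 1 ∧ 1 / ((a : ℝ) ^ (2 * g) + 4 ^ g) ≤
      |((ξ : ℝ) / m * 4 ^ i * a ^ (∑ k ∈ Ico (i + 1) B, sp w k)) -
        round ((ξ : ℝ) / m * 4 ^ i * a ^ (∑ k ∈ Ico (i + 1) B, sp w k))| := by
  by_contra hcon
  push Not at hcon
  set δ := 1 / ((a : ℝ) ^ (2 * g) + 4 ^ g) with hδ
  set θ : ℕ → ℝ := fun i => (ξ : ℝ) / m * 4 ^ i * a ^ (∑ k ∈ Ico (i + 1) B, sp w k) with hθ
  have ha0 : (0 : ℝ) < a := by exact_mod_cast (by omega : 0 < a)
  have ha1 : (1 : ℝ) ≤ a := by exact_mod_cast (by omega : 1 ≤ a)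
  have hm' : (0 : ℝ) < m := by exact_mod_cast hm0
  have hδ1 : δ * ((a : ℝ) ^ (2 * g) + 4 ^ g) ≤ 1 := by
    rw [hδ, one_div, inv_mul_cancel₀]
    positivity
  have hδle : δ ≤ 1 := by
    rw [hδ, div_le_one (by positivity)]
    have : (1 : ℝ) ≤ (a : ℝ) ^ (2 * g) := one_le_pow₀ ha1
    have : (0 : ℝ) < 4 ^ g := by positivity
    linarith
  have hchain := chain (a := a) (B := B) (g := g) (by omega) (s := sp w) (fun i => sp_le w i)
    (θ := θ) (e := fun i => θ i - round (θ i)) (n := fun i => round (θ i)) (δ := δ) hδ1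
    (fun i _ _ => by ring) (fun i hi hs => hcon i hi hs) (by
      intro i d hid
      have h3 : ∑ k ∈ Ico (i + 1) B, sp w k
          = ∑ k ∈ Ico (i + 1) (i + d + 1), sp w k + ∑ k ∈ Ico (i + d + 1) B, sp w k :=
        (Finset.sum_Ico_consecutive (sp w) (by omega) (by omega)).symm
      simp only [hθ]
      rw [h3, pow_add, pow_add]
      ring) hwin
  -- lower bound
  have hlow : ∀ i, (1 : ℝ) ≤ m * |θ i - round (θ i)| := by
    intro i
    set S := ∑ k ∈ Ico (i + 1) B, sp w k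
    have h1 : (m : ℝ) * (θ i - round (θ i)) = ((ξ * 4 ^ i * (a : ℤ) ^ S - m * round (θ i) : ℤ) : ℝ) := by
      push_cast
      simp only [hθ]
      field_simp
      rfl
    have h2 : (ξ * 4 ^ i * (a : ℤ) ^ S - m * round (θ i) : ℤ) ≠ 0 := by
      intro h0
      apply hξ
      have h3 : (m : ℤ) ∣ ξ * 4 ^ i * (a : ℤ) ^ S := ⟨round (θ i), by linarith⟩
      have hc2 : IsCoprime (m : ℤ) (a : ℤ) :=
        Nat.isCoprime_iff_coprime.2 (Nat.Coprime.coprime_mul_left_right hm)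
      have hc3 : IsCoprime (m : ℤ) (2 : ℤ) := by
        have := Nat.isCoprime_iff_coprime.2 (Nat.Coprime.coprime_mul_right_right hm)
        exact_mod_cast this
      have h4 : (m : ℤ) ∣ ξ * 4 ^ i := (hc2.pow_right).dvd_of_dvd_mul_right h3
      have hc4 : IsCoprime (m : ℤ) (4 ^ i : ℤ) := by
        have : (4 : ℤ) ^ i = 2 ^ (2 * i) := by rw [pow_mul]; norm_num
        rw [this]
        exact hc3.pow_right
      exact hc4.dvd_of_dvd_mul_right h4
    have h5 : (1 : ℝ) ≤ |((ξ * 4 ^ i * (a : ℤ) ^ S - m * round (θ i) : ℤ) : ℝ)| := by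
      rw [← Int.cast_abs]
      exact_mod_cast Int.one_le_abs h2
    rw [← h1, abs_mul, abs_of_pos hm'] at h5
    exact h5
  obtain ⟨i₁, _, hi1, hs1⟩ := hwin 0 (by omega)
  obtain ⟨i₂, hi2, hi3, hs2⟩ := hwin (B - g) (by omega)
  have hle : i₁ ≤ i₂ := by omega
  obtain ⟨d, rfl⟩ : ∃ d, i₂ = i₁ + d := ⟨i₂ - i₁, by omega⟩
  have hfin := hchain d i₁ hs1 (by omega) hs2
  set R := ∑ k ∈ Ico (i₁ + 1) (i₁ + d + 1), sp w k with hR
  have hsum : on w = ∑ k ∈ range (i₁ + 1), sp w k + (R + ∑ k ∈ Ico (i₁ + d + 1) B, sp w k) := by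
    rw [← sum_sp B w hw, hR, Finset.sum_Ico_consecutive (sp w) (by omega) (by omega),
      Finset.range_eq_Ico, Finset.range_eq_Ico,
      Finset.sum_Ico_consecutive (sp w) (by omega) (by omega)]
  have hb1 := hcon i₁ (by omega) hs1
  have hb2 := hcon (i₁ + d) (by omega) hs2
  have hl1 := hlow i₁
  have hl2 := hlow (i₁ + d)
  have hfin' : (4 : ℝ) ^ d * |θ i₁ - round (θ i₁)| = (a : ℝ) ^ R * |θ (i₁ + d) - round (θ (i₁ + d))| := by
    have h := congrArg abs hfin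
    rw [abs_mul, abs_mul, abs_of_pos (by positivity : (0 : ℝ) < 4 ^ d),
      abs_of_pos (by positivity : (0 : ℝ) < (a : ℝ) ^ R)] at h
    exact h
  have hb1' : |θ i₁ - round (θ i₁)| < 1 := lt_of_lt_of_le hb1 hδle
  have hb2' : |θ (i₁ + d) - round (θ (i₁ + d))| < 1 := lt_of_lt_of_le hb2 hδle
  set e₁ := |θ i₁ - round (θ i₁)|
  set e₂ := |θ (i₁ + d) - round (θ (i₁ + d))|
  rcases hgrow with h3 | h3
  · have h4 : (4 : ℝ) ^ d < m * (a : ℝ) ^ R := by
      have h5 : (4 : ℝ) ^ d ≤ m * (4 ^ d * e₁) := by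
        calc (4 : ℝ) ^ d = 4 ^ d * 1 := by ring
          _ ≤ 4 ^ d * (m * e₁) := mul_le_mul_of_nonneg_left hl1 (by positivity)
          _ = m * (4 ^ d * e₁) := by ring
      rw [hfin'] at h5
      refine lt_of_le_of_lt h5 (mul_lt_mul_of_pos_left ?_ hm')
      calc (a : ℝ) ^ R * e₂ < (a : ℝ) ^ R * 1 := mul_lt_mul_of_pos_left hb2' (by positivity)
        _ = (a : ℝ) ^ R := mul_one _
    have h4' : 4 ^ d < m * a ^ R := by exact_mod_cast h4
    have h5 : 4 ^ B ≤ 4 ^ d * 4 ^ (2 * g) := by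
      rw [← pow_add]
      exact Nat.pow_le_pow_right (by norm_num) (by omega)
    have h6 : 4 ^ (2 * g) ≤ a ^ (4 * g) := by
      rw [show 4 * g = 2 * (2 * g) by ring, pow_mul a 2 (2 * g)]
      refine Nat.pow_le_pow_left ?_ _
      nlinarith
    have h7 : a ^ R ≤ a ^ on w := Nat.pow_le_pow_right (by omega) (by omega)
    have h8 : 4 ^ B < 4 ^ B := by
      calc 4 ^ B ≤ 4 ^ d * 4 ^ (2 * g) := h5
        _ < (m * a ^ R) * 4 ^ (2 * g) := Nat.mul_lt_mul_of_pos_right h4' (by positivity)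
        _ ≤ (m * a ^ on w) * a ^ (4 * g) :=
            Nat.mul_le_mul (Nat.mul_le_mul_left _ h7) h6
        _ = m * a ^ (4 * g) * a ^ on w := by ring
        _ ≤ 4 ^ B := h3
    omega
  · have hR1 : ∑ k ∈ range (i₁ + 1), sp w k ≤ 2 * (i₁ + 1) := by
      have : ∑ k ∈ range (i₁ + 1), sp w k ≤ ∑ k ∈ range (i₁ + 1), 2 := sum_le_sum fun k _ => sp_le w k
      simp at this
      omega
    have hR2 : ∑ k ∈ Ico (i₁ + d + 1) B, sp w k ≤ 2 * (B - (i₁ + d + 1)) := by
      have : ∑ k ∈ Ico (i₁ + d + 1) B, sp w k ≤ ∑ k ∈ Ico (i₁ + d + 1) B, 2 :=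
        sum_le_sum fun k _ => sp_le w k
      rw [sum_const, Nat.card_Ico] at this
      simp at this
      omega
    have hRge : on w ≤ R + 4 * g := by omega
    have h4 : (a : ℝ) ^ R < m * (4 : ℝ) ^ B := by
      have h5 : (a : ℝ) ^ R ≤ m * (a ^ R * e₂) := by
        calc (a : ℝ) ^ R = a ^ R * 1 := by ring
          _ ≤ a ^ R * (m * e₂) := mul_le_mul_of_nonneg_left hl2 (by positivity)
          _ = m * (a ^ R * e₂) := by ring
      rw [← hfin'] at h5
      refine lt_of_le_of_lt h5 (mul_lt_mul_of_pos_left ?_ hm')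
      calc (4 : ℝ) ^ d * e₁ < (4 : ℝ) ^ d * 1 := mul_lt_mul_of_pos_left hb1' (by positivity)
        _ = (4 : ℝ) ^ d := mul_one _
        _ ≤ (4 : ℝ) ^ B := pow_le_pow_right₀ (by norm_num) (by omega)
    have h4' : a ^ R < m * 4 ^ B := by exact_mod_cast h4
    have h5 : a ^ on w ≤ a ^ R * a ^ (4 * g) := by
      rw [← pow_add]
      exact Nat.pow_le_pow_right (by omega) hRge
    have h8 : a ^ on w < a ^ on w := by
      calc a ^ on w ≤ a ^ R * a ^ (4 * g) := h5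
        _ < (m * 4 ^ B) * a ^ (4 * g) := Nat.mul_lt_mul_of_pos_right h4' (by positivity)
        _ = m * a ^ (4 * g) * 4 ^ B := by ring
        _ ≤ a ^ on w := h3
    omega

/-- The tilted weight of the words with no mixed pair in a window. -/
lemma tilt_window {B g i : ℕ} (h : i + g ≤ B) {z : ℝ} (hz : 0 < z) :
    ∑ w ∈ (Wd (2 * B)).filter (fun w => ∀ j, i ≤ j → j < i + g → sp w j ≠ 1), z ^ on w
      = (1 + z) ^ (2 * B) * ((1 + z ^ 2) / (1 + z) ^ 2) ^ g := by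
  have h1 : ∑ w ∈ (Wd (2 * B)).filter (fun w => ∀ j, i ≤ j → j < i + g → sp w j ≠ 1), z ^ on w
      = ∑ w ∈ Wd (2 * B), ∏ j ∈ range B,
          (fun j x => z ^ x * (if (i ≤ j ∧ j < i + g) ∧ x = 1 then (0 : ℝ) else 1)) j (sp w j) := by
    rw [sum_filter]
    refine sum_congr rfl fun w hwm => ?_
    have hzz : z ^ on w = ∏ j ∈ range B, z ^ (sp w j) := by
      rw [prod_pow_eq_pow_sum, sum_sp B w hwm]
    by_cases hw : ∀ j, i ≤ j → j < i + g → sp w j ≠ 1
    · rw [if_pos hw, hzz]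
      refine prod_congr rfl fun j _ => ?_
      simp only
      rw [if_neg, mul_one]
      rintro ⟨⟨h1, h2⟩, h3⟩
      exact hw j h1 h2 h3
    · rw [if_neg hw]
      push Not at hw
      obtain ⟨j, h1, h2, h3⟩ := hw
      symm
      refine prod_eq_zero (i := j) (by rw [mem_range]; omega) ?_
      simp only
      rw [if_pos ⟨⟨h1, h2⟩, h3⟩, mul_zero]
  rw [h1.trans (sum_prod_sp B
    (fun j x => z ^ x * (if (i ≤ j ∧ j < i + g) ∧ x = 1 then (0 : ℝ) else 1)))]
  have h2 : ∀ j ∈ range B,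
      ((fun j x => z ^ x * (if (i ≤ j ∧ j < i + g) ∧ x = 1 then (0 : ℝ) else 1)) j 0
      + 2 * (fun j x => z ^ x * (if (i ≤ j ∧ j < i + g) ∧ x = 1 then (0 : ℝ) else 1)) j 1
      + (fun j x => z ^ x * (if (i ≤ j ∧ j < i + g) ∧ x = 1 then (0 : ℝ) else 1)) j 2)
      = (1 + z) ^ 2 * (if (i ≤ j ∧ j < i + g) then ((1 + z ^ 2) / (1 + z) ^ 2 : ℝ) else 1) := by
    intro j _
    simp only
    by_cases hj : i ≤ j ∧ j < i + g
    · simp only [hj, and_true, true_and]
      norm_num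
      field_simp
    · rw [if_neg (fun hh => hj hh.1), if_neg (fun hh => hj hh.1), if_neg (fun hh => hj hh.1),
        if_neg hj]
      ring
  rw [prod_congr rfl h2, prod_mul_distrib, prod_const, card_range]
  have h3 : ∏ j ∈ range B, (if (i ≤ j ∧ j < i + g) then ((1 + z ^ 2) / (1 + z) ^ 2 : ℝ) else 1)
      = ((1 + z ^ 2) / (1 + z) ^ 2) ^ g := by
    rw [← prod_filter]
    have : (range B).filter (fun j => i ≤ j ∧ j < i + g) = Ico i (i + g) := by
      ext x; simp; omega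
    rw [this, prod_const, Nat.card_Ico]
    congr 1
    omega
  rw [h3, ← pow_mul]

/-- The tilted weight of the words whose number of letters `true` is critical. -/
lemma tilt_growth {a A B N q : ℕ} (ha3 : 3 ≤ a) (haA : a ≤ 2 ^ A) {z : ℝ} (hz : 0 < z)
    (hN : N ≤ a ^ q) (hq : 1 ≤ q) (hqB : 128 * q ^ 2 * A ≤ B) :
    ∑ w ∈ (Wd (2 * B)).filter (fun w => ¬ (N * a ^ on w ≤ 4 ^ B ∨ N * 4 ^ B ≤ a ^ on w)), z ^ on w
      ≤ (1 + z) ^ (2 * B) / 4 := by
  have hA1 : 1 ≤ A := by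
    rcases Nat.eq_zero_or_pos A with h | h
    · subst h; simp at haA; omega
    · exact h
  have hq2 : q ≤ q ^ 2 := by nlinarith
  have hqA : 128 * (q * A) ≤ B := by
    calc 128 * (q * A) ≤ 128 * (q ^ 2 * A) := by
          exact Nat.mul_le_mul_left _ (Nat.mul_le_mul_right _ hq2)
      _ = 128 * q ^ 2 * A := by ring
      _ ≤ B := hqB
  have hqB' : 128 * q ≤ B := by
    calc 128 * q ≤ 128 * (q * A) := Nat.mul_le_mul_left _ (Nat.le_mul_of_pos_right _ hA1)
      _ ≤ B := hqA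
  have hB0 : 0 < B := by omega
  set J := (range (2 * B + 1)).filter (fun s => 4 ^ B < N * a ^ s ∧ a ^ s < N * 4 ^ B) with hJ
  have hJs : ∀ s ∈ J, 2 * B < A * (q + s) ∧ 3 * s < 4 * B + 3 * q := by
    intro s hs
    rw [hJ, mem_filter] at hs
    obtain ⟨_, h1, h2⟩ := hs
    constructor
    · have h3 : 2 ^ (2 * B) < 2 ^ (A * (q + s)) := by
        calc 2 ^ (2 * B) = 4 ^ B := by rw [pow_mul]; norm_num
          _ < N * a ^ s := h1
          _ ≤ a ^ q * a ^ s := Nat.mul_le_mul_right _ hN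
          _ = a ^ (q + s) := by rw [pow_add]
          _ ≤ (2 ^ A) ^ (q + s) := Nat.pow_le_pow_left haA _
          _ = 2 ^ (A * (q + s)) := by rw [pow_mul]
      exact (Nat.pow_lt_pow_iff_right (by norm_num)).1 h3
    · by_contra hcon
      push Not at hcon
      have hsq : q ≤ s := by omega
      have h3 : a ^ (s - q) < 4 ^ B := by
        have h4 : a ^ q * a ^ (s - q) < a ^ q * 4 ^ B := by
          calc a ^ q * a ^ (s - q) = a ^ s := by rw [← pow_add]; congr 1; omega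
            _ < N * 4 ^ B := h2
            _ ≤ a ^ q * 4 ^ B := Nat.mul_le_mul_right _ hN
        exact Nat.lt_of_mul_lt_mul_left h4
      have h5 : 3 ^ (s - q) < 4 ^ B := lt_of_le_of_lt (Nat.pow_le_pow_left ha3 _) h3
      have h6 : (3 ^ (s - q)) ^ 3 < (4 ^ B) ^ 3 := Nat.pow_lt_pow_left h5 (by norm_num)
      have h7 : (4 ^ B) ^ 3 ≤ 3 ^ (4 * B) := by
        rw [← pow_mul, mul_comm B 3, pow_mul, pow_mul]
        exact Nat.pow_le_pow_left (by norm_num) _
      rw [← pow_mul] at h6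
      have h8 := (Nat.pow_lt_pow_iff_right (by norm_num : 1 < 3)).1 (lt_of_lt_of_le h6 h7)
      omega
  have hcard : J.card ≤ 2 * q := by
    rcases J.eq_empty_or_nonempty with h0 | h0
    · rw [h0]; simp
    · set s₀ := J.min' h0 with hs₀
      have hs₀m : s₀ ∈ J := J.min'_mem h0
      have hsub : J ⊆ Ico s₀ (s₀ + 2 * q) := by
        intro s hs
        rw [mem_Ico]
        refine ⟨J.min'_le s hs, ?_⟩
        rw [hJ, mem_filter] at hs hs₀m
        have h3 : a ^ s < a ^ (s₀ + 2 * q) := by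
          calc a ^ s < N * 4 ^ B := hs.2.2
            _ ≤ N * (N * a ^ s₀) := Nat.mul_le_mul_left _ hs₀m.2.1.le
            _ ≤ a ^ q * (a ^ q * a ^ s₀) :=
                Nat.mul_le_mul hN (Nat.mul_le_mul_right _ hN)
            _ = a ^ (s₀ + 2 * q) := by rw [pow_add, two_mul, pow_add]; ring
        exact (Nat.pow_lt_pow_iff_right (by omega)).1 h3
      have := card_le_card hsub
      rw [Nat.card_Ico] at this
      omega
  have hsub : (Wd (2 * B)).filter (fun w => ¬ (N * a ^ on w ≤ 4 ^ B ∨ N * 4 ^ B ≤ a ^ on w))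
      = (Wd (2 * B)).filter (fun w => on w ∈ J) := by
    ext w
    rw [mem_filter, mem_filter, hJ, mem_filter, mem_range]
    constructor
    · rintro ⟨h1, h2⟩
      push Not at h2
      refine ⟨h1, ?_, h2.1, h2.2⟩
      rw [mem_Wd] at h1
      have := on_le w
      omega
    · rintro ⟨h1, _, h2, h3⟩
      exact ⟨h1, by push Not; exact ⟨h2, h3⟩⟩
  rw [hsub, sum_on_eq]
  have hBr : (0 : ℝ) < B := by exact_mod_cast hB0
  have hAr : (1 : ℝ) ≤ A := by exact_mod_cast hA1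
  have hqr : (1 : ℝ) ≤ q := by exact_mod_cast hq
  have hterm : ∀ s ∈ J, ((2 * B).choose s : ℝ) * z ^ s
      ≤ Real.sqrt (2 * A / B) * (1 + z) ^ (2 * B) := by
    intro s hs
    obtain ⟨h1, h2⟩ := hJs s hs
    have hs0 : 0 < s := by
      rcases Nat.eq_zero_or_pos s with h | h
      · subst h
        have : A * (q + 0) = q * A := by ring
        omega
      · exact h
    have hs2 : s < 2 * B := by omega
    refine (choose_mul_pow_le hs0 hs2 hz).trans ?_
    refine mul_le_mul_of_nonneg_right (Real.sqrt_le_sqrt ?_) (by positivity)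
    have hs0' : (0 : ℝ) < s := by exact_mod_cast hs0
    have hr : (0 : ℝ) < ((2 * B - s : ℕ) : ℝ) := by exact_mod_cast (by omega : 0 < 2 * B - s)
    rw [div_le_div_iff₀ (by positivity) hBr]
    -- B^2 ≤ A s (2B - s)
    have h3 : 127 * B ≤ 64 * (A * s) := by
      have : A * (q + s) = q * A + A * s := by ring
      omega
    have h4 : 61 * B ≤ 96 * (2 * B - s) := by omega
    have h3' : 127 * (B : ℝ) ≤ 64 * (A * s) := by exact_mod_cast h3
    have h4' : 61 * (B : ℝ) ≤ 96 * ((2 * B - s : ℕ) : ℝ) := by exact_mod_cast h4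
    have h5 : (127 * (B : ℝ)) * (61 * (B : ℝ)) ≤ (64 * (A * s)) * (96 * ((2 * B - s : ℕ) : ℝ)) :=
      mul_le_mul h3' h4' (by positivity) (by positivity)
    have h6 : ((2 * B : ℕ) : ℝ) * B ≤ 2 * A * (s * ((2 * B - s : ℕ) : ℝ)) := by
      push_cast at h5 ⊢
      nlinarith
    exact h6
  refine (sum_le_card_nsmul _ _ _ hterm).trans ?_
  rw [nsmul_eq_mul]
  have h7 : (J.card : ℝ) ≤ 2 * q := by exact_mod_cast hcard
  have h8 : (2 * q : ℝ) * Real.sqrt (2 * A / B) ≤ 1 / 4 := by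
    have h9 : (2 * q : ℝ) * Real.sqrt (2 * A / B) = Real.sqrt ((2 * q) ^ 2 * (2 * A / B)) := by
      rw [Real.sqrt_mul (by positivity), Real.sqrt_sq (by positivity)]
    rw [h9, Real.sqrt_le_left (by norm_num)]
    have h10 : (128 * q ^ 2 * A : ℝ) ≤ B := by exact_mod_cast hqB
    rw [mul_div_assoc', div_le_iff₀ hBr]
    nlinarith
  calc (J.card : ℝ) * (Real.sqrt (2 * A / B) * (1 + z) ^ (2 * B))
      ≤ (2 * q) * (Real.sqrt (2 * A / B) * (1 + z) ^ (2 * B)) :=
        mul_le_mul_of_nonneg_right h7 (by positivity)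
    _ = ((2 * q : ℝ) * Real.sqrt (2 * A / B)) * (1 + z) ^ (2 * B) := by ring
    _ ≤ (1 / 4) * (1 + z) ^ (2 * B) := mul_le_mul_of_nonneg_right h8 (by positivity)
    _ = (1 + z) ^ (2 * B) / 4 := by ring

/-- The block lemma for the tilted sums. -/
lemma tilt_block {a A B g m q : ℕ} (ha3 : 3 ≤ a) (haA : a ≤ 2 ^ A) {z : ℝ} (hz : 0 < z)
    (hm : Nat.Coprime m (2 * a)) (hm0 : 0 < m)
    (hν : (B : ℝ) * ((1 + z ^ 2) / (1 + z) ^ 2) ^ g ≤ 1 / 4)
    (hN : m * a ^ (4 * g) ≤ a ^ q) (hq : 1 ≤ q) (hqB : 128 * q ^ 2 * A ≤ B) {ξ : ℤ}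
    (hξ : ¬ (m : ℤ) ∣ ξ) :
    ∑ w ∈ Wd (2 * B), z ^ on w * KK a w ((ξ : ℝ) / m) ≤ (1 + z) ^ (2 * B) * gain a g := by
  classical
  set δ := 1 / ((a : ℝ) ^ (2 * g) + 4 ^ g) with hδ
  have ha0 : (0 : ℝ) < a := by exact_mod_cast (by omega : 0 < a)
  have hδ0 : 0 < δ := by positivity
  have hA1 : 1 ≤ A := by
    rcases Nat.eq_zero_or_pos A with h | h
    · subst h; simp at haA; omega
    · exact h
  have h2g : 2 * g ≤ B := by
    have h1 : a ^ (4 * g) ≤ a ^ q := (Nat.le_mul_of_pos_left _ hm0).trans hN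
    have h2 := (Nat.pow_le_pow_iff_right (by omega)).1 h1
    have h3 : q ≤ 128 * q ^ 2 * A := by
      calc q ≤ q ^ 2 := by nlinarith
        _ ≤ 128 * q ^ 2 := by omega
        _ ≤ 128 * q ^ 2 * A := Nat.le_mul_of_pos_right _ hA1
    omega
  set P1 : List Bool → Prop := fun w =>
    ∀ i, i + g ≤ B → ∃ j, i ≤ j ∧ j < i + g ∧ sp w j = 1 with hP1
  set P2 : List Bool → Prop := fun w =>
    m * a ^ (4 * g) * a ^ on w ≤ 4 ^ B ∨ m * a ^ (4 * g) * 4 ^ B ≤ a ^ on w with hP2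
  set P : List Bool → Prop := fun w => P1 w ∧ P2 w with hP
  have hpos : (0 : ℝ) < (1 + z) ^ (2 * B) := by positivity
  have hb1 : ∑ w ∈ (Wd (2 * B)).filter (fun w => ¬ P1 w), z ^ on w ≤ (1 + z) ^ (2 * B) / 4 := by
    have hsub : (Wd (2 * B)).filter (fun w => ¬ P1 w) ⊆ (range B).biUnion (fun i =>
        (Wd (2 * B)).filter (fun w => i + g ≤ B ∧ ∀ j, i ≤ j → j < i + g → sp w j ≠ 1)) := by
      intro w hw
      rw [mem_filter] at hw
      obtain ⟨hw, hn⟩ := hw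
      simp only [hP1] at hn
      push Not at hn
      obtain ⟨i, hi, hcc⟩ := hn
      rw [mem_biUnion]
      have hg0 : 1 ≤ g := by
        rcases Nat.eq_zero_or_pos g with h | h
        · subst h
          exfalso
          rw [pow_zero, mul_one] at hν
          have h1 : 1 ≤ B := by
            calc 1 ≤ 128 * q ^ 2 * A := Nat.one_le_iff_ne_zero.2 (by positivity)
              _ ≤ B := hqB
          have h2 : (1 : ℝ) ≤ B := by exact_mod_cast h1
          linarith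
        · exact h
      exact ⟨i, by rw [mem_range]; omega, by rw [mem_filter]; exact ⟨hw, hi, hcc⟩⟩
    refine (sum_le_sum_of_subset_of_nonneg hsub (fun _ _ _ => by positivity)).trans ?_
    refine (sum_biUnion_le_aux z hz.le _ _).trans ?_
    have h3 : ∀ i ∈ range B, ∑ w ∈ (Wd (2 * B)).filter
        (fun w => i + g ≤ B ∧ ∀ j, i ≤ j → j < i + g → sp w j ≠ 1), z ^ on w
        ≤ (1 + z) ^ (2 * B) * ((1 + z ^ 2) / (1 + z) ^ 2) ^ g := by
      intro i _
      by_cases hi : i + g ≤ B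
      · rw [← tilt_window hi hz]
        refine le_of_eq (sum_congr ?_ fun _ _ => rfl)
        ext w
        rw [mem_filter, mem_filter]
        simp [hi]
      · rw [filter_false_of_mem (by intro w _ h; exact hi h.1)]
        simp only [sum_empty]
        positivity
    refine (sum_le_card_nsmul _ _ _ h3).trans ?_
    rw [card_range, nsmul_eq_mul]
    nlinarith
  have hb2 : ∑ w ∈ (Wd (2 * B)).filter (fun w => ¬ P2 w), z ^ on w ≤ (1 + z) ^ (2 * B) / 4 := by
    have := tilt_growth (B := B) ha3 haA hz hN hq hqB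
    exact this
  have hirr : ∑ w ∈ (Wd (2 * B)).filter (fun w => ¬ P w), z ^ on w ≤ (1 + z) ^ (2 * B) / 2 := by
    have hsub : (Wd (2 * B)).filter (fun w => ¬ P w) ⊆
        (Wd (2 * B)).filter (fun w => ¬ P1 w) ∪ (Wd (2 * B)).filter (fun w => ¬ P2 w) := by
      intro w hw
      rw [mem_filter] at hw
      rw [mem_union, mem_filter, mem_filter]
      by_cases h1 : P1 w
      · right
        exact ⟨hw.1, fun h2 => hw.2 ⟨h1, h2⟩⟩
      · left; exact ⟨hw.1, h1⟩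
    refine (sum_le_sum_of_subset_of_nonneg hsub (fun _ _ _ => by positivity)).trans ?_
    have h1 := sum_union_inter (s₁ := (Wd (2 * B)).filter (fun w => ¬ P1 w))
      (s₂ := (Wd (2 * B)).filter (fun w => ¬ P2 w)) (f := fun w => z ^ on w)
    have h2 : 0 ≤ ∑ w ∈ (Wd (2 * B)).filter (fun w => ¬ P1 w) ∩ (Wd (2 * B)).filter (fun w => ¬ P2 w),
        z ^ on w := sum_nonneg fun _ _ => by positivity
    linarith
  rw [← sum_filter_add_sum_filter_not (Wd (2 * B)) P]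
  have h1 : ∑ w ∈ (Wd (2 * B)).filter P, z ^ on w * KK a w ((ξ : ℝ) / m)
      ≤ (∑ w ∈ (Wd (2 * B)).filter P, z ^ on w) * (1 - 2 * δ ^ 2) := by
    rw [sum_mul]
    refine sum_le_sum fun w hw => ?_
    rw [mem_filter] at hw
    refine mul_le_mul_of_nonneg_left ?_ (by positivity)
    obtain ⟨i, hi, hs, hfar⟩ := exists_far' ha3 hm hm0 h2g hξ hw.1 hw.2.1 hw.2.2
    refine (KK_le_cos a B w hw.1 ((ξ : ℝ) / m) i hi hs).trans ((abs_cos_le _).trans ?_)
    have : δ ^ 2 ≤ |((ξ : ℝ) / m * 4 ^ i * a ^ (∑ k ∈ Ico (i + 1) B, sp w k)) -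
        round ((ξ : ℝ) / m * 4 ^ i * a ^ (∑ k ∈ Ico (i + 1) B, sp w k))| ^ 2 :=
      pow_le_pow_left₀ hδ0.le hfar 2
    linarith
  have h2 : ∑ w ∈ (Wd (2 * B)).filter (fun w => ¬ P w), z ^ on w * KK a w ((ξ : ℝ) / m)
      ≤ ∑ w ∈ (Wd (2 * B)).filter (fun w => ¬ P w), z ^ on w := by
    refine sum_le_sum fun w hw => ?_
    rw [mem_filter] at hw
    exact mul_le_of_le_one_right (by positivity) (KK_le_one a B w hw.1 _)
  have h3 : ∑ w ∈ (Wd (2 * B)).filter P, z ^ on w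
      + ∑ w ∈ (Wd (2 * B)).filter (fun w => ¬ P w), z ^ on w = (1 + z) ^ (2 * B) := by
    rw [sum_filter_add_sum_filter_not, sum_pow_on]
  have h4 : 0 ≤ δ ^ 2 := by positivity
  unfold gain
  rw [← hδ]
  nlinarith
where
  sum_biUnion_le_aux (z : ℝ) (hz : 0 ≤ z) (s : Finset ℕ) (f : ℕ → Finset (List Bool)) :
      ∑ w ∈ s.biUnion f, z ^ on w ≤ ∑ i ∈ s, ∑ w ∈ f i, z ^ on w := by
    classical
    induction s using Finset.induction_on with
    | empty => simp
    | insert i s hi ih =>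
      rw [biUnion_insert, sum_insert hi]
      have h1 := sum_union_inter (s₁ := f i) (s₂ := s.biUnion f) (f := fun w => z ^ on w)
      have h2 : 0 ≤ ∑ w ∈ f i ∩ s.biUnion f, z ^ on w := sum_nonneg fun _ _ => pow_nonneg hz _
      linarith

end Pool.Agent.W5h45.RC
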