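import Pool.Agent.W5h45.RC.V2

/-! Equidistribution of the numerators among the words with a given number of letters `true`. -/

namespace Pool.Agent.W5h45.RC
open Finset Filter Topology

lemma Mz_bound {a A B g m q : ℕ} (ha3 : 3 ≤ a) (haA : a ≤ 2 ^ A) {z : ℝ} (hz : 0 < z)
    (hm : Nat.Coprime m (2 * a)) (hm0 : 0 < m)
    (hν : (B : ℝ) * ((1 + z ^ 2) / (1 + z) ^ 2) ^ g ≤ 1 / 4)
    (hN : m * a ^ (4 * g) ≤ a ^ q) (hq : 1 ≤ q) (hqB : 128 * q ^ 2 * A ≤ B)
    (k r : ℕ) : ∀ ξ : ℤ, ¬ (m : ℤ) ∣ ξ →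
      Mz a z (2 * B * k + r) ((ξ : ℝ) / m) ≤ ((1 + z) ^ (2 * B) * gain a g) ^ k * (1 + z) ^ r := by
  have hc2 : IsCoprime (m : ℤ) (a : ℤ) :=
    Nat.isCoprime_iff_coprime.2 (Nat.Coprime.coprime_mul_left_right hm)
  have hc3 : IsCoprime (m : ℤ) (2 : ℤ) := by
    have := Nat.isCoprime_iff_coprime.2 (Nat.Coprime.coprime_mul_right_right hm)
    exact_mod_cast this
  induction k with
  | zero => intro ξ _; simpa using Mz_le a r hz.le _
  | succ k ih =>
    intro ξ hξ
    rw [show 2 * B * (k + 1) + r = 2 * B + (2 * B * k + r) by ring]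
    refine (Mz_add_le _ hz.le _ _ _).trans ?_
    have h1 : ∀ o' ∈ range (2 * B * k + r + 1),
        (z ^ o' * ‖E a (2 * B * k + r) o' (2 ^ (2 * B) * ((ξ : ℝ) / m))‖) *
          Mz a z (2 * B) ((ξ : ℝ) / m * a ^ o') ≤
        (z ^ o' * ‖E a (2 * B * k + r) o' (2 ^ (2 * B) * ((ξ : ℝ) / m))‖) *
          ((1 + z) ^ (2 * B) * gain a g) := by
      intro o' _
      refine mul_le_mul_of_nonneg_left ?_ (mul_nonneg (by positivity) (norm_nonneg _))
      refine (Mz_le_sum_KK _ _ hz.le _).trans ?_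
      have h2 : (ξ : ℝ) / m * a ^ o' = ((ξ * (a : ℤ) ^ o' : ℤ) : ℝ) / m := by
        push_cast; ring
      rw [h2]
      refine tilt_block ha3 haA hz hm hm0 hν hN hq hqB ?_
      intro h3
      exact hξ ((hc2.pow_right).dvd_of_dvd_mul_right h3)
    refine (sum_le_sum h1).trans ?_
    rw [← sum_mul]
    have h4 := ih (2 ^ (2 * B) * ξ) (by
      intro h5
      exact hξ ((hc3.pow_right).dvd_of_dvd_mul_left h5))
    have h5 : 2 ^ (2 * B) * ((ξ : ℝ) / m) = ((2 ^ (2 * B) * ξ : ℤ) : ℝ) / m := by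
      push_cast; ring
    rw [h5]
    have h6 : 0 ≤ (1 + z) ^ (2 * B) * gain a g :=
      mul_nonneg (by positivity) (gain_nonneg (by omega) g)
    calc Mz a z (2 * B * k + r) (((2 ^ (2 * B) * ξ : ℤ) : ℝ) / m) * ((1 + z) ^ (2 * B) * gain a g)
        ≤ (((1 + z) ^ (2 * B) * gain a g) ^ k * (1 + z) ^ r) * ((1 + z) ^ (2 * B) * gain a g) :=
          mul_le_mul_of_nonneg_right h4 h6
      _ = ((1 + z) ^ (2 * B) * gain a g) ^ (k + 1) * (1 + z) ^ r := by ring

lemma tilt_equidist {a A B g m q : ℕ} (ha3 : 3 ≤ a) (haA : a ≤ 2 ^ A) {z : ℝ} (hz : 0 < z)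
    (hm : Nat.Coprime m (2 * a)) (hm0 : 0 < m)
    (hν : (B : ℝ) * ((1 + z ^ 2) / (1 + z) ^ 2) ^ g ≤ 1 / 4)
    (hN : m * a ^ (4 * g) ≤ a ^ q) (hq : 1 ≤ q) (hqB : 128 * q ^ 2 * A ≤ B)
    (L o y : ℕ) :
    z ^ o * |(cnt a L o m y : ℝ) - (L.choose o : ℝ) / m| ≤ (1 + z) ^ L * gain a g ^ (L / (2 * B)) := by
  have hm' : (0 : ℝ) < m := by exact_mod_cast hm0
  have hE0 : E a L o 0 = (L.choose o : ℂ) := by
    unfold E
    simp only [zero_mul, ex_zero]
    rw [← card_on, Finset.card_eq_sum_ones, Nat.cast_sum, sum_filter]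
    refine sum_congr rfl fun w _ => ?_
    split_ifs <;> simp
  have h1 : (cnt a L o m y : ℂ) * m
      = ∑ ξ ∈ range m, ex (-(ξ * ((y : ℝ) / m))) * E a L o ((ξ : ℝ) / m) := by
    have h2 : (cnt a L o m y : ℂ) * m = ∑ w ∈ Wd L, if on w = o then
        ∑ ξ ∈ range m, ex (ξ * ((((cw a w : ℤ) - (y : ℤ) : ℤ) : ℝ) / m)) else 0 := by
      rw [cnt, Finset.card_eq_sum_ones, Nat.cast_sum, sum_mul, sum_filter]
      refine sum_congr rfl fun w _ => ?_
      rw [sum_ex hm0]
      have h3 : cw a w ≡ y [MOD m] ↔ (m : ℤ) ∣ (cw a w : ℤ) - (y : ℤ) := by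
        rw [Nat.ModEq.comm, Nat.modEq_iff_dvd]
      by_cases hw : on w = o
      · simp [hw, h3]
      · simp [hw]
    rw [h2]
    unfold E
    simp only [mul_sum]
    rw [sum_comm]
    refine sum_congr rfl fun w _ => ?_
    split_ifs with hw
    · refine sum_congr rfl fun ξ _ => ?_
      rw [← ex_add]
      congr 1
      push_cast
      ring
    · simp
  have h2 : (cnt a L o m y : ℂ) * m - (L.choose o : ℂ)
      = ∑ ξ ∈ (range m).erase 0, ex (-(ξ * ((y : ℝ) / m))) * E a L o ((ξ : ℝ) / m) := by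
    rw [h1, ← add_sum_erase (range m) _ (mem_range.2 hm0)]
    simp only [Nat.cast_zero, zero_mul, neg_zero, ex_zero, one_mul, zero_div, hE0]
    ring
  have hz1 : (0 : ℝ) < 1 + z := by linarith
  set k := L / (2 * B) with hk
  set r := L % (2 * B) with hr
  have hLk : L = 2 * B * k + r := (Nat.div_add_mod L (2 * B)).symm
  have h3 : ∀ ξ ∈ (range m).erase 0, ‖ex (-(ξ * ((y : ℝ) / m))) * E a L o ((ξ : ℝ) / m)‖
      ≤ (1 + z) ^ L * gain a g ^ k / z ^ o := by
    intro ξ hξ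
    rw [mem_erase, mem_range] at hξ
    rw [norm_mul, norm_ex, one_mul]
    have hnd : ¬ (m : ℤ) ∣ (ξ : ℤ) := by
      intro h
      have := Int.natCast_dvd_natCast.1 h
      have := Nat.le_of_dvd (by omega) this
      omega
    have h4 : z ^ o * ‖E a L o ((ξ : ℝ) / m)‖ ≤ Mz a z L ((ξ : ℝ) / m) := by
      by_cases ho : o ≤ L
      · unfold Mz
        exact single_le_sum (f := fun o => z ^ o * ‖E a L o ((ξ : ℝ) / m)‖)
          (fun _ _ => mul_nonneg (by positivity) (norm_nonneg _)) (mem_range.2 (by omega))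
      · rw [E_of_lt (by omega), norm_zero, mul_zero]
        exact Mz_nonneg _ hz.le _ _
    rw [le_div_iff₀ (by positivity), mul_comm]
    refine h4.trans ?_
    have h5 := Mz_bound ha3 haA hz hm hm0 hν hN hq hqB k r (ξ : ℤ) hnd
    rw [← hLk] at h5
    rw [Int.cast_natCast] at h5
    refine h5.trans (le_of_eq ?_)
    have e1 : (1 + z) ^ L = ((1 + z) ^ (2 * B)) ^ k * (1 + z) ^ r := by
      conv_lhs => rw [hLk]
      rw [pow_add, pow_mul]
    rw [e1, mul_pow]
    ring
  have hR : 0 ≤ (1 + z) ^ L * gain a g ^ k / z ^ o :=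
    div_nonneg (mul_nonneg (by positivity) (pow_nonneg (gain_nonneg (by omega) g) _)) (by positivity)
  have h4 : ‖(cnt a L o m y : ℂ) * m - (L.choose o : ℂ)‖ ≤ m * ((1 + z) ^ L * gain a g ^ k / z ^ o) := by
    rw [h2]
    refine (norm_sum_le _ _).trans ((sum_le_card_nsmul _ _ _ h3).trans ?_)
    rw [nsmul_eq_mul]
    refine mul_le_mul_of_nonneg_right ?_ hR
    have := card_erase_le (s := range m) (a := 0)
    rw [card_range] at this
    exact_mod_cast this
  have h5 : ‖(cnt a L o m y : ℂ) * m - (L.choose o : ℂ)‖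
      = |(cnt a L o m y : ℝ) - (L.choose o : ℝ) / m| * m := by
    have h6 : (cnt a L o m y : ℂ) * m - (L.choose o : ℂ)
        = (((cnt a L o m y : ℝ) * m - (L.choose o : ℝ) : ℝ) : ℂ) := by push_cast; ring
    rw [h6, Complex.norm_real, Real.norm_eq_abs]
    have h7 : (cnt a L o m y : ℝ) * m - (L.choose o : ℝ)
        = ((cnt a L o m y : ℝ) - (L.choose o : ℝ) / m) * m := by field_simp
    rw [h7, abs_mul, abs_of_pos hm']
  rw [h5, mul_comm (m : ℝ)] at h4
  have h6 := le_of_mul_le_mul_right h4 hm'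
  rw [le_div_iff₀ (by positivity)] at h6
  linarith

/-- The binomial distribution with mean `o` has its mode at `o`. -/
lemma mode_le {L o : ℕ} (ho : 0 < o) (hoL : o < L) :
    (1 + (o : ℝ) / (L - o : ℕ)) ^ L ≤ (L + 1) * ((L.choose o : ℝ) * ((o : ℝ) / (L - o : ℕ)) ^ o) := by
  set r := L - o with hr
  have hr0 : (0 : ℝ) < (r : ℝ) := by exact_mod_cast (by omega : 0 < r)
  have ho0 : (0 : ℝ) < o := by exact_mod_cast ho
  set z : ℝ := (o : ℝ) / r with hz
  have hz0 : 0 < z := by positivity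
  set f : ℕ → ℝ := fun s => (L.choose s : ℝ) * z ^ s with hf
  have hrec : ∀ s, f (s + 1) * ((s + 1) * r) = f s * ((L - s : ℕ) * o) := by
    intro s
    have h1 : (L.choose (s + 1) : ℝ) * (s + 1) = (L.choose s : ℝ) * ((L - s : ℕ) : ℝ) := by
      exact_mod_cast Nat.choose_succ_right_eq L s
    simp only [hf]
    rw [pow_succ]
    have h2 : z * r = o := by rw [hz]; field_simp
    calc (L.choose (s + 1) : ℝ) * (z ^ s * z) * ((s + 1) * r)
        = ((L.choose (s + 1) : ℝ) * (s + 1)) * z ^ s * (z * r) := by ring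
      _ = ((L.choose s : ℝ) * ((L - s : ℕ) : ℝ)) * z ^ s * o := by rw [h1, h2]
      _ = (L.choose s : ℝ) * z ^ s * (((L - s : ℕ) : ℝ) * o) := by ring
  have hf0 : ∀ s, 0 ≤ f s := fun s => by positivity
  have hup : ∀ s, s < o → f s ≤ f (s + 1) := by
    intro s hs
    have h1 := hrec s
    have h2 : (s + 1) * r ≤ (L - s) * o := by
      have h3 : s + 1 ≤ o := hs
      have h4 : r ≤ L - s := by omega
      calc (s + 1) * r ≤ o * (L - s) := Nat.mul_le_mul h3 h4
        _ = (L - s) * o := by ring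
    have h3 : (((s : ℝ) + 1) * r) ≤ ((L - s : ℕ) : ℝ) * o := by exact_mod_cast h2
    have h4 : (0 : ℝ) < ((s : ℝ) + 1) * r := by positivity
    have h5 : f s * (((s : ℝ) + 1) * r) ≤ f (s + 1) * (((s : ℝ) + 1) * r) := by
      rw [h1]; exact mul_le_mul_of_nonneg_left h3 (hf0 s)
    exact le_of_mul_le_mul_right h5 h4
  have hdown : ∀ s, o ≤ s → f (s + 1) ≤ f s := by
    intro s hs
    have h1 := hrec s
    have h2 : (L - s) * o ≤ (s + 1) * r := by
      have h3 : o ≤ s + 1 := by omega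
      have h4 : L - s ≤ r := by omega
      calc (L - s) * o ≤ r * (s + 1) := Nat.mul_le_mul h4 h3
        _ = (s + 1) * r := by ring
    have h3 : ((L - s : ℕ) : ℝ) * o ≤ (((s : ℝ) + 1) * r) := by exact_mod_cast h2
    have h4 : (0 : ℝ) < ((s : ℝ) + 1) * r := by positivity
    have h5 : f (s + 1) * (((s : ℝ) + 1) * r) ≤ f s * (((s : ℝ) + 1) * r) := by
      rw [h1]; exact mul_le_mul_of_nonneg_left h3 (hf0 s)
    exact le_of_mul_le_mul_right h5 h4
  have hle1 : ∀ k, k ≤ o → f (o - k) ≤ f o := by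
    intro k
    induction k with
    | zero => intro _; exact le_rfl
    | succ k ih =>
      intro hk
      refine le_trans ?_ (ih (by omega))
      have := hup (o - (k + 1)) (by omega)
      rwa [show o - (k + 1) + 1 = o - k by omega] at this
  have hle2 : ∀ k, f (o + k) ≤ f o := by
    intro k
    induction k with
    | zero => exact le_rfl
    | succ k ih => exact (hdown (o + k) (by omega)).trans ih
  have hle : ∀ s, f s ≤ f o := by
    intro s
    rcases Nat.le_total s o with h | h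
    · have := hle1 (o - s) (by omega)
      rwa [show o - (o - s) = s by omega] at this
    · have := hle2 (s - o)
      rwa [show o + (s - o) = s by omega] at this
  have hsum : (1 + z) ^ L = ∑ s ∈ range (L + 1), f s := by
    rw [add_comm, add_pow]
    refine sum_congr rfl fun s _ => ?_
    simp only [hf, one_pow, mul_one]
    ring
  rw [hsum]
  refine (sum_le_card_nsmul _ _ _ (fun s _ => hle s)).trans (le_of_eq ?_)
  rw [card_range, nsmul_eq_mul]
  push_cast
  ring

/-- Equidistribution at a fixed number of letters `true`. -/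
lemma fixed_equidist {a A B g m q : ℕ} (ha3 : 3 ≤ a) (haA : a ≤ 2 ^ A)
    (hm : Nat.Coprime m (2 * a)) (hm0 : 0 < m) {L o : ℕ} (ho : 0 < o) (hoL : o < L)
    (hν : (B : ℝ) * ((1 + ((o : ℝ) / (L - o : ℕ)) ^ 2) / (1 + (o : ℝ) / (L - o : ℕ)) ^ 2) ^ g ≤ 1 / 4)
    (hN : m * a ^ (4 * g) ≤ a ^ q) (hq : 1 ≤ q) (hqB : 128 * q ^ 2 * A ≤ B) (y : ℕ) :
    |(cnt a L o m y : ℝ) - (L.choose o : ℝ) / m|
      ≤ L.choose o * ((L + 1) * gain a g ^ (L / (2 * B))) := by
  have hr0 : (0 : ℝ) < ((L - o : ℕ) : ℝ) := by exact_mod_cast (by omega : 0 < L - o)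
  have ho0 : (0 : ℝ) < o := by exact_mod_cast ho
  set z : ℝ := (o : ℝ) / (L - o : ℕ) with hz
  have hz0 : 0 < z := by positivity
  have h1 := tilt_equidist ha3 haA hz0 hm hm0 hν hN hq hqB L o y
  have h2 := mode_le ho hoL
  rw [← hz] at h2
  have hgn : 0 ≤ gain a g ^ (L / (2 * B)) := pow_nonneg (gain_nonneg (by omega) g) _
  have h3 : z ^ o * |(cnt a L o m y : ℝ) - (L.choose o : ℝ) / m|
      ≤ z ^ o * (L.choose o * ((L + 1) * gain a g ^ (L / (2 * B)))) := by
    refine h1.trans ((mul_le_mul_of_nonneg_right h2 hgn).trans (le_of_eq ?_))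
    ring
  exact le_of_mul_le_mul_left h3 (by positivity)

lemma drop_injOn {a : ℕ} (ha : 3 ≤ a) (hodd : Odd a) {m : ℕ} (hm : Nat.Coprime a m)
    {l L : ℕ} (hl : l ≤ L) (hal : a ^ l ≤ m) (o y : ℕ) :
    Set.InjOn (fun w : List Bool => w.drop l)
      ((Wd L).filter (fun w => on w = o ∧ cw a w ≡ y [MOD m]) : Finset (List Bool)) := by
  intro w hw w' hw' h
  simp only [coe_filter, Set.mem_ofPred_eq, mem_Wd] at hw hw'
  simp only at h
  obtain ⟨h1, h2, h3⟩ := hw
  obtain ⟨h1', h2', h3'⟩ := hw'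
  rw [← List.take_append_drop l w] at h2 h3 ⊢
  rw [← List.take_append_drop l w'] at h2' h3' ⊢
  rw [h] at h2 h3 ⊢
  have hlu : (w.take l).length = l := by simp; omega
  have hlu' : (w'.take l).length = l := by simp; omega
  generalize w.take l = u at *
  generalize w'.take l = u' at *
  generalize w'.drop l = v at *
  rw [on_append] at h2 h2'
  rw [cw_append] at h3 h3'
  have h4 : a ^ on v * cw a u ≡ a ^ on v * cw a u' [MOD m] := by
    have h5 := h3.trans h3'.symm
    rw [hlu, hlu'] at h5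
    exact Nat.ModEq.add_right_cancel' _ h5
  have h6 : cw a u ≡ cw a u' [MOD m] := by
    refine Nat.ModEq.cancel_left_of_coprime ?_ h4
    rw [Nat.coprime_iff_gcd_eq_one.symm]
    exact (hm.pow_left _).symm
  have h7 : cw a u = cw a u' := by
    have h8 : cw a u < m := lt_of_lt_of_le (by rw [← hlu]; exact cw_lt ha u) hal
    have h9 : cw a u' < m := lt_of_lt_of_le (by rw [← hlu']; exact cw_lt ha u') hal
    exact Nat.ModEq.eq_of_lt_of_lt h6 h8 h9
  rw [cw_inj hodd (hlu.trans hlu'.symm) (by omega) h7]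

/-- Large moduli, at a fixed number of letters `true`. -/
lemma fixed_large {a : ℕ} (ha : 3 ≤ a) (hodd : Odd a) {m : ℕ} (hm : Nat.Coprime a m)
    {l L : ℕ} (hl : l ≤ L) (hal : a ^ l ≤ m) {o : ℕ} (ho : 0 < o) (hoL : o < L) (y : ℕ) {c : ℝ}
    (hc1 : (o : ℝ) ≤ c * L) (hc2 : ((L - o : ℕ) : ℝ) ≤ c * L) :
    (cnt a L o m y : ℝ) ≤ L.choose o * ((L + 1) * c ^ l) := by
  have hr0 : (0 : ℝ) < ((L - o : ℕ) : ℝ) := by exact_mod_cast (by omega : 0 < L - o)
  have ho0 : (0 : ℝ) < o := by exact_mod_cast ho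
  have hL0 : (0 : ℝ) < L := by exact_mod_cast (by omega : 0 < L)
  set z : ℝ := (o : ℝ) / (L - o : ℕ) with hz
  have hz0 : 0 < z := by positivity
  have hsum : (o : ℝ) + ((L - o : ℕ) : ℝ) = L := by
    rw [← Nat.cast_add]; congr 1; omega
  have h1z : 1 + z = L / ((L - o : ℕ) : ℝ) := by
    rw [hz, ← hsum]; field_simp
    ring
  have hcz : 1 ≤ c * (1 + z) ∧ z ≤ c * (1 + z) := by
    rw [h1z]
    constructor
    · rw [mul_div_assoc', le_div_iff₀ hr0]; linarith
    · rw [mul_div_assoc', hz, div_le_div_iff_of_pos_right hr0]; exact hc1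
  have hc0 : 0 < c * (1 + z) := by linarith [hcz.1]
  set F := (Wd L).filter (fun w => on w = o ∧ cw a w ≡ y [MOD m]) with hF
  have h1 : (F.card : ℝ) * z ^ o ≤ (c * (1 + z)) ^ l * (1 + z) ^ (L - l) := by
    have h2 : (F.card : ℝ) * z ^ o = ∑ w ∈ F, z ^ on w := by
      rw [← nsmul_eq_mul, ← sum_const]
      refine sum_congr rfl fun w hw => ?_
      rw [hF, mem_filter] at hw
      rw [hw.2.1]
    have h3 : ∀ w ∈ F, z ^ on w ≤ (c * (1 + z)) ^ l * z ^ on (w.drop l) := by
      intro w hw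
      rw [hF, mem_filter, mem_Wd] at hw
      have h4 : on w = on (w.take l) + on (w.drop l) := by
        rw [← on_append, List.take_append_drop]
      rw [h4, pow_add]
      refine mul_le_mul_of_nonneg_right ?_ (by positivity)
      have h5 : on (w.take l) ≤ l := by
        refine (on_le _).trans ?_
        simp
      calc z ^ on (w.take l) ≤ (c * (1 + z)) ^ on (w.take l) :=
            pow_le_pow_left₀ hz0.le hcz.2 _
        _ ≤ (c * (1 + z)) ^ l := pow_le_pow_right₀ hcz.1 h5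
    rw [h2]
    refine (sum_le_sum h3).trans ?_
    rw [← mul_sum]
    refine mul_le_mul_of_nonneg_left ?_ (by positivity)
    have hinj := drop_injOn ha hodd hm hl hal o y
    rw [← hF] at hinj
    rw [← sum_pow_on, ← Finset.sum_image (g := fun w : List Bool => w.drop l) (f := fun v => z ^ on v) hinj]
    refine sum_le_sum_of_subset_of_nonneg ?_ (fun _ _ _ => by positivity)
    intro v hv
    rw [mem_image] at hv
    obtain ⟨w, hw, rfl⟩ := hv
    rw [hF, mem_filter, mem_Wd] at hw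
    rw [mem_Wd, List.length_drop]
    omega
  have h2 := mode_le ho hoL
  rw [← hz] at h2
  have hc00 : 0 ≤ c := by
    by_contra hcon
    push Not at hcon
    nlinarith
  have h3 : (c * (1 + z)) ^ l * (1 + z) ^ (L - l) = c ^ l * (1 + z) ^ L := by
    rw [mul_pow, mul_assoc, ← pow_add]
    congr 2
    omega
  rw [h3] at h1
  have h4 : (F.card : ℝ) * z ^ o ≤ (L.choose o * ((L + 1) * c ^ l)) * z ^ o := by
    refine h1.trans ((mul_le_mul_of_nonneg_left h2 (by positivity)).trans (le_of_eq ?_))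
    ring
  exact le_of_mul_le_mul_right h4 (by positivity)

end Pool.Agent.W5h45.RC
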