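import Pool.Agent.W5h45.RC.V3

/-! The choice of the parameters at a fixed number of letters `true`. -/

namespace Pool.Agent.W5h45.RC
open Finset Filter Topology

lemma eventually_poly_le' (C : ℝ) (j k : ℕ) (hjk : j < k) :
    ∀ᶠ n : ℕ in atTop, C * (n : ℝ) ^ j ≤ (n : ℝ) ^ k := by
  filter_upwards [eventually_ge_atTop (Nat.ceil C + 1)] with n hn
  have h1 : C ≤ n := (Nat.le_ceil C).trans (by exact_mod_cast (by omega : Nat.ceil C ≤ n))
  have h2 : (1 : ℝ) ≤ n := by exact_mod_cast (by omega : 1 ≤ n)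
  calc C * (n : ℝ) ^ j ≤ n * (n : ℝ) ^ j := mul_le_mul_of_nonneg_right h1 (by positivity)
    _ = (n : ℝ) ^ (j + 1) := by ring
    _ ≤ (n : ℝ) ^ k := pow_le_pow_right₀ h2 hjk

/-- Equidistribution of the numerators, uniformly in the number of odd letters: small moduli. -/
theorem equi_small {a : ℕ} (ha3 : 3 ≤ a) (r : ℕ) {ε : ℝ} (hε : 0 < ε) (hε1 : ε ≤ 1 / 2) :
    ∀ᶠ L : ℕ in atTop, ∀ o : ℕ, ε * L ≤ o → (o : ℝ) ≤ (1 - ε) * L → ∀ m, 0 < m →
      m.Coprime (2 * a) → m ≤ a ^ (Nat.log 2 L) ^ (r + 3) → ∀ y,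
      |(cnt a L o m y : ℝ) - (L.choose o : ℝ) / m|
        ≤ L.choose o * Real.exp (-((Nat.log 2 L : ℕ) : ℝ) ^ (2 * r + 6)) := by
  set A := Nat.clog 2 a with hA
  have haA : a ≤ 2 ^ A := Nat.le_pow_clog (by norm_num) a
  have hA1 : 1 ≤ A := by
    rcases Nat.eq_zero_or_pos A with h | h
    · rw [h] at haA; simp at haA; omega
    · exact h
  obtain ⟨G, hG⟩ : ∃ G : ℕ, (1 - ε) ^ G ≤ 1 / 2 ^ (2 * r + 9) := by
    have h1 : Tendsto (fun n : ℕ => (1 - ε) ^ n) atTop (𝓝 0) :=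
      tendsto_pow_atTop_nhds_zero_of_lt_one (by linarith) (by linarith)
    have h2 := h1.eventually (ge_mem_nhds (by positivity : (0 : ℝ) < 1 / 2 ^ (2 * r + 9)))
    exact h2.exists
  have hε' : (0 : ℝ) ≤ 1 - ε := by linarith
  -- parameters
  set gg : ℕ → ℕ := fun n => G * (Nat.log 2 n + 1) with hgg
  -- `a ^ (4 g)` is polynomial
  have hag : ∀ n, 1 ≤ n → a ^ (4 * gg n) ≤ (2 * n) ^ (4 * A * G) := by
    intro n hn
    calc a ^ (4 * gg n) ≤ (2 ^ A) ^ (4 * gg n) := Nat.pow_le_pow_left haA _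
      _ = (2 ^ (Nat.log 2 n + 1)) ^ (4 * A * G) := by
          rw [← pow_mul, ← pow_mul]; congr 1; simp only [hgg]; ring
      _ ≤ (2 * n) ^ (4 * A * G) := by
          refine Nat.pow_le_pow_left ?_ _
          rw [pow_succ, mul_comm]
          exact Nat.mul_le_mul_left _ (Nat.pow_log_le_self 2 (by omega))
  have hnu : ∀ n, 1 ≤ n → (1 - ε) ^ gg n ≤ 1 / (n : ℝ) ^ (2 * r + 9) := by
    intro n hn
    have h1 : (n : ℝ) ≤ 2 ^ (Nat.log 2 n + 1) := by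
      exact_mod_cast (Nat.lt_pow_succ_log_self (by norm_num) n).le
    have hn0 : (0 : ℝ) < n := by exact_mod_cast hn
    calc (1 - ε) ^ gg n = ((1 - ε) ^ G) ^ (Nat.log 2 n + 1) := by
          simp only [hgg]; rw [pow_mul]
      _ ≤ (1 / 2 ^ (2 * r + 9)) ^ (Nat.log 2 n + 1) := pow_le_pow_left₀ (pow_nonneg hε' _) hG _
      _ = 1 / (2 ^ (Nat.log 2 n + 1)) ^ (2 * r + 9) := by
          rw [div_pow, one_pow, ← pow_mul, ← pow_mul, mul_comm]
      _ ≤ 1 / (n : ℝ) ^ (2 * r + 9) := by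
          refine one_div_le_one_div_of_le (by positivity) ?_
          exact pow_le_pow_left₀ hn0.le h1 _
  -- eventual inequalities in `n = log L`
  have ev1 : ∀ᶠ n : ℕ in atTop, 4 * gg n ≤ n ^ (r + 3) := by
    have h1 := eventually_poly_le' (8 * G) 1 (r + 3) (by omega)
    filter_upwards [h1, eventually_ge_atTop 1] with n h1 hn
    have h2 : Nat.log 2 n + 1 ≤ 2 * n := by
      have := Nat.log_le_self 2 n
      omega
    have h3 : 8 * G * n ≤ n ^ (r + 3) := by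
      have : (8 * G : ℝ) * n ≤ (n : ℝ) ^ (r + 3) := by simpa using h1
      exact_mod_cast this
    calc 4 * gg n = 4 * (G * (Nat.log 2 n + 1)) := rfl
      _ ≤ 4 * (G * (2 * n)) := Nat.mul_le_mul_left _ (Nat.mul_le_mul_left _ h2)
      _ = 8 * G * n := by ring
      _ ≤ n ^ (r + 3) := h3
  have ev2 : ∀ᶠ n : ℕ in atTop, 128 * (2 * n ^ (r + 3)) ^ 2 * A ≤ n ^ (2 * r + 8) := by
    have h1 := eventually_poly_le' (512 * A) (2 * r + 6) (2 * r + 8) (by omega)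
    filter_upwards [h1] with n h1
    have h3 : 512 * A * n ^ (2 * r + 6) ≤ n ^ (2 * r + 8) := by exact_mod_cast h1
    calc 128 * (2 * n ^ (r + 3)) ^ 2 * A = 512 * A * n ^ (2 * r + 6) := by ring
      _ ≤ n ^ (2 * r + 8) := h3
  have ev3 : ∀ᶠ n : ℕ in atTop,
      ((n : ℝ) ^ (2 * r + 6) + 2 * n + 4) * (2 * (n : ℝ) ^ (2 * r + 8)) * (4 * (2 * (n : ℝ)) ^ (4 * A * G))
        + 2 * (n : ℝ) ^ (2 * r + 8) ≤ 2 ^ n := by
    have h1 := eventually_poly_le (2 * (7 * 2 * (4 * 2 ^ (4 * A * G)))) (4 * r + 14 + 4 * A * G)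
    have h2 := eventually_poly_le (2 * 2) (2 * r + 8)
    filter_upwards [h1, h2, eventually_ge_atTop 1] with n h1 h2 hn
    have hn1 : (1 : ℝ) ≤ n := by exact_mod_cast hn
    have h3 : ((n : ℝ) ^ (2 * r + 6) + 2 * n + 4) ≤ 7 * (n : ℝ) ^ (2 * r + 6) := by
      have h4 : (1 : ℝ) ≤ (n : ℝ) ^ (2 * r + 5) := one_le_pow₀ hn1
      have h5 : (n : ℝ) ^ (2 * r + 6) = n * (n : ℝ) ^ (2 * r + 5) := by rw [pow_succ]; ring
      nlinarith
    calc ((n : ℝ) ^ (2 * r + 6) + 2 * n + 4) * (2 * (n : ℝ) ^ (2 * r + 8)) *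
          (4 * (2 * (n : ℝ)) ^ (4 * A * G)) + 2 * (n : ℝ) ^ (2 * r + 8)
        ≤ (7 * (n : ℝ) ^ (2 * r + 6)) * (2 * (n : ℝ) ^ (2 * r + 8)) *
          (4 * (2 * (n : ℝ)) ^ (4 * A * G)) + 2 * (n : ℝ) ^ (2 * r + 8) := by gcongr
      _ = (7 * 2 * (4 * 2 ^ (4 * A * G))) * (n : ℝ) ^ (4 * r + 14 + 4 * A * G)
          + 2 * (n : ℝ) ^ (2 * r + 8) := by
          rw [mul_pow, show 4 * r + 14 + 4 * A * G = (2 * r + 6) + (2 * r + 8) + 4 * A * G by ring,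
            pow_add, pow_add]; ring
      _ ≤ 2 ^ n := by linarith
  filter_upwards [tendsto_log2.eventually ev1, tendsto_log2.eventually ev2,
    tendsto_log2.eventually ev3, tendsto_log2.eventually (eventually_ge_atTop 4),
    eventually_ge_atTop 1] with L e1 e2 e3 e4 hL1
  intro o hoε hoε' m hm0 hm hmY y
  set n := Nat.log 2 L with hn
  have hn0 : (0 : ℝ) < n := by exact_mod_cast (by omega : 0 < n)
  have hn4 : (4 : ℝ) ≤ n := by exact_mod_cast e4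
  have hLle : L < 2 ^ (n + 1) := Nat.lt_pow_succ_log_self (by norm_num) L
  have hLge : 2 ^ n ≤ L := Nat.pow_log_le_self 2 (by omega)
  have hLr : (0 : ℝ) < L := by exact_mod_cast (by omega : 0 < L)
  have ho : 0 < o := by
    have : (0 : ℝ) < o := lt_of_lt_of_le (by positivity) hoε
    exact_mod_cast this
  have hoL : o < L := by
    have : (o : ℝ) < L := lt_of_le_of_lt hoε' (by nlinarith)
    exact_mod_cast this
  have hr : ((L - o : ℕ) : ℝ) = L - o := by rw [Nat.cast_sub hoL.le]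
  have hr0 : (0 : ℝ) < (L : ℝ) - o := by
    rw [← hr]; exact_mod_cast (by omega : 0 < L - o)
  have ho0 : (0 : ℝ) < o := by exact_mod_cast ho
  set B := n ^ (2 * r + 8) with hB
  set g := gg n with hg
  set q := 2 * n ^ (r + 3) with hq
  -- ν
  have hν1 : (1 + ((o : ℝ) / (L - o : ℕ)) ^ 2) / (1 + (o : ℝ) / (L - o : ℕ)) ^ 2 ≤ 1 - ε := by
    rw [hr]
    have h1 : (1 + ((o : ℝ) / (L - o)) ^ 2) / (1 + (o : ℝ) / (L - o)) ^ 2
        = ((L - o) ^ 2 + (o : ℝ) ^ 2) / (L : ℝ) ^ 2 := by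
      have h2 : (1 + (o : ℝ) / (L - o)) = L / (L - o) := by field_simp; ring
      rw [h2]
      field_simp
    rw [h1, div_le_iff₀ (by positivity)]
    have h2 : 0 ≤ ((o : ℝ) - ε * L) * ((1 - ε) * L - o) := mul_nonneg (by linarith) (by linarith)
    have h3 : 0 ≤ (1 - 2 * ε) * ε * (L : ℝ) ^ 2 := by
      have : 0 ≤ 1 - 2 * ε := by linarith
      positivity
    nlinarith
  have hν : (B : ℝ) * ((1 + ((o : ℝ) / (L - o : ℕ)) ^ 2) / (1 + (o : ℝ) / (L - o : ℕ)) ^ 2) ^ g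
      ≤ 1 / 4 := by
    have h1 : ((1 + ((o : ℝ) / (L - o : ℕ)) ^ 2) / (1 + (o : ℝ) / (L - o : ℕ)) ^ 2) ^ g
        ≤ 1 / (n : ℝ) ^ (2 * r + 9) :=
      (pow_le_pow_left₀ (by positivity) hν1 g).trans (hnu n (by omega))
    have h2 : (B : ℝ) = (n : ℝ) ^ (2 * r + 8) := by rw [hB]; push_cast; ring
    rw [h2]
    calc (n : ℝ) ^ (2 * r + 8) * ((1 + ((o : ℝ) / (L - o : ℕ)) ^ 2) / (1 + (o : ℝ) / (L - o : ℕ)) ^ 2) ^ g
        ≤ (n : ℝ) ^ (2 * r + 8) * (1 / (n : ℝ) ^ (2 * r + 9)) :=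
          mul_le_mul_of_nonneg_left h1 (by positivity)
      _ = 1 / n := by
          rw [mul_one_div, div_eq_div_iff (by positivity) hn0.ne', one_mul, ← pow_succ]
      _ ≤ 1 / 4 := one_div_le_one_div_of_le (by norm_num) hn4
  have hN : m * a ^ (4 * g) ≤ a ^ q := by
    calc m * a ^ (4 * g) ≤ a ^ n ^ (r + 3) * a ^ n ^ (r + 3) :=
          Nat.mul_le_mul hmY (Nat.pow_le_pow_right (by omega) e1)
      _ = a ^ q := by rw [← pow_add, hq, two_mul]
  have hq1 : 1 ≤ q := by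
    rw [hq]
    have : 0 < n ^ (r + 3) := by positivity
    omega
  have hmain := fixed_equidist ha3 haA hm hm0 ho hoL hν hN hq1 e2 y
  refine hmain.trans (mul_le_mul_of_nonneg_left ?_ (Nat.cast_nonneg _))
  -- the size of the gain
  set δ : ℝ := 1 / ((a : ℝ) ^ (2 * g) + 4 ^ g) with hδ
  have ha0 : (0 : ℝ) < a := by exact_mod_cast (by omega : 0 < a)
  have hδ2 : 1 / (4 * (2 * (n : ℝ)) ^ (4 * A * G)) ≤ δ ^ 2 := by
    have h4 : (4 : ℝ) ^ g ≤ (a : ℝ) ^ (2 * g) := by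
      rw [pow_mul (a : ℝ) 2 g]
      refine pow_le_pow_left₀ (by norm_num) ?_ _
      have : (3 : ℝ) ≤ a := by exact_mod_cast ha3
      nlinarith
    have h5 : δ ≥ 1 / (2 * (a : ℝ) ^ (2 * g)) := by
      rw [hδ]
      refine one_div_le_one_div_of_le (by positivity) (by linarith)
    have h6 : (1 / (2 * (a : ℝ) ^ (2 * g))) ^ 2 ≤ δ ^ 2 := pow_le_pow_left₀ (by positivity) h5 2
    refine le_trans ?_ h6
    have e0 : (2 * (a : ℝ) ^ (2 * g)) ^ 2 = 4 * (a : ℝ) ^ (4 * g) := by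
      rw [mul_pow, ← pow_mul, show 2 * g * 2 = 4 * g by ring]; norm_num
    rw [div_pow, one_pow, e0]
    refine one_div_le_one_div_of_le (by positivity) ?_
    have h8 : ((a ^ (4 * g) : ℕ) : ℝ) ≤ (((2 * n) ^ (4 * A * G) : ℕ) : ℝ) := by
      exact_mod_cast hag n (by omega)
    push_cast at h8
    linarith
  have hnb : (L : ℝ) / (2 * (n : ℝ) ^ (2 * r + 8)) - 1 ≤ ((L / (2 * B) : ℕ) : ℝ) := by
    have h8 := Nat.lt_div_mul_add (a := L) (b := 2 * B) (by positivity)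
    have h9 : (L : ℝ) < (((L / (2 * B)) * (2 * B) + 2 * B : ℕ) : ℝ) := by exact_mod_cast h8
    push_cast at h9
    have h2 : (B : ℝ) = (n : ℝ) ^ (2 * r + 8) := by rw [hB]; push_cast; ring
    rw [h2] at h9
    have h10 : (0 : ℝ) < 2 * (n : ℝ) ^ (2 * r + 8) := by positivity
    rw [sub_le_iff_le_add, div_le_iff₀ h10]
    linarith
  have hnδ : (n : ℝ) ^ (2 * r + 6) + 2 * n + 4 ≤ ((L / (2 * B) : ℕ) : ℝ) * δ ^ 2 := by
    have h10 : (0 : ℝ) < 2 * (n : ℝ) ^ (2 * r + 8) := by positivity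
    have h11 : ((n : ℝ) ^ (2 * r + 6) + 2 * n + 4) * (4 * (2 * (n : ℝ)) ^ (4 * A * G))
        ≤ (L : ℝ) / (2 * (n : ℝ) ^ (2 * r + 8)) - 1 := by
      rw [le_sub_iff_add_le, le_div_iff₀ h10]
      have h12 : ((2 : ℝ)) ^ n ≤ L := by exact_mod_cast hLge
      linarith
    calc (n : ℝ) ^ (2 * r + 6) + 2 * n + 4 = (((n : ℝ) ^ (2 * r + 6) + 2 * n + 4) * (4 * (2 * (n : ℝ)) ^ (4 * A * G))) *
          (1 / (4 * (2 * (n : ℝ)) ^ (4 * A * G))) := by field_simp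
      _ ≤ ((L / (2 * B) : ℕ) : ℝ) * (1 / (4 * (2 * (n : ℝ)) ^ (4 * A * G))) :=
          mul_le_mul_of_nonneg_right (h11.trans hnb) (by positivity)
      _ ≤ ((L / (2 * B) : ℕ) : ℝ) * δ ^ 2 := mul_le_mul_of_nonneg_left hδ2 (by positivity)
  have hgain : gain a g ^ (L / (2 * B)) ≤ Real.exp (-((n : ℝ) ^ (2 * r + 6) + 2 * n + 4)) := by
    have h12 : gain a g ≤ Real.exp (-δ ^ 2) := by
      have := Real.add_one_le_exp (-δ ^ 2)
      unfold gain
      linarith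
    calc gain a g ^ (L / (2 * B)) ≤ (Real.exp (-δ ^ 2)) ^ (L / (2 * B)) :=
          pow_le_pow_left₀ (gain_nonneg (by omega) _) h12 _
      _ = Real.exp (-(((L / (2 * B) : ℕ) : ℝ) * δ ^ 2)) := by
          rw [← Real.exp_nat_mul]; congr 1; ring
      _ ≤ Real.exp (-((n : ℝ) ^ (2 * r + 6) + 2 * n + 4)) := by
          apply Real.exp_le_exp.2
          linarith
  have hL2 : (L : ℝ) + 1 ≤ Real.exp (2 * n + 4) := by
    have h14 : (2 : ℝ) ≤ Real.exp 1 := by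
      have := Real.add_one_le_exp (1 : ℝ)
      linarith
    have h15 : (L : ℝ) + 1 ≤ 2 ^ (n + 1) := by exact_mod_cast hLle
    calc (L : ℝ) + 1 ≤ 2 ^ (n + 1) := h15
      _ ≤ (Real.exp 1) ^ (n + 1) := pow_le_pow_left₀ (by norm_num) h14 _
      _ = Real.exp (n + 1) := by rw [← Real.exp_nat_mul]; congr 1; push_cast; ring
      _ ≤ Real.exp (2 * n + 4) := Real.exp_le_exp.2 (by linarith)
  calc ((L : ℝ) + 1) * gain a g ^ (L / (2 * B))
      ≤ Real.exp (2 * n + 4) * Real.exp (-((n : ℝ) ^ (2 * r + 6) + 2 * n + 4)) :=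
        mul_le_mul hL2 hgain (pow_nonneg (gain_nonneg (by omega) _) _) (by positivity)
    _ = Real.exp (-(n : ℝ) ^ (2 * r + 6)) := by rw [← Real.exp_add]; congr 1; ring

/-- Equidistribution of the numerators, uniformly in the number of odd letters: large moduli. -/
theorem equi_large {a : ℕ} (ha3 : 3 ≤ a) (hodd : Odd a) (r : ℕ) {ε : ℝ} (hε : 0 < ε) (hε1 : ε ≤ 1 / 2) :
    ∀ᶠ L : ℕ in atTop, ∀ o : ℕ, ε * L ≤ o → (o : ℝ) ≤ (1 - ε) * L → ∀ m, a.Coprime m →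
      a ^ (Nat.log 2 L) ^ (r + 3) ≤ m → ∀ y,
      (cnt a L o m y : ℝ) ≤ L.choose o * Real.exp (-((Nat.log 2 L : ℕ) : ℝ) ^ (r + 2)) := by
  have ev1 : ∀ᶠ n : ℕ in atTop, n ^ (r + 3) ≤ 2 ^ n := by
    have := eventually_poly_le 1 (r + 3)
    filter_upwards [this] with n hn
    rw [one_mul] at hn
    exact_mod_cast hn
  have ev2 : ∀ᶠ n : ℕ in atTop, (n : ℝ) ^ (r + 2) + n + 1 ≤ ε * (n : ℝ) ^ (r + 3) := by
    have h1 := eventually_poly_le' (3 / ε) (r + 2) (r + 3) (by omega)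
    filter_upwards [h1, eventually_ge_atTop 1] with n h1 hn
    have hn1 : (1 : ℝ) ≤ n := by exact_mod_cast hn
    have h2 : (1 : ℝ) ≤ (n : ℝ) ^ (r + 1) := one_le_pow₀ hn1
    have h3 : (n : ℝ) ^ (r + 2) + n + 1 ≤ 3 * (n : ℝ) ^ (r + 2) := by
      have h5 : (n : ℝ) ^ (r + 2) = n * (n : ℝ) ^ (r + 1) := by rw [pow_succ]; ring
      nlinarith
    have h4 : 3 * (n : ℝ) ^ (r + 2) ≤ ε * (n : ℝ) ^ (r + 3) := by
      have h5 : ε * (3 / ε * (n : ℝ) ^ (r + 2)) = 3 * (n : ℝ) ^ (r + 2) := by field_simp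
      rw [← h5]
      exact mul_le_mul_of_nonneg_left h1 hε.le
    linarith
  filter_upwards [tendsto_log2.eventually ev1, tendsto_log2.eventually ev2,
    eventually_ge_atTop 1] with L e1 e2 hL1
  intro o hoε hoε' m hm hmY y
  set n := Nat.log 2 L with hn
  have hLle : L < 2 ^ (n + 1) := Nat.lt_pow_succ_log_self (by norm_num) L
  have hLge : 2 ^ n ≤ L := Nat.pow_log_le_self 2 (by omega)
  have hLr : (0 : ℝ) < L := by exact_mod_cast (by omega : 0 < L)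
  have ho : 0 < o := by
    have : (0 : ℝ) < o := lt_of_lt_of_le (by positivity) hoε
    exact_mod_cast this
  have hoL : o < L := by
    have : (o : ℝ) < L := lt_of_le_of_lt hoε' (by nlinarith)
    exact_mod_cast this
  have hr : ((L - o : ℕ) : ℝ) = L - o := by rw [Nat.cast_sub hoL.le]
  have h1 := fixed_large ha3 hodd hm (l := n ^ (r + 3)) (L := L) (e1.trans hLge) hmY ho hoL y
    (c := 1 - ε) hoε' (by rw [hr]; linarith)
  refine h1.trans (mul_le_mul_of_nonneg_left ?_ (Nat.cast_nonneg _))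
  have h14 : (2 : ℝ) ≤ Real.exp 1 := by
    have := Real.add_one_le_exp (1 : ℝ)
    linarith
  have h15 : (L : ℝ) + 1 ≤ 2 ^ (n + 1) := by exact_mod_cast hLle
  have h16 : (L : ℝ) + 1 ≤ Real.exp (n + 1) := by
    calc (L : ℝ) + 1 ≤ 2 ^ (n + 1) := h15
      _ ≤ (Real.exp 1) ^ (n + 1) := pow_le_pow_left₀ (by norm_num) h14 _
      _ = Real.exp (n + 1) := by rw [← Real.exp_nat_mul]; congr 1; push_cast; ring
  have h17 : (1 - ε) ^ n ^ (r + 3) ≤ Real.exp (-(ε * (n : ℝ) ^ (r + 3))) := by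
    have h18 : 1 - ε ≤ Real.exp (-ε) := by
      have := Real.add_one_le_exp (-ε)
      linarith
    calc (1 - ε) ^ n ^ (r + 3) ≤ (Real.exp (-ε)) ^ n ^ (r + 3) := pow_le_pow_left₀ (by linarith) h18 _
      _ = Real.exp (-(ε * (n : ℝ) ^ (r + 3))) := by
          rw [← Real.exp_nat_mul]; congr 1; push_cast; ring
  calc ((L : ℝ) + 1) * (1 - ε) ^ n ^ (r + 3) ≤ Real.exp (n + 1) * Real.exp (-(ε * (n : ℝ) ^ (r + 3))) :=
        mul_le_mul h16 h17 (pow_nonneg (by linarith) _) (by positivity)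
    _ = Real.exp (n + 1 - ε * (n : ℝ) ^ (r + 3)) := by rw [← Real.exp_add]; congr 1
    _ ≤ Real.exp (-(n : ℝ) ^ (r + 2)) := Real.exp_le_exp.2 (by linarith)

end Pool.Agent.W5h45.RC
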