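import Mathlib

/-! Words in two letters and the numerators of rational cycles. -/

namespace Pool.Agent.W5h45.RC
open Finset

/-- The words of length `L` in the letters `false`, `true`. -/
def Wd : ℕ → Finset (List Bool)
  | 0 => {[]}
  | L + 1 => (Wd L).image (List.cons false) ∪ (Wd L).image (List.cons true)

lemma mem_Wd {L : ℕ} {w : List Bool} : w ∈ Wd L ↔ w.length = L := by
  induction L generalizing w with
  | zero => simp [Wd, List.length_eq_zero_iff]
  | succ L ih =>
    simp only [Wd, mem_union, mem_image, ih]
    constructor
    · rintro (⟨v, hv, rfl⟩ | ⟨v, hv, rfl⟩) <;> simp [hv]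
    · intro h
      cases w with
      | nil => simp at h
      | cons b v =>
        cases b
        · left; exact ⟨v, by simpa using h, rfl⟩
        · right; exact ⟨v, by simpa using h, rfl⟩

lemma sum_Wd_succ {M : Type*} [AddCommMonoid M] (L : ℕ) (f : List Bool → M) :
    ∑ w ∈ Wd (L + 1), f w = ∑ w ∈ Wd L, f (false :: w) + ∑ w ∈ Wd L, f (true :: w) := by
  have hd : Disjoint ((Wd L).image (List.cons false)) ((Wd L).image (List.cons true)) := by
    rw [Finset.disjoint_left]
    intro w h1 h2
    simp only [mem_image] at h1 h2
    obtain ⟨u, _, rfl⟩ := h1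
    obtain ⟨v, _, hv⟩ := h2
    simp at hv
  rw [Wd, sum_union hd, sum_image, sum_image]
  · intro x _ y _ h
    simpa using h
  · intro x _ y _ h
    simpa using h

lemma sum_Wd_zero {M : Type*} [AddCommMonoid M] (f : List Bool → M) :
    ∑ w ∈ Wd 0, f w = f [] := by simp [Wd]

lemma card_Wd (L : ℕ) : (Wd L).card = 2 ^ L := by
  induction L with
  | zero => simp [Wd]
  | succ L ih =>
    rw [Finset.card_eq_sum_ones, sum_Wd_succ, ← Finset.card_eq_sum_ones, ih]
    ring

lemma sum_Wd_add {M : Type*} [AddCommMonoid M] (m n : ℕ) (f : List Bool → M) :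
    ∑ w ∈ Wd (m + n), f w = ∑ u ∈ Wd m, ∑ v ∈ Wd n, f (u ++ v) := by
  induction m generalizing f with
  | zero => simp [sum_Wd_zero]
  | succ m ih =>
    rw [show m + 1 + n = (m + n) + 1 by ring, sum_Wd_succ, ih, ih, sum_Wd_succ]
    simp

/-- The number of letters `true` of a word. -/
def on (w : List Bool) : ℕ := w.count true

@[simp] lemma on_nil : on [] = 0 := rfl
@[simp] lemma on_false (w : List Bool) : on (false :: w) = on w := by simp [on]
@[simp] lemma on_true (w : List Bool) : on (true :: w) = on w + 1 := by simp [on]
@[simp] lemma on_append (u v : List Bool) : on (u ++ v) = on u + on v := by simp [on]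

lemma on_le (w : List Bool) : on w ≤ w.length := List.count_le_length

lemma on_eq_zero {w : List Bool} (h : on w = 0) : w = List.replicate w.length false := by
  induction w with
  | nil => rfl
  | cons b w ih =>
    cases b
    · simp at h
      rw [List.length_cons, List.replicate_succ, ← ih h]
    · simp at h

/-- The number of words of length `L` with `o` letters `true` is the binomial coefficient. -/
lemma card_on (L o : ℕ) : ((Wd L).filter (fun w => on w = o)).card = L.choose o := by
  induction L generalizing o with
  | zero =>
    cases o with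
    | zero => simp [Wd, Finset.filter_singleton]
    | succ o => simp [Wd, Finset.filter_singleton]
  | succ L ih =>
    rw [Finset.card_eq_sum_ones, sum_filter, sum_Wd_succ]
    simp only [on_false, on_true]
    rw [← sum_filter, ← Finset.card_eq_sum_ones, ih]
    cases o with
    | zero => simp
    | succ o =>
      simp only [add_left_inj]
      rw [← sum_filter, ← Finset.card_eq_sum_ones, ih, Nat.choose_succ_succ, add_comm]

/-- The numerator attached to a word. -/
def cw (a : ℕ) : List Bool → ℕ
  | [] => 0
  | b :: w => (if b then a ^ (on w) else 0) + 2 * cw a w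

@[simp] lemma cw_nil (a : ℕ) : cw a [] = 0 := rfl
@[simp] lemma cw_false (a : ℕ) (w : List Bool) : cw a (false :: w) = 2 * cw a w := by simp [cw]
@[simp] lemma cw_true (a : ℕ) (w : List Bool) : cw a (true :: w) = a ^ (on w) + 2 * cw a w := by
  simp [cw]

lemma cw_append (a : ℕ) (u v : List Bool) :
    cw a (u ++ v) = a ^ (on v) * cw a u + 2 ^ u.length * cw a v := by
  induction u with
  | nil => simp
  | cons b u ih =>
    cases b
    · simp only [List.cons_append, cw_false, List.length_cons, ih]
      ring
    · simp only [List.cons_append, cw_true, List.length_cons, ih, on_append]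
      ring

lemma cw_lt {a : ℕ} (ha : 3 ≤ a) (w : List Bool) : cw a w < a ^ w.length := by
  induction w with
  | nil => simp
  | cons b w ih =>
    have h1 : a ^ on w ≤ a ^ w.length := Nat.pow_le_pow_right (by omega) (on_le w)
    have h2 : 3 * a ^ w.length ≤ a ^ (w.length + 1) := by
      rw [pow_succ, mul_comm]; exact Nat.mul_le_mul_left _ ha
    cases b
    · simp only [cw_false, List.length_cons]; omega
    · simp only [cw_true, List.length_cons]; omega

lemma cw_inj {a : ℕ} (ha : Odd a) {u v : List Bool} (hl : u.length = v.length)
    (ho : on u = on v) (hc : cw a u = cw a v) : u = v := by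
  induction u generalizing v with
  | nil =>
    simp at hl
    exact (List.length_eq_zero_iff.1 hl.symm).symm
  | cons b u ih =>
    cases v with
    | nil => simp at hl
    | cons b' v =>
      have hpu : Odd (a ^ on u) := ha.pow
      have hpv : Odd (a ^ on v) := ha.pow
      rw [Nat.odd_iff] at hpu hpv
      cases b <;> cases b' <;> simp only [on_false, on_true, cw_false, cw_true,
        List.length_cons] at hl ho hc
      · rw [ih (by omega) ho (by omega)]
      · omega
      · omega
      · have ho' : on u = on v := by omega
        rw [ho'] at hc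
        rw [ih (by omega) ho' (by omega)]

/-- Large moduli: few words of given length and number of odd letters have numerators in a given
class. -/
lemma large_moduli {a : ℕ} (ha : 3 ≤ a) (hodd : Odd a) {m : ℕ} (hm : Nat.Coprime a m)
    {l L : ℕ} (hl : l ≤ L) (hal : a ^ l ≤ m) (o y : ℕ) :
    ((Wd L).filter (fun w => on w = o ∧ cw a w ≡ y [MOD m])).card ≤ 2 ^ (L - l) := by
  rw [← card_Wd (L - l)]
  refine Finset.card_le_card_of_injOn (fun w => w.drop l) ?_ ?_
  · intro w hw
    simp only [coe_filter, Set.mem_ofPred_eq, mem_Wd] at hw
    simp only [mem_coe, mem_Wd, List.length_drop]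
    omega
  · intro w hw w' hw' h
    simp only [coe_filter, Set.mem_ofPred_eq, mem_Wd] at hw hw'
    simp only at h
    obtain ⟨h1, h2, h3⟩ := hw
    obtain ⟨h1', h2', h3'⟩ := hw'
    rw [← List.take_append_drop l w] at h2 h3 ⊢
    rw [← List.take_append_drop l w'] at h2' h3' ⊢
    rw [h] at h2 h3 ⊢
    have hlu : (w.take l).length = l := by simp; omega
    have hlu' : (w'.take l).length = l := by simp; omega
    generalize w.take l = u at *
    generalize w'.take l = u' at *
    generalize w'.drop l = v at *
    rw [on_append] at h2 h2'
    rw [cw_append] at h3 h3'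
    have h4 : a ^ on v * cw a u ≡ a ^ on v * cw a u' [MOD m] := by
      have h5 := h3.trans h3'.symm
      rw [hlu, hlu'] at h5
      exact Nat.ModEq.add_right_cancel' _ h5
    have h6 : cw a u ≡ cw a u' [MOD m] := by
      refine Nat.ModEq.cancel_left_of_coprime ?_ h4
      rw [Nat.coprime_iff_gcd_eq_one.symm]
      exact (hm.pow_left _).symm
    have h7 : cw a u = cw a u' := by
      have h8 : cw a u < m := lt_of_lt_of_le (by rw [← hlu]; exact cw_lt ha u) hal
      have h9 : cw a u' < m := lt_of_lt_of_le (by rw [← hlu']; exact cw_lt ha u') hal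
      exact Nat.ModEq.eq_of_lt_of_lt h6 h8 h9
    rw [cw_inj hodd (hlu.trans hlu'.symm) (by omega) h7]

end Pool.Agent.W5h45.RC
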