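import Pool.Agent.W5h45.RC.W1

/-! Exponential sums over the numerators: submultiplicativity and the bound by products of
cosines. -/

namespace Pool.Agent.W5h45.RC
open Finset

/-- `ex x = e^{2 π i x}`. -/
noncomputable def ex (x : ℝ) : ℂ := Complex.exp (((2 * Real.pi * x : ℝ) : ℂ) * Complex.I)

lemma ex_add (x y : ℝ) : ex (x + y) = ex x * ex y := by
  unfold ex
  rw [← Complex.exp_add]
  congr 1
  push_cast
  ring

@[simp] lemma norm_ex (x : ℝ) : ‖ex x‖ = 1 := Complex.norm_exp_ofReal_mul_I _

@[simp] lemma ex_zero : ex 0 = 1 := by simp [ex]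

lemma ex_int (n : ℤ) : ex n = 1 := by
  unfold ex
  have : (((2 * Real.pi * (n : ℝ) : ℝ) : ℂ) * Complex.I) = n * (2 * Real.pi * Complex.I) := by
    push_cast; ring
  rw [this, Complex.exp_int_mul_two_pi_mul_I]

lemma norm_ex_add (x : ℝ) : ‖ex x + ex (2 * x)‖ = 2 * |Real.cos (Real.pi * x)| := by
  have h : ex x + ex (2 * x) = ex (3 * x / 2) * ((2 * Real.cos (Real.pi * x) : ℝ) : ℂ) := by
    have h1 : ex x = ex (3 * x / 2) * ex (- (x / 2)) := by rw [← ex_add]; congr 1; ring
    have h2 : ex (2 * x) = ex (3 * x / 2) * ex (x / 2) := by rw [← ex_add]; congr 1; ring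
    rw [h1, h2, ← mul_add]
    congr 1
    unfold ex
    push_cast
    rw [Complex.two_cos]
    rw [add_comm]
    congr 1
    · congr 1; ring
    · congr 1; ring
  rw [h, norm_mul, norm_ex, one_mul, Complex.norm_real, Real.norm_eq_abs, abs_mul, abs_two]

/-- The exponential sum over the words of length `L` with `o` letters `true`. -/
noncomputable def E (a L o : ℕ) (t : ℝ) : ℂ :=
  ∑ w ∈ Wd L, if on w = o then ex (t * cw a w) else 0

lemma E_of_lt {a L o : ℕ} (h : L < o) (t : ℝ) : E a L o t = 0 := by
  unfold E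
  refine Finset.sum_eq_zero fun w hw => ?_
  rw [mem_Wd] at hw
  rw [if_neg]
  have := on_le w
  omega

/-- The sum of the absolute values of the exponential sums. -/
noncomputable def M (a L : ℕ) (t : ℝ) : ℝ := ∑ o ∈ range (L + 1), ‖E a L o t‖

lemma M_nonneg (a L : ℕ) (t : ℝ) : 0 ≤ M a L t := sum_nonneg fun _ _ => norm_nonneg _

lemma M_eq {a L K : ℕ} (h : L + 1 ≤ K) (t : ℝ) : ∑ o ∈ range K, ‖E a L o t‖ = M a L t := by
  unfold M
  symm
  refine Finset.sum_subset (by intro x; simp only [mem_range]; omega) ?_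
  intro o _ ho
  rw [mem_range] at ho
  rw [E_of_lt (by omega), norm_zero]

lemma E_add (a m n o : ℕ) (t : ℝ) :
    E a (m + n) o t = ∑ o' ∈ range (n + 1), if o' ≤ o then
      E a n o' (2 ^ m * t) * E a m (o - o') (t * a ^ o') else 0 := by
  have h1 : E a (m + n) o t = ∑ v ∈ Wd n, ∑ u ∈ Wd m,
      if on u + on v = o then ex (2 ^ m * t * cw a v) * ex (t * a ^ (on v) * cw a u) else 0 := by
    unfold E
    rw [sum_Wd_add, sum_comm]
    refine sum_congr rfl fun v hv => sum_congr rfl fun u hu => ?_
    rw [mem_Wd] at hu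
    rw [on_append]
    congr 1
    rw [← ex_add, cw_append, hu]
    congr 1
    push_cast
    ring
  have h2 : ∀ v ∈ Wd n, (∑ u ∈ Wd m,
      if on u + on v = o then ex (2 ^ m * t * cw a v) * ex (t * a ^ (on v) * cw a u) else 0)
      = ∑ o' ∈ range (n + 1), if on v = o' then (if o' ≤ o then
        ex (2 ^ m * t * cw a v) * E a m (o - o') (t * a ^ o') else 0) else 0 := by
    intro v hv
    rw [mem_Wd] at hv
    have hov := on_le v
    rw [Finset.sum_ite_eq, if_pos (by rw [mem_range]; omega)]
    by_cases h : on v ≤ o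
    · rw [if_pos h]
      unfold E
      rw [mul_sum]
      refine sum_congr rfl fun u _ => ?_
      rw [mul_ite, mul_zero]
      refine if_congr ?_ rfl rfl
      omega
    · rw [if_neg h]
      refine sum_eq_zero fun u _ => ?_
      rw [if_neg (by omega)]
  rw [h1, sum_congr rfl h2, sum_comm]
  refine sum_congr rfl fun o' _ => ?_
  by_cases h : o' ≤ o
  · simp only [if_pos h]
    conv_rhs => rw [E, sum_mul]
    refine sum_congr rfl fun v _ => ?_
    rw [ite_mul, zero_mul]
  · simp only [if_neg h]
    simp

lemma M_add_le (a m n : ℕ) (t : ℝ) :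
    M a (m + n) t ≤ ∑ o' ∈ range (n + 1), ‖E a n o' (2 ^ m * t)‖ * M a m (t * a ^ o') := by
  have h1 : ∀ o, ‖E a (m + n) o t‖ ≤ ∑ o' ∈ range (n + 1), if o' ≤ o then
      ‖E a n o' (2 ^ m * t)‖ * ‖E a m (o - o') (t * a ^ o')‖ else 0 := by
    intro o
    rw [E_add]
    refine (norm_sum_le _ _).trans (le_of_eq (sum_congr rfl fun o' _ => ?_))
    split_ifs
    · rw [norm_mul]
    · rw [norm_zero]
  unfold M
  refine (sum_le_sum fun o _ => h1 o).trans ?_
  rw [sum_comm]
  refine sum_le_sum fun o' ho' => ?_
  rw [mem_range] at ho'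
  rw [← sum_filter, ← mul_sum]
  refine mul_le_mul_of_nonneg_left ?_ (norm_nonneg _)
  have h2 : (range (m + n + 1)).filter (fun o => o' ≤ o) = Ico o' (m + n + 1) := by
    ext x; simp; omega
  rw [h2, Finset.sum_Ico_eq_sum_range]
  simp only [Nat.add_sub_cancel_left]
  rw [M_eq (by omega)]
  exact le_rfl

/-- The product of cosines attached to a word (read in pairs of letters). -/
noncomputable def KK (a : ℕ) : List Bool → ℝ → ℝ
  | b :: b' :: w, t => (if b = b' then 1 else |Real.cos (Real.pi * (t * a ^ (on w)))|) * KK a w (4 * t)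
  | _, _ => 1

lemma KK_nonneg (a : ℕ) (B : ℕ) : ∀ w ∈ Wd (2 * B), ∀ t, 0 ≤ KK a w t := by
  induction B with
  | zero => intro w hw t; simp [Wd] at hw; subst hw; simp [KK]
  | succ B ih =>
    intro w hw t
    rw [mem_Wd] at hw
    match w, hw with
    | b :: b' :: w, hw =>
      rw [KK]
      refine mul_nonneg ?_ (ih w (by rw [mem_Wd]; simp at hw; omega) _)
      split_ifs
      · exact zero_le_one
      · exact abs_nonneg _

lemma KK_le_one (a : ℕ) (B : ℕ) : ∀ w ∈ Wd (2 * B), ∀ t, KK a w t ≤ 1 := by
  induction B with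
  | zero => intro w hw t; simp [Wd] at hw; subst hw; simp [KK]
  | succ B ih =>
    intro w hw t
    rw [mem_Wd] at hw
    match w, hw with
    | b :: b' :: w, hw =>
      rw [KK]
      have hw' : w ∈ Wd (2 * B) := by rw [mem_Wd]; simp at hw; omega
      refine mul_le_one₀ ?_ (KK_nonneg a B w hw' _) (ih w hw' _)
      split_ifs
      · exact le_rfl
      · exact Real.abs_cos_le_one _

lemma norm_E_le (a : ℕ) (B : ℕ) : ∀ (o : ℕ) (t : ℝ),
    ‖E a (2 * B) o t‖ ≤ ∑ w ∈ Wd (2 * B), if on w = o then KK a w t else 0 := by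
  induction B with
  | zero =>
    intro o t
    simp only [E, Nat.mul_zero, sum_Wd_zero, on_nil]
    by_cases h : 0 = o
    · simp [h, KK]
    · simp [h]
  | succ B ih =>
    intro o t
    have hE : E a (2 * (B + 1)) o t = (∑ w ∈ Wd (2 * B), if on w = o then ex (4 * t * cw a w) else 0)
        + (∑ w ∈ Wd (2 * B), if on w + 1 = o then
            (ex (t * a ^ on w) + ex (2 * (t * a ^ on w))) * ex (4 * t * cw a w) else 0)
        + (∑ w ∈ Wd (2 * B), if on w + 2 = o then
            ex (t * (a ^ (on w + 1) + 2 * a ^ on w)) * ex (4 * t * cw a w) else 0) := by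
      rw [E, show 2 * (B + 1) = 2 * B + 1 + 1 by ring, sum_Wd_succ, sum_Wd_succ, sum_Wd_succ,
        ← sum_add_distrib, ← sum_add_distrib, ← sum_add_distrib, ← sum_add_distrib,
        ← sum_add_distrib]
      refine sum_congr rfl fun w _ => ?_
      simp only [on_false, on_true, cw_false, cw_true]
      have e1 : (if on w = o then ex (t * ((2 * (2 * cw a w) : ℕ) : ℝ)) else 0)
          = (if on w = o then ex (4 * t * cw a w) else 0) := by
        congr 2; push_cast; ring
      have e2 : (if on w + 1 = o then ex (t * ((2 * (a ^ on w + 2 * cw a w) : ℕ) : ℝ)) else 0)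
          = (if on w + 1 = o then ex (2 * (t * a ^ on w)) * ex (4 * t * cw a w) else 0) := by
        rw [← ex_add]; congr 2; push_cast; ring
      have e3 : (if on w + 1 = o then ex (t * ((a ^ on w + 2 * (2 * cw a w) : ℕ) : ℝ)) else 0)
          = (if on w + 1 = o then ex (t * a ^ on w) * ex (4 * t * cw a w) else 0) := by
        rw [← ex_add]; congr 2; push_cast; ring
      have e4 : (if on w + 1 + 1 = o then
          ex (t * ((a ^ (on w + 1) + 2 * (a ^ on w + 2 * cw a w) : ℕ) : ℝ)) else 0)
          = (if on w + 2 = o then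
            ex (t * (a ^ (on w + 1) + 2 * a ^ on w)) * ex (4 * t * cw a w) else 0) := by
        rw [← ex_add]; congr 2; push_cast; ring
      rw [e1, e2, e3, e4]
      split_ifs <;> ring
    have hK : (∑ w ∈ Wd (2 * (B + 1)), if on w = o then KK a w t else 0)
        = (∑ w ∈ Wd (2 * B), if on w = o then KK a w (4 * t) else 0)
        + (∑ w ∈ Wd (2 * B), if on w + 1 = o then
            (2 * |Real.cos (Real.pi * (t * a ^ on w))|) * KK a w (4 * t) else 0)
        + (∑ w ∈ Wd (2 * B), if on w + 2 = o then KK a w (4 * t) else 0) := by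
      rw [show 2 * (B + 1) = 2 * B + 1 + 1 by ring, sum_Wd_succ, sum_Wd_succ, sum_Wd_succ,
        ← sum_add_distrib, ← sum_add_distrib, ← sum_add_distrib, ← sum_add_distrib,
        ← sum_add_distrib]
      refine sum_congr rfl fun w _ => ?_
      simp only [on_false, on_true, KK]
      simp only [if_true, one_mul, Bool.false_eq_true, Bool.true_eq_false, if_false]
      rw [show on w + 1 + 1 = on w + 2 from rfl]
      split_ifs <;> ring
    rw [hE, hK]
    refine (norm_add_le _ _).trans (add_le_add ((norm_add_le _ _).trans (add_le_add ?_ ?_)) ?_)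
    · exact ih o (4 * t)
    · cases o with
      | zero => simp
      | succ o =>
        simp only [add_left_inj]
        have e1 : (∑ w ∈ Wd (2 * B), if on w = o then
            (ex (t * a ^ on w) + ex (2 * (t * a ^ on w))) * ex (4 * t * cw a w) else 0)
            = (ex (t * a ^ o) + ex (2 * (t * a ^ o))) * E a (2 * B) o (4 * t) := by
          rw [E, mul_sum]
          refine sum_congr rfl fun w _ => ?_
          split_ifs with h
          · rw [h]
          · simp
        have e2 : (∑ w ∈ Wd (2 * B), if on w = o then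
            (2 * |Real.cos (Real.pi * (t * a ^ on w))|) * KK a w (4 * t) else 0)
            = (2 * |Real.cos (Real.pi * (t * a ^ o))|) *
              ∑ w ∈ Wd (2 * B), if on w = o then KK a w (4 * t) else 0 := by
          rw [mul_sum]
          refine sum_congr rfl fun w _ => ?_
          split_ifs with h
          · rw [h]
          · simp
        rw [e1, e2, norm_mul, norm_ex_add]
        exact mul_le_mul_of_nonneg_left (ih o (4 * t)) (by positivity)
    · match o with
      | 0 => simp
      | 1 =>
        have : ∀ w : List Bool, ¬ (on w + 2 = 1) := fun w => by omega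
        simp [this]
      | o + 2 =>
        simp only [add_left_inj]
        have e1 : (∑ w ∈ Wd (2 * B), if on w = o then
            ex (t * (a ^ (on w + 1) + 2 * a ^ on w)) * ex (4 * t * cw a w) else 0)
            = ex (t * (a ^ (o + 1) + 2 * a ^ o)) * E a (2 * B) o (4 * t) := by
          rw [E, mul_sum]
          refine sum_congr rfl fun w _ => ?_
          split_ifs with h
          · rw [h]
          · simp
        rw [e1, norm_mul, norm_ex, one_mul]
        exact ih o (4 * t)

lemma M_le_sum_KK (a B : ℕ) (t : ℝ) : M a (2 * B) t ≤ ∑ w ∈ Wd (2 * B), KK a w t := by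
  unfold M
  refine (sum_le_sum fun o _ => norm_E_le a B o t).trans (le_of_eq ?_)
  rw [sum_comm]
  refine sum_congr rfl fun w hw => ?_
  rw [mem_Wd] at hw
  rw [sum_ite_eq, if_pos]
  rw [mem_range]
  have := on_le w
  omega

end Pool.Agent.W5h45.RC
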