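import Pool.Agent.W5h45.RC.W2

/-! The block lemma: for a rational frequency with small denominator the sum over a block of
letters is smaller than the trivial bound by a constant factor. -/

namespace Pool.Agent.W5h45.RC
open Finset

/-- The number of letters `true` in the `i`-th pair of letters of a word. -/
def sp : List Bool → ℕ → ℕ
  | b :: b' :: _, 0 => b.toNat + b'.toNat
  | _ :: _ :: w, i + 1 => sp w i
  | _, _ => 0

lemma sp_le (w : List Bool) (i : ℕ) : sp w i ≤ 2 := by
  induction i generalizing w with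
  | zero =>
    match w with
    | [] => simp [sp]
    | [_] => simp [sp]
    | b :: b' :: w => cases b <;> cases b' <;> simp [sp]
  | succ i ih =>
    match w with
    | [] => simp [sp]
    | [_] => simp [sp]
    | b :: b' :: w => simpa [sp] using ih w

lemma on_cons_cons (b b' : Bool) (w : List Bool) :
    on (b :: b' :: w) = b.toNat + b'.toNat + on w := by
  cases b <;> cases b' <;> simp <;> ring

lemma sum_sp (B : ℕ) : ∀ w ∈ Wd (2 * B), ∑ i ∈ range B, sp w i = on w := by
  induction B with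
  | zero => intro w hw; simp [Wd] at hw; subst hw; simp
  | succ B ih =>
    intro w hw
    rw [mem_Wd] at hw
    match w, hw with
    | b :: b' :: w, hw =>
      have hw' : w ∈ Wd (2 * B) := by rw [mem_Wd]; simp at hw; omega
      rw [Finset.sum_range_succ', on_cons_cons, ← ih w hw']
      simp only [sp]
      ring

lemma KK_le_cos (a B : ℕ) : ∀ w ∈ Wd (2 * B), ∀ (t : ℝ) (i : ℕ), i < B → sp w i = 1 →
    KK a w t ≤ |Real.cos (Real.pi * (t * 4 ^ i * a ^ (∑ k ∈ Ico (i + 1) B, sp w k)))| := by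
  induction B with
  | zero => intro w _ t i hi; omega
  | succ B ih =>
    intro w hw t i hi hs
    rw [mem_Wd] at hw
    match w, hw, hs with
    | b :: b' :: w, hw, hs =>
      have hw' : w ∈ Wd (2 * B) := by rw [mem_Wd]; simp at hw; omega
      rw [KK]
      cases i with
      | zero =>
        have hne : b ≠ b' := by
          cases b <;> cases b' <;> simp [sp] at hs ⊢
        rw [if_neg hne]
        have hsum : ∑ k ∈ Ico (0 + 1) (B + 1), sp (b :: b' :: w) k = on w := by
          rw [← sum_sp B w hw', ← Finset.sum_Ico_add' (fun k => sp (b :: b' :: w) k) 0 B 1]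
          rw [Finset.range_eq_Ico]
          rfl
        rw [hsum, pow_zero, mul_one]
        exact mul_le_of_le_one_right (abs_nonneg _) (KK_le_one a B w hw' _)
      | succ i =>
        have hs' : sp w i = 1 := hs
        have h1 := ih w hw' (4 * t) i (by omega) hs'
        have hsum : ∑ k ∈ Ico (i + 1 + 1) (B + 1), sp (b :: b' :: w) k
            = ∑ k ∈ Ico (i + 1) B, sp w k := by
          rw [← Finset.sum_Ico_add' (fun k => sp (b :: b' :: w) k) (i + 1) B 1]
          rfl
        rw [hsum]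
        have h2 : t * 4 ^ (i + 1) * (a : ℝ) ^ (∑ k ∈ Ico (i + 1) B, sp w k)
            = 4 * t * 4 ^ i * (a : ℝ) ^ (∑ k ∈ Ico (i + 1) B, sp w k) := by ring
        rw [h2]
        refine le_trans ?_ h1
        refine mul_le_of_le_one_left (KK_nonneg a B w hw' _) ?_
        split_ifs
        · exact le_rfl
        · exact Real.abs_cos_le_one _

/-- Summation of a product over the pairs of letters. -/
lemma sum_prod_sp (B : ℕ) (f : ℕ → ℕ → ℝ) :
    ∑ w ∈ Wd (2 * B), ∏ i ∈ range B, f i (sp w i) = ∏ i ∈ range B, (f i 0 + 2 * f i 1 + f i 2) := by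
  induction B generalizing f with
  | zero => simp [card_Wd]
  | succ B ih =>
    rw [show 2 * (B + 1) = 2 * B + 1 + 1 by ring, sum_Wd_succ, sum_Wd_succ, sum_Wd_succ]
    simp only [Finset.prod_range_succ']
    have h : ∀ b b' : Bool, ∑ w ∈ Wd (2 * B), ((∏ i ∈ range B, f (i + 1) (sp (b :: b' :: w) (i + 1)))
        * f 0 (sp (b :: b' :: w) 0))
        = (∏ i ∈ range B, (f (i + 1) 0 + 2 * f (i + 1) 1 + f (i + 1) 2)) * f 0 (b.toNat + b'.toNat) := by
      intro b b'
      rw [← ih (fun i => f (i + 1)), sum_mul]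
      rfl
    rw [h, h, h, h]
    simp only [Bool.toNat_false, Bool.toNat_true]
    norm_num
    ring

/-- The number of words with no mixed pair in a window. -/
lemma card_window {B g i : ℕ} (h : i + g ≤ B) :
    (((Wd (2 * B)).filter (fun w => ∀ j, i ≤ j → j < i + g → sp w j ≠ 1)).card : ℝ) * 2 ^ g
      = 4 ^ B := by
  have h1 : (((Wd (2 * B)).filter (fun w => ∀ j, i ≤ j → j < i + g → sp w j ≠ 1)).card : ℝ)
      = ∑ w ∈ Wd (2 * B), ∏ j ∈ range B,
          (fun j x => if (i ≤ j ∧ j < i + g) ∧ x = 1 then (0 : ℝ) else 1) j (sp w j) := by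
    rw [Finset.card_eq_sum_ones, Nat.cast_sum, sum_filter]
    refine sum_congr rfl fun w _ => ?_
    by_cases hw : ∀ j, i ≤ j → j < i + g → sp w j ≠ 1
    · rw [if_pos hw]
      symm
      rw [Nat.cast_one]
      refine prod_eq_one fun j _ => ?_
      simp only
      rw [if_neg]
      rintro ⟨⟨h1, h2⟩, h3⟩
      exact hw j h1 h2 h3
    · rw [if_neg hw]
      push Not at hw
      obtain ⟨j, h1, h2, h3⟩ := hw
      symm
      refine prod_eq_zero (i := j) (by rw [mem_range]; omega) ?_
      simp only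
      rw [if_pos ⟨⟨h1, h2⟩, h3⟩]
  rw [h1.trans (sum_prod_sp B (fun j x => if (i ≤ j ∧ j < i + g) ∧ x = 1 then (0 : ℝ) else 1))]
  have h2 : ∀ j ∈ range B, ((fun j x => if (i ≤ j ∧ j < i + g) ∧ x = 1 then (0 : ℝ) else 1) j 0
      + 2 * (fun j x => if (i ≤ j ∧ j < i + g) ∧ x = 1 then (0 : ℝ) else 1) j 1
      + (fun j x => if (i ≤ j ∧ j < i + g) ∧ x = 1 then (0 : ℝ) else 1) j 2)
      = 4 * (if (i ≤ j ∧ j < i + g) then (1 / 2 : ℝ) else 1) := by
    intro j _
    simp only
    by_cases hj : i ≤ j ∧ j < i + g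
    · simp [hj]; norm_num
    · simp [hj]; norm_num
  rw [prod_congr rfl h2, prod_mul_distrib, prod_const, card_range]
  have h3 : ∏ j ∈ range B, (if (i ≤ j ∧ j < i + g) then (1 / 2 : ℝ) else 1) = (1 / 2) ^ g := by
    rw [← prod_filter]
    have : (range B).filter (fun j => i ≤ j ∧ j < i + g) = Ico i (i + g) := by
      ext x; simp; omega
    rw [this, prod_const, Nat.card_Ico]
    congr 1
    omega
  rw [h3, mul_assoc, ← mul_pow]
  norm_num

lemma sum_pow_on (z : ℝ) (n : ℕ) : ∑ w ∈ Wd n, z ^ on w = (1 + z) ^ n := by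
  induction n with
  | zero => simp [sum_Wd_zero]
  | succ n ih =>
    rw [sum_Wd_succ]
    simp only [on_false, on_true, pow_succ, ← sum_mul, ih]
    ring

lemma card_many {n T : ℕ} {z : ℝ} (hz : 1 ≤ z) :
    (((Wd n).filter (fun w => T < on w)).card : ℝ) * z ^ T ≤ (1 + z) ^ n := by
  rw [← sum_pow_on z n, Finset.card_eq_sum_ones, Nat.cast_sum, sum_mul]
  refine (sum_le_sum (g := fun w => z ^ on w) ?_).trans
    (sum_le_sum_of_subset_of_nonneg (filter_subset _ _) (fun w _ _ => by positivity))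
  intro w hw
  rw [mem_filter] at hw
  simp only [Nat.cast_one, one_mul]
  exact pow_le_pow_right₀ hz hw.2.le

lemma card_few {n T : ℕ} {z : ℝ} (hz : z ≤ 1) (hz0 : 0 < z) :
    (((Wd n).filter (fun w => on w < T)).card : ℝ) * z ^ T ≤ (1 + z) ^ n := by
  rw [← sum_pow_on z n, Finset.card_eq_sum_ones, Nat.cast_sum, sum_mul]
  refine (sum_le_sum (g := fun w => z ^ on w) ?_).trans
    (sum_le_sum_of_subset_of_nonneg (filter_subset _ _) (fun w _ _ => by positivity))
  intro w hw
  rw [mem_filter] at hw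
  simp only [Nat.cast_one, one_mul]
  exact pow_le_pow_of_le_one hz0.le hz hw.2.le

/-- The chain argument. -/
lemma chain {a B g : ℕ} (ha : 1 ≤ a) {s : ℕ → ℕ} (hs : ∀ i, s i ≤ 2) {θ e : ℕ → ℝ} {n : ℕ → ℤ}
    {δ : ℝ} (hδ : δ * ((a : ℝ) ^ (2 * g) + 4 ^ g) ≤ 1)
    (hθ : ∀ i, i < B → s i = 1 → θ i = n i + e i)
    (he : ∀ i, i < B → s i = 1 → |e i| < δ)
    (hθ2 : ∀ i d, i + d < B → 4 ^ d * θ i = (a : ℝ) ^ (∑ k ∈ Ico (i + 1) (i + d + 1), s k) * θ (i + d))
    (hwin : ∀ i, i + g ≤ B → ∃ j, i ≤ j ∧ j < i + g ∧ s j = 1) :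
    ∀ d i, s i = 1 → i + d < B → s (i + d) = 1 →
      4 ^ d * e i = (a : ℝ) ^ (∑ k ∈ Ico (i + 1) (i + d + 1), s k) * e (i + d) := by
  intro d
  induction d using Nat.strong_induction_on with
  | _ d ih =>
  intro i hi hid hsd
  by_cases hdg : d ≤ g
  · set R := ∑ k ∈ Ico (i + 1) (i + d + 1), s k with hR
    have hRle : R ≤ 2 * g := by
      have : R ≤ ∑ k ∈ Ico (i + 1) (i + d + 1), 2 := sum_le_sum fun k _ => hs k
      rw [sum_const, Nat.card_Ico] at this
      have h2 : (i + d + 1 - (i + 1)) = d := by omega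
      rw [h2] at this
      simp at this
      omega
    have h1 : 4 ^ d * e i - (a : ℝ) ^ R * e (i + d)
        = (((a : ℤ) ^ R * n (i + d) - 4 ^ d * n i : ℤ) : ℝ) := by
      have h2 := hθ2 i d hid
      rw [hθ i (by omega) hi, hθ (i + d) hid hsd, ← hR] at h2
      push_cast
      linarith
    have ha1 : (1 : ℝ) ≤ a := by exact_mod_cast ha
    have h3 : |4 ^ d * e i - (a : ℝ) ^ R * e (i + d)| < 1 := by
      have h4 : |4 ^ d * e i| < 4 ^ d * δ := by
        rw [abs_mul, abs_of_pos (by positivity : (0 : ℝ) < 4 ^ d)]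
        exact mul_lt_mul_of_pos_left (he i (by omega) hi) (by positivity)
      have h5 : |(a : ℝ) ^ R * e (i + d)| < (a : ℝ) ^ R * δ := by
        rw [abs_mul, abs_of_pos (by positivity : (0 : ℝ) < (a : ℝ) ^ R)]
        exact mul_lt_mul_of_pos_left (he (i + d) hid hsd) (by positivity)
      have hδ0 : 0 ≤ δ := (abs_nonneg _).trans (he i (by omega) hi).le
      have h6 : (4 : ℝ) ^ d ≤ 4 ^ g := pow_le_pow_right₀ (by norm_num) hdg
      have h7 : (a : ℝ) ^ R ≤ (a : ℝ) ^ (2 * g) := pow_le_pow_right₀ ha1 hRle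
      calc |4 ^ d * e i - (a : ℝ) ^ R * e (i + d)| ≤ |4 ^ d * e i| + |(a : ℝ) ^ R * e (i + d)| :=
            abs_sub _ _
        _ < 4 ^ d * δ + (a : ℝ) ^ R * δ := add_lt_add h4 h5
        _ ≤ 4 ^ g * δ + (a : ℝ) ^ (2 * g) * δ :=
            add_le_add (mul_le_mul_of_nonneg_right h6 hδ0) (mul_le_mul_of_nonneg_right h7 hδ0)
        _ = δ * ((a : ℝ) ^ (2 * g) + 4 ^ g) := by ring
        _ ≤ 1 := hδ
    rw [h1] at h3
    have h8 : ((a : ℤ) ^ R * n (i + d) - 4 ^ d * n i : ℤ) = 0 := by
      rw [← Int.abs_lt_one_iff]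
      exact_mod_cast h3
    rw [h8] at h1
    push_cast at h1
    linarith
  · push Not at hdg
    obtain ⟨j, hj1, hj2, hj3⟩ := hwin (i + 1) (by omega)
    obtain ⟨d', rfl⟩ : ∃ d', j = i + d' := ⟨j - i, by omega⟩
    have h1 := ih d' (by omega) i hi (by omega) hj3
    have h2 := ih (d - d') (by omega) (i + d') hj3 (by omega) (by
      rw [show i + d' + (d - d') = i + d by omega]; exact hsd)
    rw [show i + d' + (d - d') = i + d by omega] at h2
    have h3 : ∑ k ∈ Ico (i + 1) (i + d + 1), s k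
        = ∑ k ∈ Ico (i + 1) (i + d' + 1), s k + ∑ k ∈ Ico (i + d' + 1) (i + d + 1), s k :=
      (Finset.sum_Ico_consecutive s (by omega) (by omega)).symm
    rw [h3, pow_add, mul_assoc, ← h2, show d = d' + (d - d') by omega, pow_add,
      show d' + (d - d') - d' = d - d' by omega]
    linear_combination 4 ^ (d - d') * h1

end Pool.Agent.W5h45.RC
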