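import Pool.Agent.W5h45.RC.W3

/-! The block lemma, second part. -/

namespace Pool.Agent.W5h45.RC
open Finset

lemma abs_cos_le (x : ℝ) : |Real.cos (Real.pi * x)| ≤ 1 - 2 * (|x - round x|) ^ 2 := by
  set e := x - round x with he
  have hx : Real.pi * x = Real.pi * e + (round x : ℤ) * Real.pi := by rw [he]; ring
  have habs : |e| ≤ 1 / 2 := abs_sub_round x
  have hpi := Real.pi_pos
  have h1 : |Real.pi * e| ≤ Real.pi / 2 := by
    rw [abs_mul, abs_of_pos hpi]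
    nlinarith
  rw [hx, Real.cos_add_int_mul_pi, abs_mul]
  have h2 : |((-1 : ℝ)) ^ (round x : ℤ)| = 1 := by
    rw [abs_zpow]; simp
  rw [h2, one_mul]
  have h3 : 0 ≤ Real.cos (Real.pi * e) := by
    apply Real.cos_nonneg_of_mem_Icc
    rw [abs_le] at h1
    exact ⟨by linarith [h1.1], h1.2⟩
  rw [abs_of_nonneg h3]
  have h4 := Real.cos_le_one_sub_mul_cos_sq (x := Real.pi * e) (h1.trans (by linarith))
  refine h4.trans (le_of_eq ?_)
  rw [sq_abs]
  field_simp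

lemma exists_far {a : ℕ} (ha3 : 3 ≤ a) (hodd : Odd a) {b g m : ℕ}
    (hm : Nat.Coprime m (2 * a)) (hm0 : 0 < m) (hbig : 5 ^ b * m * a ^ (4 * g) ≤ 9 ^ b) {ξ : ℤ}
    (hξ : ¬ (m : ℤ) ∣ ξ) {w : List Bool} (hw : w ∈ Wd (2 * (10 * b)))
    (hwin : ∀ i, i + g ≤ 10 * b → ∃ j, i ≤ j ∧ j < i + g ∧ sp w j = 1)
    (hreg3 : a = 3 → on w ≤ 11 * b) (hreg5 : a ≠ 3 → 9 * b ≤ on w) :
    ∃ i, i < 10 * b ∧ sp w i = 1 ∧ 1 / ((a : ℝ) ^ (2 * g) + 4 ^ g) ≤
      |((ξ : ℝ) / m * 4 ^ i * a ^ (∑ k ∈ Ico (i + 1) (10 * b), sp w k)) -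
        round ((ξ : ℝ) / m * 4 ^ i * a ^ (∑ k ∈ Ico (i + 1) (10 * b), sp w k))| := by
  by_contra hcon
  push Not at hcon
  set B := 10 * b with hB
  set δ := 1 / ((a : ℝ) ^ (2 * g) + 4 ^ g) with hδ
  set θ : ℕ → ℝ := fun i => (ξ : ℝ) / m * 4 ^ i * a ^ (∑ k ∈ Ico (i + 1) B, sp w k) with hθ
  have ha0 : (0 : ℝ) < a := by exact_mod_cast (by omega : 0 < a)
  have ha1 : (1 : ℝ) ≤ a := by exact_mod_cast (by omega : 1 ≤ a)
  have hm' : (0 : ℝ) < m := by exact_mod_cast hm0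
  have hδ1 : δ * ((a : ℝ) ^ (2 * g) + 4 ^ g) ≤ 1 := by
    rw [hδ, one_div, inv_mul_cancel₀]
    positivity
  have hδle : δ ≤ 1 := by
    rw [hδ, div_le_one (by positivity)]
    have : (1 : ℝ) ≤ (a : ℝ) ^ (2 * g) := one_le_pow₀ ha1
    have : (0 : ℝ) < 4 ^ g := by positivity
    linarith
  have hchain := chain (a := a) (B := B) (g := g) (by omega) (s := sp w) (fun i => sp_le w i)
    (θ := θ) (e := fun i => θ i - round (θ i)) (n := fun i => round (θ i)) (δ := δ) hδ1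
    (fun i _ _ => by ring) (fun i hi hs => hcon i hi hs) (by
      intro i d hid
      have h3 : ∑ k ∈ Ico (i + 1) B, sp w k
          = ∑ k ∈ Ico (i + 1) (i + d + 1), sp w k + ∑ k ∈ Ico (i + d + 1) B, sp w k :=
        (Finset.sum_Ico_consecutive (sp w) (by omega) (by omega)).symm
      simp only [hθ]
      rw [h3, pow_add, pow_add]
      ring) hwin
  -- lower bound
  have hlow : ∀ i, (1 : ℝ) ≤ m * |θ i - round (θ i)| := by
    intro i
    set S := ∑ k ∈ Ico (i + 1) B, sp w k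
    have h1 : (m : ℝ) * (θ i - round (θ i)) = ((ξ * 4 ^ i * (a : ℤ) ^ S - m * round (θ i) : ℤ) : ℝ) := by
      push_cast
      simp only [hθ]
      field_simp
      rfl
    have h2 : (ξ * 4 ^ i * (a : ℤ) ^ S - m * round (θ i) : ℤ) ≠ 0 := by
      intro h0
      apply hξ
      have h3 : (m : ℤ) ∣ ξ * 4 ^ i * (a : ℤ) ^ S := ⟨round (θ i), by linarith⟩
      have hc2 : IsCoprime (m : ℤ) (a : ℤ) :=
        Nat.isCoprime_iff_coprime.2 (Nat.Coprime.coprime_mul_left_right hm)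
      have hc3 : IsCoprime (m : ℤ) (2 : ℤ) := by
        have := Nat.isCoprime_iff_coprime.2 (Nat.Coprime.coprime_mul_right_right hm)
        exact_mod_cast this
      have h4 : (m : ℤ) ∣ ξ * 4 ^ i := (hc2.pow_right).dvd_of_dvd_mul_right h3
      have hc4 : IsCoprime (m : ℤ) (4 ^ i : ℤ) := by
        have : (4 : ℤ) ^ i = 2 ^ (2 * i) := by rw [pow_mul]; norm_num
        rw [this]
        exact hc3.pow_right
      exact hc4.dvd_of_dvd_mul_right h4
    have h5 : (1 : ℝ) ≤ |((ξ * 4 ^ i * (a : ℤ) ^ S - m * round (θ i) : ℤ) : ℝ)| := by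
      rw [← Int.cast_abs]
      exact_mod_cast Int.one_le_abs h2
    rw [← h1, abs_mul, abs_of_pos hm'] at h5
    exact h5
  -- `g` is small
  have hg2 : 4 * g ≤ 2 * b := by
    have h1 : 3 ^ (4 * g) ≤ 3 ^ (2 * b) := by
      calc 3 ^ (4 * g) ≤ a ^ (4 * g) := Nat.pow_le_pow_left ha3 _
        _ ≤ 5 ^ b * m * a ^ (4 * g) := Nat.le_mul_of_pos_left _ (by positivity)
        _ ≤ 9 ^ b := hbig
        _ = 3 ^ (2 * b) := by rw [pow_mul]; norm_num
    exact (Nat.pow_le_pow_iff_right (by norm_num)).1 h1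
  obtain ⟨i₁, _, hi1, hs1⟩ := hwin 0 (by omega)
  obtain ⟨i₂, hi2, hi3, hs2⟩ := hwin (B - g) (by omega)
  have hle : i₁ ≤ i₂ := by omega
  obtain ⟨d, rfl⟩ : ∃ d, i₂ = i₁ + d := ⟨i₂ - i₁, by omega⟩
  have hfin := hchain d i₁ hs1 (by omega) hs2
  set R := ∑ k ∈ Ico (i₁ + 1) (i₁ + d + 1), sp w k with hR
  have hsum : on w = ∑ k ∈ range (i₁ + 1), sp w k + (R + ∑ k ∈ Ico (i₁ + d + 1) B, sp w k) := by
    rw [← sum_sp B w hw, hR, Finset.sum_Ico_consecutive (sp w) (by omega) (by omega),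
      Finset.range_eq_Ico, Finset.range_eq_Ico,
      Finset.sum_Ico_consecutive (sp w) (by omega) (by omega)]
  have hb1 := hcon i₁ (by omega) hs1
  have hb2 := hcon (i₁ + d) (by omega) hs2
  have hl1 := hlow i₁
  have hl2 := hlow (i₁ + d)
  have hfin' : (4 : ℝ) ^ d * |θ i₁ - round (θ i₁)| = (a : ℝ) ^ R * |θ (i₁ + d) - round (θ (i₁ + d))| := by
    have h := congrArg abs hfin
    rw [abs_mul, abs_mul, abs_of_pos (by positivity : (0 : ℝ) < 4 ^ d),
      abs_of_pos (by positivity : (0 : ℝ) < (a : ℝ) ^ R)] at h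
    exact h
  have hb1' : |θ i₁ - round (θ i₁)| < 1 := lt_of_lt_of_le hb1 hδle
  have hb2' : |θ (i₁ + d) - round (θ (i₁ + d))| < 1 := lt_of_lt_of_le hb2 hδle
  set e₁ := |θ i₁ - round (θ i₁)|
  set e₂ := |θ (i₁ + d) - round (θ (i₁ + d))|
  by_cases h3 : a = 3
  · have hRle : R ≤ 11 * b := by have := hreg3 h3; omega
    have h4 : (4 : ℝ) ^ d < m * (3 : ℝ) ^ (11 * b) := by
      have h5 : (4 : ℝ) ^ d ≤ m * (4 ^ d * e₁) := by
        calc (4 : ℝ) ^ d = 4 ^ d * 1 := by ring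
          _ ≤ 4 ^ d * (m * e₁) := mul_le_mul_of_nonneg_left hl1 (by positivity)
          _ = m * (4 ^ d * e₁) := by ring
      rw [hfin'] at h5
      refine lt_of_le_of_lt h5 (mul_lt_mul_of_pos_left ?_ hm')
      calc (a : ℝ) ^ R * e₂ < (a : ℝ) ^ R * 1 := mul_lt_mul_of_pos_left hb2' (by positivity)
        _ = (a : ℝ) ^ R := mul_one _
        _ ≤ (a : ℝ) ^ (11 * b) := pow_le_pow_right₀ ha1 hRle
        _ = (3 : ℝ) ^ (11 * b) := by rw [h3]; norm_num
    have h4' : 4 ^ d < m * 3 ^ (11 * b) := by exact_mod_cast h4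
    have h5 : 4 ^ (10 * b) ≤ 4 ^ d * 4 ^ (2 * g) := by
      rw [← pow_add]
      exact Nat.pow_le_pow_right (by norm_num) (by omega)
    have h6 : 4 ^ (2 * g) ≤ 3 ^ (4 * g) := by
      rw [pow_mul, pow_mul]
      exact Nat.pow_le_pow_left (by norm_num) _
    rw [h3] at hbig
    have h7 : 5 ^ b * 4 ^ (10 * b) < 3 ^ (11 * b) * 9 ^ b := by
      calc 5 ^ b * 4 ^ (10 * b) ≤ 5 ^ b * (4 ^ d * 4 ^ (2 * g)) := Nat.mul_le_mul_left _ h5
        _ ≤ 5 ^ b * (4 ^ d * 3 ^ (4 * g)) :=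
            Nat.mul_le_mul_left _ (Nat.mul_le_mul_left _ h6)
        _ < 5 ^ b * ((m * 3 ^ (11 * b)) * 3 ^ (4 * g)) :=
            Nat.mul_lt_mul_of_pos_left (Nat.mul_lt_mul_of_pos_right h4' (by positivity)) (by positivity)
        _ = 3 ^ (11 * b) * (5 ^ b * m * 3 ^ (4 * g)) := by ring
        _ ≤ 3 ^ (11 * b) * 9 ^ b := Nat.mul_le_mul_left _ hbig
    have h8 : 3 ^ (11 * b) * 9 ^ b ≤ 5 ^ b * 4 ^ (10 * b) := by
      rw [pow_mul, pow_mul, ← mul_pow, ← mul_pow]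
      exact Nat.pow_le_pow_left (by norm_num) _
    omega
  · have ha5 : 5 ≤ a := by
      obtain ⟨k, hk⟩ := hodd
      omega
    have hon := hreg5 h3
    have hR1 : ∑ k ∈ range (i₁ + 1), sp w k ≤ 2 * (i₁ + 1) := by
      have : ∑ k ∈ range (i₁ + 1), sp w k ≤ ∑ k ∈ range (i₁ + 1), 2 := sum_le_sum fun k _ => sp_le w k
      simp at this
      omega
    have hR2 : ∑ k ∈ Ico (i₁ + d + 1) B, sp w k ≤ 2 * (B - (i₁ + d + 1)) := by
      have : ∑ k ∈ Ico (i₁ + d + 1) B, sp w k ≤ ∑ k ∈ Ico (i₁ + d + 1) B, 2 :=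
        sum_le_sum fun k _ => sp_le w k
      rw [sum_const, Nat.card_Ico] at this
      simp at this
      omega
    have hRge : 9 * b ≤ R + 4 * g := by omega
    have h4 : (a : ℝ) ^ R < m * (4 : ℝ) ^ (10 * b) := by
      have h5 : (a : ℝ) ^ R ≤ m * (a ^ R * e₂) := by
        calc (a : ℝ) ^ R = a ^ R * 1 := by ring
          _ ≤ a ^ R * (m * e₂) := mul_le_mul_of_nonneg_left hl2 (by positivity)
          _ = m * (a ^ R * e₂) := by ring
      rw [← hfin'] at h5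
      refine lt_of_le_of_lt h5 (mul_lt_mul_of_pos_left ?_ hm')
      calc (4 : ℝ) ^ d * e₁ < (4 : ℝ) ^ d * 1 := mul_lt_mul_of_pos_left hb1' (by positivity)
        _ = (4 : ℝ) ^ d := mul_one _
        _ ≤ (4 : ℝ) ^ (10 * b) := pow_le_pow_right₀ (by norm_num) (by omega)
    have h4' : a ^ R < m * 4 ^ (10 * b) := by exact_mod_cast h4
    have h5 : a ^ (9 * b) ≤ a ^ R * a ^ (4 * g) := by
      rw [← pow_add]
      exact Nat.pow_le_pow_right (by omega) hRge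
    have h7 : 5 ^ b * a ^ (9 * b) < 4 ^ (10 * b) * 9 ^ b := by
      calc 5 ^ b * a ^ (9 * b) ≤ 5 ^ b * (a ^ R * a ^ (4 * g)) := Nat.mul_le_mul_left _ h5
        _ < 5 ^ b * ((m * 4 ^ (10 * b)) * a ^ (4 * g)) :=
            Nat.mul_lt_mul_of_pos_left (Nat.mul_lt_mul_of_pos_right h4' (by positivity)) (by positivity)
        _ = 4 ^ (10 * b) * (5 ^ b * m * a ^ (4 * g)) := by ring
        _ ≤ 4 ^ (10 * b) * 9 ^ b := Nat.mul_le_mul_left _ hbig
    have h8 : 4 ^ (10 * b) * 9 ^ b ≤ 5 ^ b * a ^ (9 * b) := by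
      have h9 : 5 ^ (9 * b) ≤ a ^ (9 * b) := Nat.pow_le_pow_left ha5 _
      refine le_trans ?_ (Nat.mul_le_mul_left _ h9)
      rw [pow_mul, pow_mul, ← mul_pow, ← mul_pow]
      exact Nat.pow_le_pow_left (by norm_num) _
    omega

open Classical in
/-- The words that are not regular. -/
lemma card_irregular (a : ℕ) {b g : ℕ} (hb : 32 ≤ b) (hg : 40 * b ≤ 2 ^ g) :
    (((Wd (2 * (10 * b))).filter (fun w => ¬ ((∀ i, i + g ≤ 10 * b → ∃ j, i ≤ j ∧ j < i + g ∧ sp w j = 1)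
      ∧ (a = 3 → on w ≤ 11 * b) ∧ (a ≠ 3 → 9 * b ≤ on w)))).card : ℝ) ≤ 4 ^ (10 * b) / 2 := by
  classical
  set B := 10 * b with hB
  have hg0 : 1 ≤ g := by
    rcases Nat.eq_zero_or_pos g with h | h
    · subst h; simp at hg; omega
    · exact h
  set W1 := (range B).biUnion (fun i => (Wd (2 * B)).filter
    (fun w => i + g ≤ B ∧ ∀ j, i ≤ j → j < i + g → sp w j ≠ 1)) with hW1
  set W2 := (Wd (2 * B)).filter (fun w => (a = 3 ∧ 11 * b < on w) ∨ (a ≠ 3 ∧ on w < 9 * b)) with hW2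
  have hsub : ((Wd (2 * B)).filter (fun w => ¬ ((∀ i, i + g ≤ B → ∃ j, i ≤ j ∧ j < i + g ∧ sp w j = 1)
      ∧ (a = 3 → on w ≤ 11 * b) ∧ (a ≠ 3 → 9 * b ≤ on w)))) ⊆ W1 ∪ W2 := by
    intro w hw
    rw [mem_filter] at hw
    obtain ⟨hw, hn⟩ := hw
    rw [mem_union]
    by_contra hc
    push Not at hc
    obtain ⟨hc1, hc2⟩ := hc
    apply hn
    refine ⟨?_, ?_, ?_⟩
    · intro i hi
      by_contra hcc
      push Not at hcc
      apply hc1
      rw [hW1, mem_biUnion]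
      exact ⟨i, by rw [mem_range]; omega, by rw [mem_filter]; exact ⟨hw, hi, hcc⟩⟩
    · intro h3
      by_contra hcc
      apply hc2
      rw [hW2, mem_filter]
      exact ⟨hw, Or.inl ⟨h3, by omega⟩⟩
    · intro h3
      by_contra hcc
      apply hc2
      rw [hW2, mem_filter]
      exact ⟨hw, Or.inr ⟨h3, by omega⟩⟩
  have h1 : (W1.card : ℝ) ≤ 4 ^ B / 4 := by
    have h2 : (W1.card : ℝ) ≤ ∑ i ∈ range B, (4 ^ B / 2 ^ g : ℝ) := by
      have h0 : W1.card ≤ ∑ i ∈ range B, ((Wd (2 * B)).filter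
          (fun w => i + g ≤ B ∧ ∀ j, i ≤ j → j < i + g → sp w j ≠ 1)).card := card_biUnion_le
      have h0' : (W1.card : ℝ) ≤ ((∑ i ∈ range B, ((Wd (2 * B)).filter
          (fun w => i + g ≤ B ∧ ∀ j, i ≤ j → j < i + g → sp w j ≠ 1)).card : ℕ) : ℝ) :=
        Nat.cast_le.2 h0
      refine h0'.trans ?_
      rw [Nat.cast_sum]
      refine sum_le_sum fun i _ => ?_
      by_cases hi : i + g ≤ B
      · have h3 := card_window hi
        rw [← h3, mul_div_assoc, div_self (by positivity), mul_one]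
        exact_mod_cast card_le_card (by
          intro w hw
          rw [mem_filter] at hw ⊢
          exact ⟨hw.1, hw.2.2⟩)
      · rw [filter_false_of_mem (by intro w _ h; exact hi h.1)]
        simp only [card_empty, Nat.cast_zero]
        positivity
    rw [sum_const, card_range, nsmul_eq_mul] at h2
    refine h2.trans ?_
    have h4 : (40 * b : ℝ) ≤ 2 ^ g := by exact_mod_cast hg
    have h5 : (0 : ℝ) < 2 ^ g := by positivity
    have h6 : (B : ℝ) = 10 * b := by rw [hB]; push_cast; ring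
    rw [h6, mul_div_assoc', div_le_div_iff₀ h5 (by norm_num)]
    have : (0 : ℝ) < 4 ^ B := by positivity
    nlinarith
  have h2 : (W2.card : ℝ) ≤ 4 ^ B / 4 := by
    have hpow : ((187 : ℝ) / 200) ^ b ≤ 1 / 4 := by
      calc ((187 : ℝ) / 200) ^ b ≤ (187 / 200) ^ 32 :=
            pow_le_pow_of_le_one (by norm_num) (by norm_num) hb
        _ ≤ 1 / 4 := by norm_num
    by_cases h3 : a = 3
    · have h4 : (W2.card : ℝ) * (11 / 10) ^ (11 * b) ≤ (1 + 11 / 10) ^ (2 * B) := by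
        refine le_trans ?_ (card_many (n := 2 * B) (T := 11 * b) (z := 11 / 10) (by norm_num))
        refine mul_le_mul_of_nonneg_right ?_ (by positivity)
        exact_mod_cast card_le_card (by
          intro w hw
          rw [hW2, mem_filter] at hw
          rw [mem_filter]
          exact ⟨hw.1, by rcases hw.2 with h | h; exact h.2; exact absurd h3 h.1⟩)
      have h5 : ((1 : ℝ) + 11 / 10) ^ (2 * B) ≤ 4 ^ B * ((187 / 200) ^ b * (11 / 10) ^ (11 * b)) := by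
        rw [hB, show 2 * (10 * b) = 20 * b by ring, pow_mul, pow_mul, pow_mul, ← mul_pow, ← mul_pow]
        exact pow_le_pow_left₀ (by norm_num) (by norm_num) _
      have h6 : (0 : ℝ) < (11 / 10) ^ (11 * b) := by positivity
      have h7 : (W2.card : ℝ) ≤ 4 ^ B * (187 / 200) ^ b := by
        have h8 := h4.trans h5
        rw [← mul_assoc] at h8
        exact le_of_mul_le_mul_right h8 h6
      refine h7.trans ?_
      have : (0 : ℝ) < 4 ^ B := by positivity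
      nlinarith
    · have h4 : (W2.card : ℝ) * (9 / 10) ^ (9 * b) ≤ (1 + 9 / 10) ^ (2 * B) := by
        refine le_trans ?_ (card_few (n := 2 * B) (T := 9 * b) (z := 9 / 10) (by norm_num) (by norm_num))
        refine mul_le_mul_of_nonneg_right ?_ (by positivity)
        exact_mod_cast card_le_card (by
          intro w hw
          rw [hW2, mem_filter] at hw
          rw [mem_filter]
          exact ⟨hw.1, by rcases hw.2 with h | h; exact absurd h.1 h3; exact h.2⟩)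
      have h5 : ((1 : ℝ) + 9 / 10) ^ (2 * B) ≤ 4 ^ B * ((187 / 200) ^ b * (9 / 10) ^ (9 * b)) := by
        rw [hB, show 2 * (10 * b) = 20 * b by ring, pow_mul, pow_mul, pow_mul, ← mul_pow, ← mul_pow]
        exact pow_le_pow_left₀ (by norm_num) (by norm_num) _
      have h6 : (0 : ℝ) < (9 / 10) ^ (9 * b) := by positivity
      have h7 : (W2.card : ℝ) ≤ 4 ^ B * (187 / 200) ^ b := by
        have h8 := h4.trans h5
        rw [← mul_assoc] at h8
        exact le_of_mul_le_mul_right h8 h6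
      refine h7.trans ?_
      have : (0 : ℝ) < 4 ^ B := by positivity
      nlinarith
  calc (((Wd (2 * B)).filter (fun w => ¬ ((∀ i, i + g ≤ B → ∃ j, i ≤ j ∧ j < i + g ∧ sp w j = 1)
      ∧ (a = 3 → on w ≤ 11 * b) ∧ (a ≠ 3 → 9 * b ≤ on w)))).card : ℝ)
      ≤ ((W1 ∪ W2).card : ℝ) := by exact_mod_cast card_le_card hsub
    _ ≤ (W1.card : ℝ) + W2.card := by exact_mod_cast card_union_le _ _
    _ ≤ 4 ^ B / 2 := by linarith

/-- The block lemma. -/
lemma block {a : ℕ} (ha3 : 3 ≤ a) (hodd : Odd a) {b g m : ℕ} (hb : 32 ≤ b) (hg : 40 * b ≤ 2 ^ g)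
    (hm : Nat.Coprime m (2 * a)) (hm0 : 0 < m) (hbig : 5 ^ b * m * a ^ (4 * g) ≤ 9 ^ b) {ξ : ℤ}
    (hξ : ¬ (m : ℤ) ∣ ξ) :
    ∑ w ∈ Wd (2 * (10 * b)), KK a w ((ξ : ℝ) / m)
      ≤ 4 ^ (10 * b) * (1 - (1 / ((a : ℝ) ^ (2 * g) + 4 ^ g)) ^ 2) := by
  classical
  set δ := 1 / ((a : ℝ) ^ (2 * g) + 4 ^ g) with hδ
  have ha0 : (0 : ℝ) < a := by exact_mod_cast (by omega : 0 < a)
  have hδ0 : 0 < δ := by positivity
  set P : List Bool → Prop := fun w =>
    (∀ i, i + g ≤ 10 * b → ∃ j, i ≤ j ∧ j < i + g ∧ sp w j = 1)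
      ∧ (a = 3 → on w ≤ 11 * b) ∧ (a ≠ 3 → 9 * b ≤ on w) with hP
  have hirr : (((Wd (2 * (10 * b))).filter (fun w => ¬ P w)).card : ℝ) ≤ 4 ^ (10 * b) / 2 :=
    card_irregular a hb hg
  rw [← sum_filter_add_sum_filter_not (Wd (2 * (10 * b))) P]
  have h1 : ∑ w ∈ (Wd (2 * (10 * b))).filter P, KK a w ((ξ : ℝ) / m)
      ≤ ((Wd (2 * (10 * b))).filter P).card * (1 - 2 * δ ^ 2) := by
    rw [← nsmul_eq_mul]
    refine sum_le_card_nsmul _ _ _ fun w hw => ?_
    rw [mem_filter] at hw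
    obtain ⟨i, hi, hs, hfar⟩ := exists_far ha3 hodd hm hm0 hbig hξ hw.1 hw.2.1 hw.2.2.1 hw.2.2.2
    refine (KK_le_cos a (10 * b) w hw.1 ((ξ : ℝ) / m) i hi hs).trans ((abs_cos_le _).trans ?_)
    have : δ ^ 2 ≤ |((ξ : ℝ) / m * 4 ^ i * a ^ (∑ k ∈ Ico (i + 1) (10 * b), sp w k)) -
        round ((ξ : ℝ) / m * 4 ^ i * a ^ (∑ k ∈ Ico (i + 1) (10 * b), sp w k))| ^ 2 :=
      pow_le_pow_left₀ hδ0.le hfar 2
    linarith
  have h2 : ∑ w ∈ (Wd (2 * (10 * b))).filter (fun w => ¬ P w), KK a w ((ξ : ℝ) / m)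
      ≤ ((Wd (2 * (10 * b))).filter (fun w => ¬ P w)).card * 1 := by
    rw [← nsmul_eq_mul]
    refine sum_le_card_nsmul _ _ _ fun w hw => ?_
    rw [mem_filter] at hw
    exact KK_le_one a (10 * b) w hw.1 _
  have h3 : (((Wd (2 * (10 * b))).filter P).card : ℝ)
      + ((Wd (2 * (10 * b))).filter (fun w => ¬ P w)).card = 4 ^ (10 * b) := by
    have := Finset.card_filter_add_card_filter_not (s := Wd (2 * (10 * b))) P
    rw [card_Wd, pow_mul] at this
    norm_num at this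
    exact_mod_cast this
  have h4 : 0 ≤ δ ^ 2 := by positivity
  nlinarith

end Pool.Agent.W5h45.RC
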