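import Pool.Agent.W5h45.RC.W4

/-! Equidistribution of the numerators modulo small moduli. -/

namespace Pool.Agent.W5h45.RC
open Finset

lemma ex_nat_mul (n : ℕ) (x : ℝ) : ex (n * x) = ex x ^ n := by
  induction n with
  | zero => simp
  | succ n ih => rw [pow_succ, ← ih, ← ex_add]; congr 1; push_cast; ring

lemma ex_eq_one {x : ℝ} (h : ex x = 1) : ∃ n : ℤ, x = n := by
  unfold ex at h
  rw [Complex.exp_eq_one_iff] at h
  obtain ⟨n, hn⟩ := h
  refine ⟨n, ?_⟩
  have hI : (Complex.I : ℂ) ≠ 0 := Complex.I_ne_zero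
  have hpi : (Real.pi : ℂ) ≠ 0 := by exact_mod_cast Real.pi_ne_zero
  have h1 : (x : ℂ) = (n : ℂ) := by
    have h2 : (2 * Real.pi * Complex.I : ℂ) * x = (2 * Real.pi * Complex.I : ℂ) * n := by
      push_cast at hn
      linear_combination hn
    exact mul_left_cancel₀ (by simp [hI, hpi]) h2
  exact_mod_cast h1

lemma sum_ex {m : ℕ} (hm : 0 < m) (k : ℤ) :
    ∑ ξ ∈ range m, ex (ξ * ((k : ℝ) / m)) = if (m : ℤ) ∣ k then (m : ℂ) else 0 := by
  have hm' : (m : ℝ) ≠ 0 := by exact_mod_cast hm.ne'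
  simp only [ex_nat_mul]
  split_ifs with h
  · obtain ⟨j, rfl⟩ := h
    have : ((((m : ℤ) * j : ℤ) : ℝ) / m) = (j : ℝ) := by
      push_cast; field_simp
    rw [this, ex_int]
    simp
  · have h1 : ex ((k : ℝ) / m) ≠ 1 := by
      intro h2
      obtain ⟨n, hn⟩ := ex_eq_one h2
      apply h
      refine ⟨n, ?_⟩
      rw [div_eq_iff hm'] at hn
      have : (k : ℝ) = ((m * n : ℤ) : ℝ) := by rw [hn]; push_cast; ring
      exact_mod_cast this
    have h2 : ex ((k : ℝ) / m) ^ m = 1 := by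
      rw [← ex_nat_mul]
      have : (m : ℝ) * ((k : ℝ) / m) = (k : ℝ) := by field_simp
      rw [this, ex_int]
    have h3 := mul_geom_sum (ex ((k : ℝ) / m)) m
    rw [h2, sub_self] at h3
    exact (mul_eq_zero.1 h3).resolve_left (sub_ne_zero.2 h1)

lemma M_le_two_pow (a L : ℕ) (t : ℝ) : M a L t ≤ 2 ^ L := by
  unfold M
  have h1 : ∀ o, ‖E a L o t‖ ≤ ∑ w ∈ Wd L, if on w = o then (1 : ℝ) else 0 := by
    intro o
    unfold E
    refine (norm_sum_le _ _).trans (le_of_eq (sum_congr rfl fun w _ => ?_))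
    split_ifs <;> simp
  refine (sum_le_sum fun o _ => h1 o).trans ?_
  rw [sum_comm]
  have h2 : ∀ w ∈ Wd L, (∑ o ∈ range (L + 1), if on w = o then (1 : ℝ) else 0) = 1 := by
    intro w hw
    rw [mem_Wd] at hw
    rw [sum_ite_eq, if_pos]
    rw [mem_range]
    have := on_le w
    omega
  rw [sum_congr rfl h2, sum_const, card_Wd]
  simp

/-- The gain in one block. -/
noncomputable def gain (a g : ℕ) : ℝ := 1 - (1 / ((a : ℝ) ^ (2 * g) + 4 ^ g)) ^ 2

lemma gain_nonneg {a : ℕ} (ha : 1 ≤ a) (g : ℕ) : 0 ≤ gain a g := by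
  unfold gain
  have ha1 : (1 : ℝ) ≤ a := by exact_mod_cast ha
  have h1 : (1 : ℝ) ≤ (a : ℝ) ^ (2 * g) + 4 ^ g := by
    have : (1 : ℝ) ≤ (a : ℝ) ^ (2 * g) := one_le_pow₀ ha1
    have : (0 : ℝ) < 4 ^ g := by positivity
    linarith
  have h2 : 1 / ((a : ℝ) ^ (2 * g) + 4 ^ g) ≤ 1 := by
    rw [div_le_one (by linarith)]; exact h1
  have h3 : 0 ≤ 1 / ((a : ℝ) ^ (2 * g) + 4 ^ g) := by positivity
  nlinarith

lemma gain_le_one (a g : ℕ) : gain a g ≤ 1 := by
  unfold gain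
  have : 0 ≤ (1 / ((a : ℝ) ^ (2 * g) + 4 ^ g)) ^ 2 := by positivity
  linarith

lemma M_bound {a : ℕ} (ha3 : 3 ≤ a) (hodd : Odd a) {b g m : ℕ} (hb : 32 ≤ b) (hg : 40 * b ≤ 2 ^ g)
    (hm : Nat.Coprime m (2 * a)) (hm0 : 0 < m) (hbig : 5 ^ b * m * a ^ (4 * g) ≤ 9 ^ b)
    (k r : ℕ) : ∀ ξ : ℤ, ¬ (m : ℤ) ∣ ξ →
      M a (2 * (10 * b) * k + r) ((ξ : ℝ) / m) ≤ (4 ^ (10 * b) * gain a g) ^ k * 2 ^ r := by
  have hc2 : IsCoprime (m : ℤ) (a : ℤ) :=
    Nat.isCoprime_iff_coprime.2 (Nat.Coprime.coprime_mul_left_right hm)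
  have hc3 : IsCoprime (m : ℤ) (2 : ℤ) := by
    have := Nat.isCoprime_iff_coprime.2 (Nat.Coprime.coprime_mul_right_right hm)
    exact_mod_cast this
  induction k with
  | zero => intro ξ _; simpa using M_le_two_pow a r _
  | succ k ih =>
    intro ξ hξ
    rw [show 2 * (10 * b) * (k + 1) + r = 2 * (10 * b) + (2 * (10 * b) * k + r) by ring]
    refine (M_add_le _ _ _ _).trans ?_
    have h1 : ∀ o' ∈ range (2 * (10 * b) * k + r + 1),
        ‖E a (2 * (10 * b) * k + r) o' (2 ^ (2 * (10 * b)) * ((ξ : ℝ) / m))‖ *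
          M a (2 * (10 * b)) ((ξ : ℝ) / m * a ^ o') ≤
        ‖E a (2 * (10 * b) * k + r) o' (2 ^ (2 * (10 * b)) * ((ξ : ℝ) / m))‖ *
          (4 ^ (10 * b) * gain a g) := by
      intro o' _
      refine mul_le_mul_of_nonneg_left ?_ (norm_nonneg _)
      refine (M_le_sum_KK _ _ _).trans ?_
      have h2 : (ξ : ℝ) / m * a ^ o' = ((ξ * (a : ℤ) ^ o' : ℤ) : ℝ) / m := by
        push_cast; ring
      rw [h2]
      refine block ha3 hodd hb hg hm hm0 hbig ?_
      intro h3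
      exact hξ ((hc2.pow_right).dvd_of_dvd_mul_right h3)
    refine (sum_le_sum h1).trans ?_
    rw [← sum_mul]
    have h4 := ih (2 ^ (2 * (10 * b)) * ξ) (by
      intro h5
      exact hξ ((hc3.pow_right).dvd_of_dvd_mul_left h5))
    have h5 : 2 ^ (2 * (10 * b)) * ((ξ : ℝ) / m) = ((2 ^ (2 * (10 * b)) * ξ : ℤ) : ℝ) / m := by
      push_cast; ring
    rw [h5]
    have h6 : 0 ≤ (4 : ℝ) ^ (10 * b) * gain a g :=
      mul_nonneg (by positivity) (gain_nonneg (by omega) g)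
    calc M a (2 * (10 * b) * k + r) (((2 ^ (2 * (10 * b)) * ξ : ℤ) : ℝ) / m) * (4 ^ (10 * b) * gain a g)
        ≤ ((4 ^ (10 * b) * gain a g) ^ k * 2 ^ r) * (4 ^ (10 * b) * gain a g) :=
          mul_le_mul_of_nonneg_right h4 h6
      _ = (4 ^ (10 * b) * gain a g) ^ (k + 1) * 2 ^ r := by ring

/-- The number of words of length `L` with `o` letters `true` whose numerator is in a class. -/
def cnt (a L o m y : ℕ) : ℕ := ((Wd L).filter (fun w => on w = o ∧ cw a w ≡ y [MOD m])).card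

lemma equidist {a : ℕ} (ha3 : 3 ≤ a) (hodd : Odd a) {b g m : ℕ} (hb : 32 ≤ b) (hg : 40 * b ≤ 2 ^ g)
    (hm : Nat.Coprime m (2 * a)) (hm0 : 0 < m) (hbig : 5 ^ b * m * a ^ (4 * g) ≤ 9 ^ b)
    (L o y : ℕ) :
    |(cnt a L o m y : ℝ) - (L.choose o : ℝ) / m| ≤ 2 ^ L * gain a g ^ (L / (20 * b)) := by
  have hm' : (0 : ℝ) < m := by exact_mod_cast hm0
  have hE0 : E a L o 0 = (L.choose o : ℂ) := by
    unfold E
    simp only [zero_mul, ex_zero]
    rw [← card_on, Finset.card_eq_sum_ones, Nat.cast_sum, sum_filter]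
    refine sum_congr rfl fun w _ => ?_
    split_ifs <;> simp
  have h1 : (cnt a L o m y : ℂ) * m
      = ∑ ξ ∈ range m, ex (-(ξ * ((y : ℝ) / m))) * E a L o ((ξ : ℝ) / m) := by
    have h2 : (cnt a L o m y : ℂ) * m = ∑ w ∈ Wd L, if on w = o then
        ∑ ξ ∈ range m, ex (ξ * ((((cw a w : ℤ) - (y : ℤ) : ℤ) : ℝ) / m)) else 0 := by
      rw [cnt, Finset.card_eq_sum_ones, Nat.cast_sum, sum_mul, sum_filter]
      refine sum_congr rfl fun w _ => ?_
      rw [sum_ex hm0]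
      have h3 : cw a w ≡ y [MOD m] ↔ (m : ℤ) ∣ (cw a w : ℤ) - (y : ℤ) := by
        rw [Nat.ModEq.comm, Nat.modEq_iff_dvd]
      by_cases hw : on w = o
      · simp [hw, h3]
      · simp [hw]
    rw [h2]
    unfold E
    simp only [mul_sum]
    rw [sum_comm]
    refine sum_congr rfl fun w _ => ?_
    split_ifs with hw
    · refine sum_congr rfl fun ξ _ => ?_
      rw [← ex_add]
      congr 1
      push_cast
      ring
    · simp
  have h2 : (cnt a L o m y : ℂ) * m - (L.choose o : ℂ)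
      = ∑ ξ ∈ (range m).erase 0, ex (-(ξ * ((y : ℝ) / m))) * E a L o ((ξ : ℝ) / m) := by
    rw [h1, ← add_sum_erase (range m) _ (mem_range.2 hm0)]
    simp only [Nat.cast_zero, zero_mul, neg_zero, ex_zero, one_mul, zero_div, hE0]
    ring
  have hb20 : 0 < 20 * b := by omega
  set k := L / (20 * b) with hk
  set r := L % (20 * b) with hr
  have hLk : L = 2 * (10 * b) * k + r := by
    rw [show 2 * (10 * b) = 20 * b by ring]
    exact (Nat.div_add_mod L (20 * b)).symm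
  have h3 : ∀ ξ ∈ (range m).erase 0, ‖ex (-(ξ * ((y : ℝ) / m))) * E a L o ((ξ : ℝ) / m)‖
      ≤ 2 ^ L * gain a g ^ k := by
    intro ξ hξ
    rw [mem_erase, mem_range] at hξ
    rw [norm_mul, norm_ex, one_mul]
    have hnd : ¬ (m : ℤ) ∣ (ξ : ℤ) := by
      intro h
      have := Int.natCast_dvd_natCast.1 h
      have := Nat.le_of_dvd (by omega) this
      omega
    have h4 : ‖E a L o ((ξ : ℝ) / m)‖ ≤ M a L ((ξ : ℝ) / m) := by
      by_cases ho : o ≤ L
      · unfold M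
        exact single_le_sum (f := fun o => ‖E a L o ((ξ : ℝ) / m)‖) (fun _ _ => norm_nonneg _)
          (mem_range.2 (by omega))
      · rw [E_of_lt (by omega), norm_zero]
        exact M_nonneg _ _ _
    refine h4.trans ?_
    have h5 := M_bound ha3 hodd hb hg hm hm0 hbig k r (ξ : ℤ) hnd
    rw [← hLk] at h5
    rw [Int.cast_natCast] at h5
    refine h5.trans (le_of_eq ?_)
    have e1 : (2 : ℝ) ^ L = ((4 : ℝ) ^ (10 * b)) ^ k * 2 ^ r := by
      conv_lhs => rw [hLk]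
      rw [pow_add, ← pow_mul (4 : ℝ), show (4 : ℝ) = 2 ^ 2 by norm_num, ← pow_mul]
      congr 2
      ring
    rw [e1, mul_pow]
    ring
  have h4 : ‖(cnt a L o m y : ℂ) * m - (L.choose o : ℂ)‖ ≤ m * (2 ^ L * gain a g ^ k) := by
    rw [h2]
    refine (norm_sum_le _ _).trans ((sum_le_card_nsmul _ _ _ h3).trans ?_)
    rw [nsmul_eq_mul]
    refine mul_le_mul_of_nonneg_right ?_ ?_
    · have := card_erase_le (s := range m) (a := 0)
      rw [card_range] at this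
      exact_mod_cast this
    · exact mul_nonneg (by positivity) (pow_nonneg (gain_nonneg (by omega) g) _)
  have h5 : ‖(cnt a L o m y : ℂ) * m - (L.choose o : ℂ)‖
      = |(cnt a L o m y : ℝ) - (L.choose o : ℝ) / m| * m := by
    have h6 : (cnt a L o m y : ℂ) * m - (L.choose o : ℂ)
        = (((cnt a L o m y : ℝ) * m - (L.choose o : ℝ) : ℝ) : ℂ) := by push_cast; ring
    rw [h6, Complex.norm_real, Real.norm_eq_abs]
    have h7 : (cnt a L o m y : ℝ) * m - (L.choose o : ℝ)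
        = ((cnt a L o m y : ℝ) - (L.choose o : ℝ) / m) * m := by field_simp
    rw [h7, abs_mul, abs_of_pos hm']
  rw [h5, mul_comm (m : ℝ)] at h4
  exact le_of_mul_le_mul_right h4 hm'

end Pool.Agent.W5h45.RC
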