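import Pool.Agent.W5h45.RC.W5

/-! The choice of the parameters: equidistribution modulo all moduli up to a power of `L`. -/

namespace Pool.Agent.W5h45.RC
open Finset Filter Topology

lemma tendsto_log2 : Tendsto (fun L : ℕ => Nat.log 2 L) atTop atTop := by
  rw [tendsto_atTop_atTop]
  intro b
  refine ⟨2 ^ b, fun L hL => ?_⟩
  exact Nat.le_log_of_pow_le (by norm_num) hL

lemma eventually_poly_le (C : ℝ) (k : ℕ) : ∀ᶠ n : ℕ in atTop, C * (n : ℝ) ^ k ≤ 2 ^ n := by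
  have h := tendsto_pow_const_div_const_pow_of_one_lt k (by norm_num : (1 : ℝ) < 2)
  have h2 := h.const_mul C
  rw [mul_zero] at h2
  have h3 := h2.eventually (gt_mem_nhds (zero_lt_one))
  filter_upwards [h3] with n hn
  have hp : (0 : ℝ) < 2 ^ n := by positivity
  rw [← mul_div_assoc, div_lt_one hp] at hn
  exact hn.le

theorem params {a : ℕ} (ha3 : 3 ≤ a) (hodd : Odd a) (K : ℕ) : ∃ κ : ℕ → ℝ, (∀ L, 0 ≤ κ L) ∧
    Tendsto (fun L : ℕ => (L : ℝ) ^ 2 * ((a : ℝ) ^ (K * Nat.log 2 L)) ^ 2 * κ L) atTop (𝓝 0) ∧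
    ∀ᶠ L in atTop, ∀ m, 0 < m → m.Coprime (2 * a) → m ≤ a ^ (K * Nat.log 2 L) → ∀ o y,
      |(cnt a L o m y : ℝ) - (L.choose o : ℝ) / m| ≤ 2 ^ L * κ L := by
  set A := Nat.clog 2 a with hA
  have haA : a ≤ 2 ^ A := Nat.le_pow_clog (by norm_num) a
  set b : ℕ → ℕ := fun L => (Nat.log 2 L) ^ 2 with hb
  set g : ℕ → ℕ := fun L => Nat.clog 2 (40 * b L) with hg
  -- facts on `g`
  have hg1 : ∀ L, 40 * b L ≤ 2 ^ g L := fun L => Nat.le_pow_clog (by norm_num) _
  have hg2 : ∀ L, 6 ≤ Nat.log 2 L → 2 ^ g L ≤ 80 * (Nat.log 2 L) ^ 2 := by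
    intro L hL
    have h1 : 1 < 40 * b L := by
      have : 1 ≤ b L := Nat.one_le_pow _ _ (by omega)
      omega
    have h2 := Nat.pow_pred_clog_lt_self (b := 2) (by norm_num) h1
    have h3 : 0 < Nat.clog 2 (40 * b L) := Nat.clog_pos (by norm_num) h1
    have h4 : 2 ^ g L = 2 * 2 ^ (Nat.clog 2 (40 * b L)).pred := by
      rw [← pow_succ']
      congr 1
      simp only [hg]
      exact (Nat.succ_pred_eq_of_pos h3).symm
    rw [h4]
    simp only [hb] at h2 ⊢
    omega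
  have hag : ∀ L, 6 ≤ Nat.log 2 L → a ^ (4 * g L) ≤ (80 * (Nat.log 2 L) ^ 2) ^ (4 * A) := by
    intro L hL
    calc a ^ (4 * g L) ≤ (2 ^ A) ^ (4 * g L) := Nat.pow_le_pow_left haA _
      _ = (2 ^ g L) ^ (4 * A) := by rw [← pow_mul, ← pow_mul]; congr 1; ring
      _ ≤ (80 * (Nat.log 2 L) ^ 2) ^ (4 * A) := Nat.pow_le_pow_left (hg2 L hL) _
  refine ⟨fun L => gain a (g L) ^ (L / (20 * b L)), fun L => pow_nonneg (gain_nonneg (by omega) _) _,
    ?_, ?_⟩
  · -- the error is very small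
    have hF : Tendsto (fun n : ℕ => 4 * Real.exp (-(n : ℝ))) atTop (𝓝 0) := by
      have h1 : Tendsto (fun n : ℕ => Real.exp (-(n : ℝ))) atTop (𝓝 0) :=
        (Real.tendsto_exp_neg_atTop_nhds_zero).comp tendsto_natCast_atTop_atTop
      simpa using h1.const_mul 4
    have hev : ∀ᶠ n : ℕ in atTop, (n : ℝ) ^ 2 * (20 * (n : ℝ) ^ 2) * (4 * (80 * (n : ℝ) ^ 2) ^ (4 * A))
        + 20 * (n : ℝ) ^ 2 ≤ 2 ^ n := by
      have h1 := eventually_poly_le (2 * (20 * (4 * 80 ^ (4 * A)))) (4 + 8 * A)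
      have h2 := eventually_poly_le (2 * 20) 2
      filter_upwards [h1, h2] with n h1 h2
      have h3 : (n : ℝ) ^ 2 * (20 * (n : ℝ) ^ 2) * (4 * (80 * (n : ℝ) ^ 2) ^ (4 * A))
          = 20 * (4 * 80 ^ (4 * A)) * (n : ℝ) ^ (4 + 8 * A) := by
        rw [mul_pow, ← pow_mul, pow_add, show 2 * (4 * A) = 8 * A by ring]
        ring
      rw [h3]
      linarith
    have hev2 : ∀ᶠ L : ℕ in atTop, 1 ≤ L := eventually_ge_atTop 1
    have hn0 := (tendsto_log2.eventually hev)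
    have hn1 := (tendsto_log2.eventually (eventually_ge_atTop (2 + 2 * (K * A) + 6)))
    refine squeeze_zero' (g := fun L : ℕ => 4 * Real.exp (-((Nat.log 2 L : ℕ) : ℝ)))
      (Eventually.of_forall fun L => mul_nonneg (by positivity)
        (pow_nonneg (gain_nonneg (by omega) _) _)) ?_ (hF.comp tendsto_log2)
    filter_upwards [hn0, hn1, hev2] with L h0 h1 hL1
    set n := Nat.log 2 L with hn
    have hLle : L < 2 ^ (n + 1) := Nat.lt_pow_succ_log_self (by norm_num) L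
    have hLge : 2 ^ n ≤ L := Nat.pow_log_le_self 2 (by omega)
    have hb0 : b L = n ^ 2 := rfl
    have hn6 : 6 ≤ n := by omega
    have hn6' : (6 : ℝ) ≤ n := by exact_mod_cast hn6
    -- δ
    set δ : ℝ := 1 / ((a : ℝ) ^ (2 * g L) + 4 ^ g L) with hδ
    have ha0 : (0 : ℝ) < a := by exact_mod_cast (by omega : 0 < a)
    have hδ0 : 0 < δ := by positivity
    have hden : (0 : ℝ) < 4 * (80 * (n : ℝ) ^ 2) ^ (4 * A) := by positivity
    have hδ2 : 1 / (4 * (80 * (n : ℝ) ^ 2) ^ (4 * A)) ≤ δ ^ 2 := by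
      have h4 : (4 : ℝ) ^ g L ≤ (a : ℝ) ^ (2 * g L) := by
        rw [pow_mul]
        refine pow_le_pow_left₀ (by norm_num) ?_ _
        have : (3 : ℝ) ≤ a := by exact_mod_cast ha3
        nlinarith
      have h5 : δ ≥ 1 / (2 * (a : ℝ) ^ (2 * g L)) := by
        rw [hδ]
        refine one_div_le_one_div_of_le (by positivity) (by linarith)
      have h6 : (1 / (2 * (a : ℝ) ^ (2 * g L))) ^ 2 ≤ δ ^ 2 :=
        pow_le_pow_left₀ (by positivity) h5 2
      refine le_trans ?_ h6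
      have e0 : (2 * (a : ℝ) ^ (2 * g L)) ^ 2 = 4 * (a : ℝ) ^ (2 * g L * 2) := by
        rw [mul_pow, ← pow_mul]; norm_num
      rw [div_pow, one_pow, e0]
      refine one_div_le_one_div_of_le (by positivity) ?_
      have h7 : (a : ℝ) ^ (2 * g L * 2) ≤ (80 * (n : ℝ) ^ 2) ^ (4 * A) := by
        have := hag L hn6
        have h8 : ((a ^ (4 * g L) : ℕ) : ℝ) ≤ (((80 * n ^ 2) ^ (4 * A) : ℕ) : ℝ) := by
          exact_mod_cast this
        push_cast at h8
        rw [show 2 * g L * 2 = 4 * g L by ring]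
        exact h8
      linarith
    -- the number of blocks
    have hnb : (L : ℝ) / (20 * (n : ℝ) ^ 2) - 1 ≤ ((L / (20 * b L) : ℕ) : ℝ) := by
      have h8 := Nat.lt_div_mul_add (a := L) (b := 20 * b L) (by rw [hb0]; positivity)
      have h9 : (L : ℝ) < (((L / (20 * b L)) * (20 * b L) + 20 * b L : ℕ) : ℝ) := by exact_mod_cast h8
      push_cast at h9
      rw [hb0] at h9 ⊢
      push_cast at h9
      have h10 : (0 : ℝ) < 20 * (n : ℝ) ^ 2 := by positivity
      rw [sub_le_iff_le_add, div_le_iff₀ h10]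
      linarith
    have hnδ : (n : ℝ) ^ 2 ≤ ((L / (20 * b L) : ℕ) : ℝ) * δ ^ 2 := by
      have h10 : (0 : ℝ) < 20 * (n : ℝ) ^ 2 := by positivity
      have h11 : (n : ℝ) ^ 2 * (4 * (80 * (n : ℝ) ^ 2) ^ (4 * A)) ≤ (L : ℝ) / (20 * (n : ℝ) ^ 2) - 1 := by
        rw [le_sub_iff_add_le, le_div_iff₀ h10]
        have h12 : ((2 : ℝ)) ^ n ≤ L := by exact_mod_cast hLge
        linarith
      calc (n : ℝ) ^ 2 = ((n : ℝ) ^ 2 * (4 * (80 * (n : ℝ) ^ 2) ^ (4 * A))) *
            (1 / (4 * (80 * (n : ℝ) ^ 2) ^ (4 * A))) := by field_simp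
        _ ≤ ((L / (20 * b L) : ℕ) : ℝ) * (1 / (4 * (80 * (n : ℝ) ^ 2) ^ (4 * A))) :=
            mul_le_mul_of_nonneg_right (h11.trans hnb) (by positivity)
        _ ≤ ((L / (20 * b L) : ℕ) : ℝ) * δ ^ 2 := mul_le_mul_of_nonneg_left hδ2 (by positivity)
    have hgain : gain a (g L) ^ (L / (20 * b L)) ≤ Real.exp (-(n : ℝ) ^ 2) := by
      have h12 : gain a (g L) ≤ Real.exp (-δ ^ 2) := by
        have := Real.add_one_le_exp (-δ ^ 2)
        unfold gain
        linarith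
      calc gain a (g L) ^ (L / (20 * b L)) ≤ (Real.exp (-δ ^ 2)) ^ (L / (20 * b L)) :=
            pow_le_pow_left₀ (gain_nonneg (by omega) _) h12 _
        _ = Real.exp (-(((L / (20 * b L) : ℕ) : ℝ) * δ ^ 2)) := by
            rw [← Real.exp_nat_mul]; congr 1; ring
        _ ≤ Real.exp (-(n : ℝ) ^ 2) := by
            apply Real.exp_le_exp.2
            linarith
    have hY : ((a : ℝ) ^ (K * n)) ^ 2 ≤ Real.exp (2 * (K * A) * n) := by
      have h13 : (a : ℝ) ≤ 2 ^ A := by exact_mod_cast haA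
      have h14 : (2 : ℝ) ≤ Real.exp 1 := by
        have := Real.add_one_le_exp (1 : ℝ)
        linarith
      calc ((a : ℝ) ^ (K * n)) ^ 2 = (a : ℝ) ^ (2 * K * n) := by rw [← pow_mul]; congr 1; ring
        _ ≤ ((2 : ℝ) ^ A) ^ (2 * K * n) := pow_le_pow_left₀ (by positivity) h13 _
        _ = (2 : ℝ) ^ (2 * (K * A) * n) := by rw [← pow_mul]; congr 1; ring
        _ ≤ (Real.exp 1) ^ (2 * (K * A) * n) := pow_le_pow_left₀ (by norm_num) h14 _
        _ = Real.exp (2 * (K * A) * n) := by rw [← Real.exp_nat_mul]; congr 1; push_cast; ring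
    have hL2 : (L : ℝ) ^ 2 ≤ 4 * Real.exp (2 * n) := by
      have h14 : (2 : ℝ) ≤ Real.exp 1 := by
        have := Real.add_one_le_exp (1 : ℝ)
        linarith
      have h15 : (L : ℝ) ≤ 2 ^ (n + 1) := by exact_mod_cast hLle.le
      calc (L : ℝ) ^ 2 ≤ (2 ^ (n + 1)) ^ 2 := pow_le_pow_left₀ (by positivity) h15 2
        _ = 4 * 2 ^ (2 * n) := by rw [← pow_mul, show (n + 1) * 2 = 2 * n + 2 by ring, pow_add]; ring
        _ ≤ 4 * (Real.exp 1) ^ (2 * n) := by
            refine mul_le_mul_of_nonneg_left (pow_le_pow_left₀ (by norm_num) h14 _) (by norm_num)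
        _ = 4 * Real.exp (2 * n) := by rw [← Real.exp_nat_mul]; congr 2; push_cast; ring
    calc (L : ℝ) ^ 2 * ((a : ℝ) ^ (K * n)) ^ 2 * gain a (g L) ^ (L / (20 * b L))
        ≤ (4 * Real.exp (2 * n)) * Real.exp (2 * (K * A) * n) * Real.exp (-(n : ℝ) ^ 2) := by
          refine mul_le_mul (mul_le_mul hL2 hY (by positivity) (by positivity)) hgain
            (pow_nonneg (gain_nonneg (by omega) _) _) (by positivity)
      _ = 4 * Real.exp (2 * n + 2 * (K * A) * n - (n : ℝ) ^ 2) := by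
          rw [mul_assoc, mul_assoc, ← Real.exp_add, ← Real.exp_add]; congr 2; ring
      _ ≤ 4 * Real.exp (-((n : ℕ) : ℝ)) := by
          refine mul_le_mul_of_nonneg_left (Real.exp_le_exp.2 ?_) (by norm_num)
          have h16 : ((2 + 2 * (K * A) + 6 : ℕ) : ℝ) ≤ n := by exact_mod_cast h1
          push_cast at h16
          nlinarith
  · have hn1 := (tendsto_log2.eventually (eventually_ge_atTop (2 * (K * A + 4 * A) + 6)))
    have hn2 := (tendsto_log2.eventually (eventually_poly_le 80 2))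
    filter_upwards [hn1, hn2] with L h1 h2
    intro m hm0 hm hmY o y
    set n := Nat.log 2 L with hn
    have hn6 : 6 ≤ n := by omega
    have hb32 : 32 ≤ b L := by
      simp only [hb]
      calc 32 ≤ 6 ^ 2 := by norm_num
        _ ≤ n ^ 2 := Nat.pow_le_pow_left hn6 2
    refine equidist ha3 hodd hb32 (hg1 L) hm hm0 ?_ L o y
    have h3 : a ^ (4 * g L) ≤ 2 ^ (4 * A * n) := by
      have h4 : 80 * n ^ 2 ≤ 2 ^ n := by exact_mod_cast h2
      calc a ^ (4 * g L) ≤ (80 * n ^ 2) ^ (4 * A) := hag L hn6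
        _ ≤ (2 ^ n) ^ (4 * A) := Nat.pow_le_pow_left h4 _
        _ = 2 ^ (4 * A * n) := by rw [← pow_mul]; congr 1; ring
    have h4 : m ≤ 2 ^ (K * A * n) := by
      calc m ≤ a ^ (K * n) := hmY
        _ ≤ (2 ^ A) ^ (K * n) := Nat.pow_le_pow_left haA _
        _ = 2 ^ (K * A * n) := by rw [← pow_mul]; congr 1; ring
    have h5 : (m * a ^ (4 * g L)) ^ 2 ≤ 2 ^ b L := by
      calc (m * a ^ (4 * g L)) ^ 2 ≤ (2 ^ (K * A * n) * 2 ^ (4 * A * n)) ^ 2 :=
            Nat.pow_le_pow_left (Nat.mul_le_mul h4 h3) 2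
        _ = 2 ^ (2 * (K * A + 4 * A) * n) := by
            rw [← pow_add, ← pow_mul]; congr 1; ring
        _ ≤ 2 ^ b L := by
            refine Nat.pow_le_pow_right (by norm_num) ?_
            simp only [hb]
            rw [pow_two]
            exact Nat.mul_le_mul_right _ (by omega)
    have h6 : (5 ^ b L * m * a ^ (4 * g L)) ^ 2 ≤ (9 ^ b L) ^ 2 := by
      calc (5 ^ b L * m * a ^ (4 * g L)) ^ 2 = (5 ^ b L) ^ 2 * (m * a ^ (4 * g L)) ^ 2 := by ring
        _ ≤ (5 ^ b L) ^ 2 * 2 ^ b L := Nat.mul_le_mul_left _ h5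
        _ = 50 ^ b L := by rw [← pow_mul, mul_comm (b L) 2, pow_mul, ← mul_pow]; norm_num
        _ ≤ 81 ^ b L := Nat.pow_le_pow_left (by norm_num) _
        _ = (9 ^ b L) ^ 2 := by rw [← pow_mul, mul_comm (b L) 2, pow_mul]; norm_num
    exact (Nat.pow_le_pow_iff_left (by norm_num)).1 h6

end Pool.Agent.W5h45.RC
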