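import Pool.Agent.W5h45.RC.W7

/-! The series of the von Mangoldt function over the orders, and the density of the number of odd
terms for which a modulus divides `2 ^ L - a ^ o`. -/

namespace Pool.Agent.W5h45.RC
open Finset Filter Topology ArithmeticFunction

lemma isUnit_of_cop {a d : ℕ} (h : d.Coprime (2 * a)) : IsUnit (a : ZMod d) :=
  (ZMod.isUnit_iff_coprime a d).2 (Nat.Coprime.coprime_mul_left_right h).symm

lemma pos_of_cop {a d : ℕ} (ha : 3 ≤ a) (h : d.Coprime (2 * a)) : 0 < d := by
  rcases Nat.eq_zero_or_pos d with h0 | h0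
  · subst h0
    rw [Nat.coprime_zero_left] at h
    omega
  · exact h0

lemma order_pos {a d : ℕ} (ha : 3 ≤ a) (h : d.Coprime (2 * a)) : 0 < orderOf (a : ZMod d) := by
  have : NeZero d := ⟨(pos_of_cop ha h).ne'⟩
  obtain ⟨u, hu⟩ := isUnit_of_cop h
  rw [← hu, orderOf_units]
  exact orderOf_pos u

lemma pow_eq_iff {a d : ℕ} (h : d.Coprime (2 * a)) (m n : ℕ) :
    (a : ZMod d) ^ m = (a : ZMod d) ^ n ↔ m ≡ n [MOD orderOf (a : ZMod d)] := by
  obtain ⟨u, hu⟩ := isUnit_of_cop h
  rw [← hu, orderOf_units, ← pow_eq_pow_iff_modEq, ← Units.val_pow_eq_pow_val,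
    ← Units.val_pow_eq_pow_val, Units.val_inj]

/-- The weight of a modulus. -/
noncomputable def wt (a d : ℕ) : ℝ :=
  if d.Coprime (2 * a) then (vonMangoldt d : ℝ) / (d * orderOf (a : ZMod d)) else 0

lemma wt_nonneg (a d : ℕ) : 0 ≤ wt a d := by
  unfold wt
  split_ifs
  · exact div_nonneg vonMangoldt_nonneg (by positivity)
  · exact le_rfl

lemma summable_rpow : Summable (fun d : ℕ => 4 / (d : ℝ) ^ (5 / 4 : ℝ)) := by
  have := (Real.summable_one_div_nat_rpow (p := 5 / 4)).2 (by norm_num)
  exact (this.mul_left 4).congr fun d => by rw [mul_one_div]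

lemma summable_wt {a : ℕ} (ha : 3 ≤ a) : Summable (wt a) := by
  classical
  have hs2 : Summable (fun h : ℕ => Real.log a / (h : ℝ) ^ 2) := by
    have := (Real.summable_one_div_nat_pow (p := 2)).2 (by norm_num)
    exact (this.mul_left (Real.log a)).congr fun d => by rw [mul_one_div]
  have hloga : 0 ≤ Real.log a := Real.log_natCast_nonneg a
  refine summable_of_sum_le (c := (∑' d : ℕ, 4 / (d : ℝ) ^ (5 / 4 : ℝ)) +
    ∑' h : ℕ, Real.log a / (h : ℝ) ^ 2) (wt_nonneg a) ?_
  intro s
  have h1 : ∀ d ∈ s, wt a d ≤ 4 / (d : ℝ) ^ (5 / 4 : ℝ) +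
      if (d.Coprime (2 * a) ∧ (orderOf (a : ZMod d)) ^ 2 < d) then
        (vonMangoldt d : ℝ) / (orderOf (a : ZMod d) : ℝ) ^ 3 else 0 := by
    intro d _
    unfold wt
    by_cases hc : d.Coprime (2 * a)
    · have hd := pos_of_cop ha hc
      have hord := order_pos ha hc
      have hd' : (0 : ℝ) < d := by exact_mod_cast hd
      have hord' : (0 : ℝ) < orderOf (a : ZMod d) := by exact_mod_cast hord
      rw [if_pos hc]
      by_cases hlt : (orderOf (a : ZMod d)) ^ 2 < d
      · rw [if_pos ⟨hc, hlt⟩]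
        have h2 : (vonMangoldt d : ℝ) / (d * orderOf (a : ZMod d))
            ≤ (vonMangoldt d : ℝ) / (orderOf (a : ZMod d) : ℝ) ^ 3 := by
          refine div_le_div_of_nonneg_left vonMangoldt_nonneg (by positivity) ?_
          have h3 : ((orderOf (a : ZMod d) : ℝ)) ^ 2 ≤ d := by exact_mod_cast hlt.le
          generalize orderOf (a : ZMod d) = n at *
          calc (n : ℝ) ^ 3 = (n : ℝ) ^ 2 * n := by ring
            _ ≤ (d : ℝ) * n := mul_le_mul_of_nonneg_right h3 hord'.le
        have h3 : 0 ≤ 4 / (d : ℝ) ^ (5 / 4 : ℝ) := by positivity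
        linarith
      · rw [if_neg (by tauto), add_zero]
        push Not at hlt
        have h4 : Real.sqrt d ≤ orderOf (a : ZMod d) := by
          rw [Real.sqrt_le_left hord'.le]
          exact_mod_cast hlt
        have h5 : (vonMangoldt d : ℝ) ≤ 4 * (d : ℝ) ^ (1 / 4 : ℝ) := by
          refine vonMangoldt_le_log.trans ?_
          have := Real.log_le_rpow_div hd'.le (by norm_num : (0 : ℝ) < 1 / 4)
          linarith
        have h6 : (d : ℝ) * orderOf (a : ZMod d) ≥ (d : ℝ) ^ (3 / 2 : ℝ) := by
          have : (d : ℝ) ^ (3 / 2 : ℝ) = d * Real.sqrt d := by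
            rw [Real.sqrt_eq_rpow, ← Real.rpow_one_add' hd'.le (by norm_num)]
            norm_num
          rw [this]
          exact mul_le_mul_of_nonneg_left h4 hd'.le
        calc (vonMangoldt d : ℝ) / (d * orderOf (a : ZMod d))
            ≤ (4 * (d : ℝ) ^ (1 / 4 : ℝ)) / (d : ℝ) ^ (3 / 2 : ℝ) :=
              div_le_div₀ (by positivity) h5 (by positivity) h6
          _ = 4 / (d : ℝ) ^ (5 / 4 : ℝ) := by
              rw [div_eq_div_iff (by positivity) (by positivity), mul_assoc, ← Real.rpow_add hd']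
              norm_num
    · rw [if_neg hc, if_neg (by tauto), add_zero]
      positivity
  refine (sum_le_sum h1).trans ?_
  rw [sum_add_distrib]
  refine add_le_add ?_ ?_
  · exact summable_rpow.sum_le_tsum s (fun d _ => by positivity)
  · rw [← sum_filter]
    set s' := s.filter (fun d => d.Coprime (2 * a) ∧ (orderOf (a : ZMod d)) ^ 2 < d) with hs'
    have h2 : ∑ d ∈ s', (vonMangoldt d : ℝ) / (orderOf (a : ZMod d) : ℝ) ^ 3
        = ∑ h ∈ s'.image (fun d => orderOf (a : ZMod d)),
            ∑ d ∈ s'.filter (fun d => orderOf (a : ZMod d) = h),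
              (vonMangoldt d : ℝ) / (orderOf (a : ZMod d) : ℝ) ^ 3 :=
      (Finset.sum_fiberwise_of_maps_to (fun d hd => mem_image_of_mem _ hd) _).symm
    rw [h2]
    have h3 : ∀ h ∈ s'.image (fun d => orderOf (a : ZMod d)),
        (∑ d ∈ s'.filter (fun d => orderOf (a : ZMod d) = h),
              (vonMangoldt d : ℝ) / (orderOf (a : ZMod d) : ℝ) ^ 3) ≤ Real.log a / (h : ℝ) ^ 2 := by
      intro h hh
      rw [mem_image] at hh
      obtain ⟨d₀, hd₀, rfl⟩ := hh
      rw [hs', mem_filter] at hd₀
      have hord := order_pos ha hd₀.2.1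
      set h := orderOf (a : ZMod d₀) with hh
      have hh' : (0 : ℝ) < h := by exact_mod_cast hord
      have hpow : 1 < a ^ h := Nat.one_lt_pow hord.ne' (by omega)
      have h4 : s'.filter (fun d => orderOf (a : ZMod d) = h) ⊆ (a ^ h - 1).divisors := by
        intro d hd
        rw [mem_filter] at hd
        rw [Nat.mem_divisors]
        refine ⟨?_, by omega⟩
        have h5 : (a : ZMod d) ^ h = 1 := by rw [← hd.2]; exact pow_orderOf_eq_one _
        have h6 : ((a ^ h : ℕ) : ZMod d) = ((1 : ℕ) : ZMod d) := by push_cast; exact h5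
        rw [ZMod.natCast_eq_natCast_iff] at h6
        exact (Nat.modEq_iff_dvd' hpow.le).1 h6.symm
      calc ∑ d ∈ s'.filter (fun d => orderOf (a : ZMod d) = h),
              (vonMangoldt d : ℝ) / (orderOf (a : ZMod d) : ℝ) ^ 3
          = ∑ d ∈ s'.filter (fun d => orderOf (a : ZMod d) = h), (vonMangoldt d : ℝ) / (h : ℝ) ^ 3 := by
            refine sum_congr rfl fun d hd => ?_
            rw [mem_filter] at hd
            rw [hd.2]
        _ = (∑ d ∈ s'.filter (fun d => orderOf (a : ZMod d) = h), (vonMangoldt d : ℝ)) / (h : ℝ) ^ 3 := by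
            rw [sum_div]
        _ ≤ (∑ d ∈ (a ^ h - 1).divisors, (vonMangoldt d : ℝ)) / (h : ℝ) ^ 3 := by
            refine div_le_div_of_nonneg_right ?_ (by positivity)
            exact sum_le_sum_of_subset_of_nonneg h4 (fun _ _ _ => vonMangoldt_nonneg)
        _ = Real.log ((a ^ h - 1 : ℕ) : ℝ) / (h : ℝ) ^ 3 := by rw [vonMangoldt_sum]
        _ ≤ (h * Real.log a) / (h : ℝ) ^ 3 := by
            refine div_le_div_of_nonneg_right ?_ (by positivity)
            rw [← Real.log_pow]
            refine Real.log_le_log (by exact_mod_cast (by omega : 0 < a ^ h - 1)) ?_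
            exact_mod_cast Nat.sub_le _ _
        _ = Real.log a / (h : ℝ) ^ 2 := by field_simp
    refine (sum_le_sum h3).trans ?_
    exact hs2.sum_le_tsum _ (fun h _ => by positivity)

/-- The density of the number of odd terms. -/
noncomputable def rho (a d L : ℕ) : ℝ :=
  open Classical in if ∃ k : ℕ, (a : ZMod d) ^ k = 2 ^ L then 1 / (orderOf (a : ZMod d) : ℝ) else 0

lemma rho_nonneg (a d L : ℕ) : 0 ≤ rho a d L := by
  unfold rho; split_ifs <;> positivity

lemma rho_le (a d L : ℕ) : rho a d L ≤ 1 / (orderOf (a : ZMod d) : ℝ) := by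
  unfold rho
  split_ifs
  · exact le_rfl
  · positivity

lemma density {a d : ℕ} (ha : 3 ≤ a) (h : d.Coprime (2 * a)) (L : ℕ) :
    |(∑ o ∈ range (L + 1), if (a : ZMod d) ^ o = 2 ^ L then (L.choose o : ℝ) else 0)
      - 2 ^ L * rho a d L| ≤ 2 * L.choose (L / 2) := by
  have hord := order_pos ha h
  unfold rho
  split_ifs with hk
  · obtain ⟨k, hk⟩ := hk
    set n := orderOf (a : ZMod d) with hn
    have h1 : ∑ o ∈ range (L + 1), (if (a : ZMod d) ^ o = 2 ^ L then (L.choose o : ℝ) else 0)
        = ∑ q ∈ range (L + 1), (L.choose (q * n + k % n) : ℝ) := by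
      have h2 : ∑ o ∈ range (L + 1), (if (a : ZMod d) ^ o = 2 ^ L then (L.choose o : ℝ) else 0)
          = ∑ o ∈ range ((L + 1) * n), (if o % n = k % n then (L.choose o : ℝ) else 0) := by
        have h3 : ∑ o ∈ range (L + 1), (if (a : ZMod d) ^ o = 2 ^ L then (L.choose o : ℝ) else 0)
            = ∑ o ∈ range (L + 1), (if o % n = k % n then (L.choose o : ℝ) else 0) := by
          refine sum_congr rfl fun o _ => if_congr ?_ rfl rfl
          rw [← hk, pow_eq_iff h]
          exact Iff.rfl
        rw [h3]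
        refine sum_subset ?_ ?_
        · intro x
          simp only [mem_range]
          intro hx
          calc x < L + 1 := hx
            _ ≤ (L + 1) * n := Nat.le_mul_of_pos_right _ hord
        · intro x _ hx
          rw [mem_range] at hx
          rw [Nat.choose_eq_zero_of_lt (by omega)]
          simp
      rw [h2, sum_range_blocks]
      refine sum_congr rfl fun q _ => ?_
      rw [sum_eq_single (k % n)]
      · rw [if_pos]
        rw [Nat.mul_add_mod', Nat.mod_mod]
      · intro r hr hne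
        rw [mem_range] at hr
        rw [if_neg]
        rw [Nat.mul_add_mod', Nat.mod_eq_of_lt hr]
        exact hne
      · intro hcon
        exact absurd (mem_range.2 (Nat.mod_lt _ hord)) hcon
    rw [h1, mul_one_div]
    exact choose_class (Nat.mod_lt _ hord)
  · push Not at hk
    have h1 : ∑ o ∈ range (L + 1), (if (a : ZMod d) ^ o = 2 ^ L then (L.choose o : ℝ) else 0) = 0 := by
      refine sum_eq_zero fun o _ => ?_
      rw [if_neg (hk o)]
    rw [h1]
    simp

end Pool.Agent.W5h45.RC
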