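import Pool.Agent.W5h45.RC.W6
import Pool.Agent.W5h45.RC.W8

/-! The mean of the logarithm of the greatest common divisor of numerator and denominator. -/

namespace Pool.Agent.W5h45.RC
open Finset Filter Topology ArithmeticFunction

/-- `|2 ^ L - a ^ o|`. -/
def DD (a L o : ℕ) : ℕ := ((2 : ℤ) ^ L - (a : ℤ) ^ o).natAbs

lemma DD_odd {a : ℕ} (hodd : Odd a) {L : ℕ} (hL : 1 ≤ L) (o : ℕ) : Odd (DD a L o) := by
  unfold DD
  rw [Int.natAbs_odd]
  have h1 : Even ((2 : ℤ) ^ L) := (even_two).pow_of_ne_zero (by omega)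
  have h2 : Odd ((a : ℤ) ^ o) := by
    have : Odd (a : ℤ) := by exact_mod_cast hodd
    exact this.pow
  exact h1.sub_odd h2

lemma DD_ne_zero {a : ℕ} (hodd : Odd a) {L : ℕ} (hL : 1 ≤ L) (o : ℕ) : DD a L o ≠ 0 := by
  intro h
  have := DD_odd hodd hL o
  rw [h] at this
  simp at this

lemma dvd_DD_iff (a L o d : ℕ) : d ∣ DD a L o ↔ (a : ZMod d) ^ o = 2 ^ L := by
  unfold DD
  rw [← Int.natCast_dvd, ← ZMod.intCast_zmod_eq_zero_iff_dvd]
  push_cast
  rw [sub_eq_zero, eq_comm]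

lemma cop_of_dvd {a : ℕ} (hodd : Odd a) {L : ℕ} (hL : 1 ≤ L) {o : ℕ} (ho : 1 ≤ o) {d : ℕ}
    (hd : d ∣ DD a L o) : d.Coprime (2 * a) := by
  refine Nat.coprime_of_dvd fun p hp hpd hpa => ?_
  have hpD := hpd.trans hd
  have hD := DD_odd hodd hL o
  have hp2 : p ≠ 2 := by
    rintro rfl
    rw [Nat.odd_iff] at hD
    omega
  rcases (Nat.Prime.dvd_mul hp).1 hpa with h | h
  · exact hp2 ((Nat.prime_dvd_prime_iff_eq hp Nat.prime_two).1 h)
  · unfold DD at hpD
    rw [← Int.natCast_dvd] at hpD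
    have h1 : (p : ℤ) ∣ (a : ℤ) ^ o := dvd_pow (Int.natCast_dvd_natCast.2 h) (by omega)
    have h2 : (p : ℤ) ∣ (2 : ℤ) ^ L := by
      have := dvd_add hpD h1
      simpa using this
    have h3 : p ∣ 2 ^ L := by exact_mod_cast h2
    exact hp2 ((Nat.prime_dvd_prime_iff_eq hp Nat.prime_two).1 (hp.dvd_of_dvd_pow h3))

lemma DD_le {a : ℕ} (ha : 3 ≤ a) {L o : ℕ} (ho : o ≤ L) : DD a L o ≤ a ^ L := by
  unfold DD
  have h1 : (2 : ℤ) ^ L ≤ (a : ℤ) ^ L := pow_le_pow_left₀ (by norm_num) (by exact_mod_cast (by omega)) _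
  have h2 : (a : ℤ) ^ o ≤ (a : ℤ) ^ L := pow_le_pow_right₀ (by exact_mod_cast (by omega)) ho
  have h3 : (0 : ℤ) ≤ (2 : ℤ) ^ L := by positivity
  have h4 : (0 : ℤ) ≤ (a : ℤ) ^ o := by positivity
  have h5 : (((2 : ℤ) ^ L - (a : ℤ) ^ o).natAbs : ℤ) ≤ (a : ℤ) ^ L := by
    rw [Int.natCast_natAbs, abs_le]
    constructor <;> linarith
  exact_mod_cast h5

lemma log_DD_le {a : ℕ} (ha : 3 ≤ a) {L o : ℕ} (ho : o ≤ L) :
    Real.log (DD a L o) ≤ L * Real.log a := by
  rw [← Real.log_pow]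
  rcases Nat.eq_zero_or_pos (DD a L o) with h | h
  · rw [h]
    simp only [Nat.cast_zero, Real.log_zero]
    rw [Real.log_pow]
    exact mul_nonneg (Nat.cast_nonneg _) (Real.log_natCast_nonneg a)
  · refine Real.log_le_log (by exact_mod_cast h) ?_
    exact_mod_cast DD_le ha ho

lemma log_gcd {c D : ℕ} (hD : D ≠ 0) :
    Real.log (Nat.gcd c D : ℕ) = ∑ d ∈ D.divisors, if d ∣ c then (vonMangoldt d : ℝ) else 0 := by
  rw [← vonMangoldt_sum, ← sum_filter]
  congr 1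
  ext d
  rw [Nat.mem_divisors, mem_filter, Nat.mem_divisors, Nat.dvd_gcd_iff]
  constructor
  · rintro ⟨⟨h1, h2⟩, h3⟩; exact ⟨⟨h2, hD⟩, h1⟩
  · rintro ⟨⟨h1, h2⟩, h3⟩; exact ⟨⟨h3, h1⟩, Nat.gcd_ne_zero_right hD⟩

/-- The sum over the words with `o` letters `true`. -/
noncomputable def TT (a L o : ℕ) : ℝ :=
  ∑ w ∈ (Wd L).filter (fun w => on w = o), Real.log (Nat.gcd (cw a w) (DD a L o) : ℕ)

lemma TT_eq {a : ℕ} (hodd : Odd a) {L : ℕ} (hL : 1 ≤ L) (o : ℕ) :
    TT a L o = ∑ d ∈ (DD a L o).divisors, (vonMangoldt d : ℝ) * cnt a L o d 0 := by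
  unfold TT
  have h1 : ∀ w ∈ (Wd L).filter (fun w => on w = o),
      Real.log (Nat.gcd (cw a w) (DD a L o) : ℕ)
        = ∑ d ∈ (DD a L o).divisors, if d ∣ cw a w then (vonMangoldt d : ℝ) else 0 :=
    fun w _ => log_gcd (DD_ne_zero hodd hL o)
  rw [sum_congr rfl h1, sum_comm]
  refine sum_congr rfl fun d _ => ?_
  rw [cnt, ← sum_filter, sum_const, nsmul_eq_mul, filter_filter, mul_comm]
  congr 3
  ext w
  simp only [mem_filter, Nat.modEq_zero_iff_dvd]

/-- The main term. -/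
noncomputable def AA (a L Y o : ℕ) : ℝ :=
  ∑ d ∈ range (Y + 1), if d.Coprime (2 * a) ∧ (a : ZMod d) ^ o = 2 ^ L then
    (vonMangoldt d : ℝ) / d * L.choose o else 0

lemma TT_sub_AA {a : ℕ} (ha : 3 ≤ a) (hodd : Odd a) {L : ℕ} (hL : 1 ≤ L) {o : ℕ} (ho : 1 ≤ o)
    (hoL : o ≤ L) {l : ℕ} (hl : l ≤ L) {κ : ℝ} (hκ0 : 0 ≤ κ)
    (hκ : ∀ m, 0 < m → m.Coprime (2 * a) → m ≤ a ^ l → ∀ o y,
      |(cnt a L o m y : ℝ) - (L.choose o : ℝ) / m| ≤ 2 ^ L * κ) :
    |TT a L o - AA a L (a ^ l) o| ≤ (L * Real.log a) * (2 ^ L * κ + 2 ^ (L - l)) := by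
  set Y := a ^ l with hY
  have hA : AA a L Y o = ∑ d ∈ (DD a L o).divisors, if d ≤ Y then
      (vonMangoldt d : ℝ) * (L.choose o / d) else 0 := by
    unfold AA
    rw [← sum_filter, ← sum_filter]
    have hset : (range (Y + 1)).filter (fun d => d.Coprime (2 * a) ∧ (a : ZMod d) ^ o = 2 ^ L)
        = (DD a L o).divisors.filter (fun d => d ≤ Y) := by
      ext d
      rw [mem_filter, mem_filter, mem_range, Nat.mem_divisors, ← dvd_DD_iff]
      constructor
      · rintro ⟨h1, h2, h3⟩; exact ⟨⟨h3, DD_ne_zero hodd hL o⟩, by omega⟩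
      · rintro ⟨⟨h1, h2⟩, h3⟩; exact ⟨by omega, cop_of_dvd hodd hL ho h1, h1⟩
    rw [hset]
    refine sum_congr rfl fun d _ => ?_
    ring
  rw [TT_eq hodd hL, hA, ← sum_sub_distrib]
  have h1 : ∀ d ∈ (DD a L o).divisors, |(vonMangoldt d : ℝ) * cnt a L o d 0 -
      (if d ≤ Y then (vonMangoldt d : ℝ) * (L.choose o / d) else 0)|
      ≤ (vonMangoldt d : ℝ) * (2 ^ L * κ + 2 ^ (L - l)) := by
    intro d hd
    rw [Nat.mem_divisors] at hd
    have hcop := cop_of_dvd hodd hL ho hd.1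
    have hd0 := pos_of_cop ha hcop
    have hΛ : 0 ≤ (vonMangoldt d : ℝ) := vonMangoldt_nonneg
    have hp : (0 : ℝ) ≤ 2 ^ (L - l) := by positivity
    have hp2 : (0 : ℝ) ≤ 2 ^ L * κ := by positivity
    by_cases hdY : d ≤ Y
    · rw [if_pos hdY, ← mul_sub, abs_mul, abs_of_nonneg hΛ]
      refine mul_le_mul_of_nonneg_left ?_ hΛ
      have := hκ d hd0 hcop hdY o 0
      linarith
    · rw [if_neg hdY, sub_zero, abs_mul, abs_of_nonneg hΛ]
      refine mul_le_mul_of_nonneg_left ?_ hΛ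
      rw [abs_of_nonneg (by positivity)]
      have h2 : cnt a L o d 0 ≤ 2 ^ (L - l) :=
        large_moduli ha hodd (Nat.Coprime.coprime_mul_left_right hcop).symm hl (by omega) o 0
      have h3 : (cnt a L o d 0 : ℝ) ≤ 2 ^ (L - l) := by exact_mod_cast h2
      linarith
  refine (abs_sum_le_sum_abs _ _).trans ((sum_le_sum h1).trans ?_)
  rw [← sum_mul, vonMangoldt_sum]
  exact mul_le_mul_of_nonneg_right (log_DD_le ha hoL) (by positivity)

/-- The sum of `Λ(d)/d`. -/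
noncomputable def HH (Y : ℕ) : ℝ := ∑ d ∈ range (Y + 1), (vonMangoldt d : ℝ) / d

lemma HH_nonneg (Y : ℕ) : 0 ≤ HH Y :=
  sum_nonneg fun _ _ => div_nonneg vonMangoldt_nonneg (Nat.cast_nonneg _)

lemma HH_le (Y : ℕ) : HH Y ≤ (1 + Real.log Y) ^ 2 := by
  have hlog : 0 ≤ Real.log Y := Real.log_natCast_nonneg Y
  have h1 : HH Y ≤ ∑ d ∈ range (Y + 1), Real.log Y * (1 / (d : ℝ)) := by
    refine sum_le_sum fun d hd => ?_
    rw [mem_range] at hd
    rcases Nat.eq_zero_or_pos d with h0 | h0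
    · subst h0; simp
    · rw [mul_one_div]
      refine div_le_div_of_nonneg_right (vonMangoldt_le_log.trans ?_) (Nat.cast_nonneg _)
      exact Real.log_le_log (by exact_mod_cast h0) (by exact_mod_cast (by omega))
  have h2 : ∑ d ∈ range (Y + 1), (1 / (d : ℝ)) ≤ 1 + Real.log Y := by
    rw [Finset.sum_range_succ']
    simp only [Nat.cast_zero, div_zero, add_zero]
    have h3 := harmonic_le_one_add_log Y
    rw [harmonic] at h3
    push_cast at h3
    simpa using h3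
  rw [← mul_sum] at h1
  nlinarith

lemma TT_zero {a : ℕ} (ha : 3 ≤ a) (hodd : Odd a) {L : ℕ} (hL : 1 ≤ L) (Y : ℕ) :
    |TT a L 0 - AA a L Y 0| ≤ L * Real.log a + HH Y := by
  have h1 : 0 ≤ TT a L 0 := sum_nonneg fun _ _ => Real.log_natCast_nonneg _
  have h2 : 0 ≤ AA a L Y 0 := by
    refine sum_nonneg fun d _ => ?_
    split_ifs
    · exact mul_nonneg (div_nonneg vonMangoldt_nonneg (Nat.cast_nonneg _)) (Nat.cast_nonneg _)
    · exact le_rfl
  have h3 : TT a L 0 ≤ L * Real.log a := by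
    have h4 : ∀ w ∈ (Wd L).filter (fun w => on w = 0),
        Real.log (Nat.gcd (cw a w) (DD a L 0) : ℕ) ≤ L * Real.log a := by
      intro w _
      refine le_trans ?_ (log_DD_le ha (Nat.zero_le L))
      have h5 := DD_ne_zero hodd hL 0
      refine Real.log_le_log ?_ ?_
      · exact_mod_cast Nat.gcd_pos_of_pos_right _ (Nat.pos_of_ne_zero h5)
      · exact_mod_cast Nat.gcd_le_right _ (Nat.pos_of_ne_zero h5)
    have h5 := sum_le_card_nsmul _ _ _ h4
    rw [card_on, Nat.choose_zero_right, one_smul] at h5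
    exact h5
  have h4 : AA a L Y 0 ≤ HH Y := by
    unfold AA HH
    refine sum_le_sum fun d _ => ?_
    have h5 : 0 ≤ (vonMangoldt d : ℝ) / d := div_nonneg vonMangoldt_nonneg (Nat.cast_nonneg _)
    split_ifs
    · simp
    · exact h5
  rw [abs_le]
  constructor
  · have : 0 ≤ (L : ℝ) * Real.log a := mul_nonneg (Nat.cast_nonneg _) (Real.log_natCast_nonneg a)
    linarith
  · have := HH_nonneg Y
    linarith

/-- The terms of the almost periodic function. -/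
noncomputable def gt (a L d : ℕ) : ℝ :=
  if d.Coprime (2 * a) then (vonMangoldt d : ℝ) / d * rho a d L else 0

lemma gt_nonneg (a L d : ℕ) : 0 ≤ gt a L d := by
  unfold gt
  split_ifs
  · exact mul_nonneg (div_nonneg vonMangoldt_nonneg (Nat.cast_nonneg _)) (rho_nonneg _ _ _)
  · exact le_rfl

lemma gt_le_wt (a L d : ℕ) : gt a L d ≤ wt a d := by
  unfold gt wt
  split_ifs
  · rw [div_mul_eq_div_div_swap, div_right_comm, ← mul_one_div (_ / (d : ℝ))]
    exact mul_le_mul_of_nonneg_left (rho_le _ _ _)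
      (div_nonneg vonMangoldt_nonneg (Nat.cast_nonneg _))
  · exact le_rfl

lemma summable_gt {a : ℕ} (ha : 3 ≤ a) (L : ℕ) : Summable (gt a L) :=
  Summable.of_nonneg_of_le (gt_nonneg a L) (gt_le_wt a L) (summable_wt ha)

/-- The almost periodic function. -/
noncomputable def GG (a L : ℕ) : ℝ := ∑' d, gt a L d

lemma sum_AA {a : ℕ} (ha : 3 ≤ a) (L Y : ℕ) :
    |∑ o ∈ range (L + 1), AA a L Y o - 2 ^ L * ∑ d ∈ range (Y + 1), gt a L d|
      ≤ 2 * L.choose (L / 2) * HH Y := by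
  have h1 : ∑ o ∈ range (L + 1), AA a L Y o = ∑ d ∈ range (Y + 1),
      if d.Coprime (2 * a) then (vonMangoldt d : ℝ) / d *
        ∑ o ∈ range (L + 1), (if (a : ZMod d) ^ o = 2 ^ L then (L.choose o : ℝ) else 0) else 0 := by
    unfold AA
    rw [sum_comm]
    refine sum_congr rfl fun d _ => ?_
    by_cases hc : d.Coprime (2 * a)
    · rw [if_pos hc, mul_sum]
      refine sum_congr rfl fun o _ => ?_
      by_cases ho : (a : ZMod d) ^ o = 2 ^ L
      · rw [if_pos ⟨hc, ho⟩, if_pos ho]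
      · rw [if_neg (fun h => ho h.2), if_neg ho, mul_zero]
    · rw [if_neg hc]
      refine sum_eq_zero fun o _ => ?_
      rw [if_neg (fun h => hc h.1)]
  rw [h1, mul_sum, ← sum_sub_distrib]
  refine (abs_sum_le_sum_abs _ _).trans ?_
  unfold HH
  rw [mul_sum]
  refine sum_le_sum fun d _ => ?_
  have h5 : 0 ≤ (vonMangoldt d : ℝ) / d := div_nonneg vonMangoldt_nonneg (Nat.cast_nonneg _)
  unfold gt
  split_ifs with hc
  · have h6 : (vonMangoldt d : ℝ) / d *
        ∑ o ∈ range (L + 1), (if (a : ZMod d) ^ o = 2 ^ L then (L.choose o : ℝ) else 0)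
        - 2 ^ L * ((vonMangoldt d : ℝ) / d * rho a d L)
        = (vonMangoldt d : ℝ) / d *
        ((∑ o ∈ range (L + 1), (if (a : ZMod d) ^ o = 2 ^ L then (L.choose o : ℝ) else 0))
          - 2 ^ L * rho a d L) := by ring
    rw [h6, abs_mul, abs_of_nonneg h5, mul_comm]
    exact mul_le_mul_of_nonneg_right (density ha hc L) h5
  · simp only [mul_zero, sub_zero, abs_zero]
    positivity

end Pool.Agent.W5h45.RC
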