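import Pool.Agent.W5h45.RC.W9

/-! A sieve lemma: the law of the greatest common divisor with a fixed integer `D` is determined up
to a small error by the densities of the multiples of the small divisors of `D`. -/

namespace Pool.Agent.W5h45.RC
open Finset Filter Topology ArithmeticFunction

/-- Bonferroni inequality, pointwise. -/
lemma bonf (n j : ℕ) : |(if n = 0 then (1 : ℝ) else 0) - ∑ i ∈ range j, (-1 : ℝ) ^ i * n.choose i|
    ≤ n.choose j := by
  cases j with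
  | zero =>
    simp only [range_zero, sum_empty, sub_zero, Nat.choose_zero_right, Nat.cast_one]
    split_ifs <;> simp
  | succ j =>
    cases n with
    | zero =>
      rw [Finset.sum_range_succ']
      simp
    | succ n =>
      have h := Int.alternating_sum_range_choose_eq_choose (n := n) (m := j)
      have h' : (∑ k ∈ range (j + 1), ((-1 : ℝ) ^ k * ((n + 1).choose k : ℝ)))
          = (-1) ^ j * n.choose j := by exact_mod_cast h
      rw [h', if_neg (Nat.succ_ne_zero n), zero_sub, abs_neg, abs_mul, abs_pow, abs_neg, abs_one,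
        one_pow, one_mul, abs_of_nonneg (Nat.cast_nonneg _)]
      have : n.choose j ≤ (n + 1).choose (j + 1) := by
        rw [Nat.choose_succ_succ]; omega
      exact_mod_cast this

variable {Ω : Type*}

/-- The mean of a function on a finite set. -/
noncomputable def Ex (s : Finset Ω) (f : Ω → ℝ) : ℝ := (∑ ω ∈ s, f ω) / s.card

lemma Ex_mono {s : Finset Ω} {f g : Ω → ℝ} (h : ∀ ω ∈ s, f ω ≤ g ω) : Ex s f ≤ Ex s g :=
  div_le_div_of_nonneg_right (sum_le_sum h) (Nat.cast_nonneg _)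

lemma Ex_nonneg {s : Finset Ω} {f : Ω → ℝ} (h : ∀ ω ∈ s, 0 ≤ f ω) : 0 ≤ Ex s f :=
  div_nonneg (sum_nonneg h) (Nat.cast_nonneg _)

lemma Ex_sum {ι : Type*} (s : Finset Ω) (t : Finset ι) (f : ι → Ω → ℝ) :
    Ex s (fun ω => ∑ i ∈ t, f i ω) = ∑ i ∈ t, Ex s (f i) := by
  unfold Ex
  rw [sum_comm, sum_div]

lemma Ex_mul (s : Finset Ω) (c : ℝ) (f : Ω → ℝ) : Ex s (fun ω => c * f ω) = c * Ex s f := by
  unfold Ex
  rw [← mul_sum, mul_div_assoc]

lemma Ex_sub (s : Finset Ω) (f g : Ω → ℝ) : Ex s (fun ω => f ω - g ω) = Ex s f - Ex s g := by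
  unfold Ex
  rw [sum_sub_distrib, sub_div]

lemma Ex_congr {s : Finset Ω} {f g : Ω → ℝ} (h : ∀ ω ∈ s, f ω = g ω) : Ex s f = Ex s g := by
  unfold Ex
  rw [sum_congr rfl h]

lemma abs_Ex_le (s : Finset Ω) (f : Ω → ℝ) : |Ex s f| ≤ Ex s (fun ω => |f ω|) := by
  unfold Ex
  rw [abs_div, abs_of_nonneg (Nat.cast_nonneg _ : (0 : ℝ) ≤ s.card)]
  exact div_le_div_of_nonneg_right (abs_sum_le_sum_abs _ _) (Nat.cast_nonneg _)

/-- The proportion of `ω` with `d ∣ c ω`. -/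
noncomputable def pr (s : Finset Ω) (c : Ω → ℕ) (d : ℕ) : ℝ := Ex s (fun ω => if d ∣ c ω then 1 else 0)

/-- The proportion of `ω` with `gcd (c ω) D = k`. -/
noncomputable def gl (s : Finset Ω) (c : Ω → ℕ) (D k : ℕ) : ℝ :=
  Ex s (fun ω => if Nat.gcd (c ω) D = k then 1 else 0)

/-- The small primes dividing `D / k`. -/
def Pk (D z k : ℕ) : Finset ℕ := (D / k).primeFactors.filter (fun p => p ≤ z)

/-- The truncated sieve expression. -/
noncomputable def gs (D z j k : ℕ) : ℝ :=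
  ∑ i ∈ range j, (-1 : ℝ) ^ i * ∑ S ∈ (Pk D z k).powersetCard i, 1 / ((k * ∏ p ∈ S, p : ℕ) : ℝ)

/-- The divisors used in the sieve. -/
def Kset (D z K : ℕ) : Finset ℕ := D.divisors.filter (fun k => k ≤ K ∧ ∀ p ∈ k.primeFactors, p ≤ z)

lemma mem_Kset {D z K k : ℕ} : k ∈ Kset D z K ↔
    (k ∣ D ∧ D ≠ 0) ∧ k ≤ K ∧ ∀ p, p.Prime → p ∣ k → p ≤ z := by
  rw [Kset, mem_filter, Nat.mem_divisors]
  constructor
  · rintro ⟨h1, h2, h3⟩
    refine ⟨h1, h2, fun p hp hpk => h3 p ?_⟩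
    rw [Nat.mem_primeFactors]
    exact ⟨hp, hpk, ne_zero_of_dvd_ne_zero h1.2 h1.1⟩
  · rintro ⟨h1, h2, h3⟩
    refine ⟨h1, h2, fun p hp => h3 p (Nat.prime_of_mem_primeFactors hp)
      (Nat.dvd_of_mem_primeFactors hp)⟩

/-- The indicator function of the event that `k` divides `c ω` and no `k p` does, `p ≤ z`. -/
noncomputable def Ak (c : Ω → ℕ) (D z k : ℕ) (ω : Ω) : ℝ :=
  open Classical in if k ∣ c ω ∧ ∀ p ∈ Pk D z k, ¬ (k * p ∣ c ω) then 1 else 0

lemma card_sets {D z k i : ℕ} (hk : 0 < k) {m : ℕ} (hkm : k ∣ m) :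
    ((Pk D z k).powersetCard i).filter (fun S => k * ∏ p ∈ S, p ∣ m)
      = ((Pk D z k).filter (fun p => k * p ∣ m)).powersetCard i := by
  obtain ⟨m', rfl⟩ := hkm
  ext S
  rw [mem_filter, mem_powersetCard, mem_powersetCard]
  have h1 : ∀ n : ℕ, k * n ∣ k * m' ↔ n ∣ m' := fun n => Nat.mul_dvd_mul_iff_left hk
  simp only [h1]
  constructor
  · rintro ⟨⟨h2, h3⟩, h4⟩
    refine ⟨?_, h3⟩
    intro p hp
    rw [mem_filter]
    exact ⟨h2 hp, (Finset.dvd_prod_of_mem _ hp).trans h4⟩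
  · rintro ⟨h2, h3⟩
    refine ⟨⟨fun p hp => (mem_filter.1 (h2 hp)).1, h3⟩, ?_⟩
    refine Finset.prod_primes_dvd _ (fun p hp => ?_) (fun p hp => (mem_filter.1 (h2 hp)).2)
    have := (mem_filter.1 (h2 hp)).1
    rw [Pk, mem_filter, Nat.mem_primeFactors] at this
    exact this.1.1.prime

/-- The truncated sieve, for one divisor. -/
lemma sieve_one {s : Finset Ω} {c : Ω → ℕ} {D z j k : ℕ} (hk : 0 < k) :
    |Ex s (Ak c D z k) - ∑ i ∈ range j, (-1 : ℝ) ^ i *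
      ∑ S ∈ (Pk D z k).powersetCard i, pr s c (k * ∏ p ∈ S, p)|
      ≤ ∑ S ∈ (Pk D z k).powersetCard j, pr s c (k * ∏ p ∈ S, p) := by
  classical
  -- the number of primes
  set nn : Ω → ℕ := fun ω => ((Pk D z k).filter (fun p => k * p ∣ c ω)).card with hnn
  have hchoose : ∀ (ω : Ω) (i : ℕ), k ∣ c ω →
      (∑ S ∈ (Pk D z k).powersetCard i, if k * ∏ p ∈ S, p ∣ c ω then (1 : ℝ) else 0)
        = (nn ω).choose i := by
    intro ω i hω
    rw [← sum_filter, card_sets hk hω, sum_const, card_powersetCard]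
    simp [hnn]
  have hzero : ∀ (ω : Ω) (i : ℕ), ¬ k ∣ c ω →
      (∑ S ∈ (Pk D z k).powersetCard i, if k * ∏ p ∈ S, p ∣ c ω then (1 : ℝ) else 0) = 0 := by
    intro ω i hω
    refine sum_eq_zero fun S _ => ?_
    rw [if_neg]
    intro h
    exact hω ((Dvd.intro _ rfl).trans h)
  have hsum : ∀ i, (∑ S ∈ (Pk D z k).powersetCard i, pr s c (k * ∏ p ∈ S, p))
      = Ex s (fun ω => ∑ S ∈ (Pk D z k).powersetCard i,
          if k * ∏ p ∈ S, p ∣ c ω then (1 : ℝ) else 0) := by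
    intro i
    rw [Ex_sum]
    rfl
  simp only [hsum]
  have h1 : ∑ i ∈ range j, (-1 : ℝ) ^ i * Ex s (fun ω => ∑ S ∈ (Pk D z k).powersetCard i,
          if k * ∏ p ∈ S, p ∣ c ω then (1 : ℝ) else 0)
      = Ex s (fun ω => ∑ i ∈ range j, (-1 : ℝ) ^ i * ∑ S ∈ (Pk D z k).powersetCard i,
          if k * ∏ p ∈ S, p ∣ c ω then (1 : ℝ) else 0) := by
    rw [Ex_sum]
    refine sum_congr rfl fun i _ => ?_
    rw [Ex_mul]
  rw [h1, ← Ex_sub]
  refine (abs_Ex_le _ _).trans (Ex_mono fun ω _ => ?_)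
  by_cases hω : k ∣ c ω
  · simp only [hchoose ω _ hω]
    have h2 : Ak c D z k ω = if nn ω = 0 then (1 : ℝ) else 0 := by
      unfold Ak
      refine if_congr ?_ rfl rfl
      simp only [hnn, card_eq_zero, filter_eq_empty_iff]
      exact and_iff_right hω
    rw [h2]
    exact bonf _ _
  · simp only [hzero ω _ hω]
    have h2 : Ak c D z k ω = 0 := by
      unfold Ak
      rw [if_neg (fun h => hω h.1)]
    rw [h2]
    simp

/-- Rankin's trick for the sum over the sets of size `j`. -/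
lemma rankin {T : Finset ℕ} {z j : ℕ} (hT : ∀ p ∈ T, 0 < p ∧ p ≤ z) :
    ∑ S ∈ T.powersetCard j, 1 / ((∏ p ∈ S, p : ℕ) : ℝ) ≤ Real.exp (3 * (1 + Real.log z) - j) := by
  have h1 : ∑ S ∈ T.powersetCard j, 1 / ((∏ p ∈ S, p : ℕ) : ℝ)
      = (Real.exp 1) ^ (-(j : ℤ)) * ∑ S ∈ T.powersetCard j, ∏ p ∈ S, (Real.exp 1 * (1 / (p : ℝ))) := by
    rw [mul_sum]
    refine sum_congr rfl fun S hS => ?_
    rw [mem_powersetCard] at hS
    rw [prod_mul_distrib, prod_const, hS.2, ← mul_assoc, zpow_neg, zpow_natCast,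
      inv_mul_cancel₀ (by positivity), one_mul]
    push_cast
    rw [one_div, ← prod_inv_distrib]
    simp only [one_div]
  have h2 : ∑ S ∈ T.powersetCard j, ∏ p ∈ S, (Real.exp 1 * (1 / (p : ℝ)))
      ≤ ∏ p ∈ T, (1 + Real.exp 1 * (1 / (p : ℝ))) := by
    rw [prod_one_add]
    refine sum_le_sum_of_subset_of_nonneg ?_ (fun S _ _ => prod_nonneg fun p _ => by positivity)
    intro S hS
    rw [mem_powersetCard] at hS
    rw [mem_powerset]
    exact hS.1
  have h3 : ∏ p ∈ T, (1 + Real.exp 1 * (1 / (p : ℝ))) ≤ Real.exp (3 * (1 + Real.log z)) := by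
    refine (Real.prod_one_add_le_exp_sum T (fun p => by positivity)).trans (Real.exp_le_exp.2 ?_)
    rw [← mul_sum]
    have h4 : ∑ p ∈ T, 1 / (p : ℝ) ≤ 1 + Real.log z := by
      have h5 := harmonic_le_one_add_log z
      rw [harmonic] at h5
      push_cast at h5
      refine le_trans ?_ h5
      have h6 : ∑ p ∈ T, 1 / (p : ℝ) ≤ ∑ p ∈ Ico 1 (z + 1), 1 / (p : ℝ) := by
        refine sum_le_sum_of_subset_of_nonneg ?_ (fun _ _ _ => by positivity)
        intro p hp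
        have := hT p hp
        rw [mem_Ico]
        omega
      refine h6.trans (le_of_eq ?_)
      rw [Finset.sum_Ico_eq_sum_range]
      simp only [Nat.add_sub_cancel]
      refine sum_congr rfl fun i _ => ?_
      push_cast
      rw [one_div, add_comm]
    have h5 : Real.exp 1 ≤ 3 := by
      have := Real.exp_one_lt_d9
      linarith
    have h6 : 0 ≤ ∑ p ∈ T, 1 / (p : ℝ) := sum_nonneg fun _ _ => by positivity
    calc Real.exp 1 * ∑ p ∈ T, 1 / (p : ℝ) ≤ 3 * ∑ p ∈ T, 1 / (p : ℝ) :=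
          mul_le_mul_of_nonneg_right h5 h6
      _ ≤ 3 * (1 + Real.log z) := by linarith
  rw [h1, sub_eq_add_neg, add_comm (3 * (1 + Real.log z)), Real.exp_add]
  have h4 : (Real.exp 1) ^ (-(j : ℤ)) = Real.exp (-(j : ℝ)) := by
    rw [zpow_neg, zpow_natCast, ← Real.exp_nat_mul, ← Real.exp_neg, mul_one]
  rw [h4]
  exact mul_le_mul_of_nonneg_left (h2.trans h3) (Real.exp_pos _).le

lemma Pk_prop {D z k p : ℕ} (hp : p ∈ Pk D z k) : p.Prime ∧ p ∣ D / k ∧ p ≤ z := by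
  rw [Pk, mem_filter, Nat.mem_primeFactors] at hp
  exact ⟨hp.1.1, hp.1.2.1, hp.2⟩

lemma prod_bound {D z k i j : ℕ} (hz : 1 ≤ z) (hij : i ≤ j) {S : Finset ℕ}
    (hS : S ∈ (Pk D z k).powersetCard i) : ∏ p ∈ S, p ≤ z ^ j := by
  rw [mem_powersetCard] at hS
  calc ∏ p ∈ S, p ≤ ∏ p ∈ S, z := prod_le_prod' fun p hp => (Pk_prop (hS.1 hp)).2.2
    _ = z ^ i := by rw [prod_const, hS.2]
    _ ≤ z ^ j := Nat.pow_le_pow_right hz hij

lemma prod_dvd {D z k i : ℕ} (hkD : k ∣ D) {S : Finset ℕ}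
    (hS : S ∈ (Pk D z k).powersetCard i) : k * ∏ p ∈ S, p ∣ D := by
  rw [mem_powersetCard] at hS
  have h1 : ∏ p ∈ S, p ∣ D / k :=
    Finset.prod_primes_dvd _ (fun p hp => (Pk_prop (hS.1 hp)).1.prime)
      (fun p hp => (Pk_prop (hS.1 hp)).2.1)
  calc k * ∏ p ∈ S, p ∣ k * (D / k) := Nat.mul_dvd_mul_left k h1
    _ = D := Nat.mul_div_cancel' hkD

lemma card_Pk {D z k : ℕ} : (Pk D z k).card ≤ z := by
  have h1 : Pk D z k ⊆ Ico 1 (z + 1) := by
    intro p hp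
    have := Pk_prop hp
    have := this.1.pos
    rw [mem_Ico]
    omega
  have := card_le_card h1
  rw [Nat.card_Ico] at this
  omega

/-- Comparison of the event with the truncated sieve expression. -/
lemma sieve_two {s : Finset Ω} {c : Ω → ℕ} {D z j k K : ℕ} (hk : 0 < k) (hkD : k ∣ D) (hkK : k ≤ K)
    (hz : 1 ≤ z) {η : ℝ} (hη : 0 ≤ η)
    (H1 : ∀ d, d ∣ D → d ≤ K * z ^ j → |pr s c d - 1 / (d : ℝ)| ≤ η) :
    |Ex s (Ak c D z k) - gs D z j k| ≤ (2 * j + 1) * z ^ j * η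
      + 1 / (k : ℝ) * Real.exp (3 * (1 + Real.log z) - j) := by
  have hk' : (0 : ℝ) < k := by exact_mod_cast hk
  have hp : ∀ i ≤ j, ∀ S ∈ (Pk D z k).powersetCard i,
      |pr s c (k * ∏ p ∈ S, p) - 1 / ((k * ∏ p ∈ S, p : ℕ) : ℝ)| ≤ η := by
    intro i hi S hS
    refine H1 _ (prod_dvd hkD hS) ?_
    exact Nat.mul_le_mul hkK (prod_bound hz hi hS)
  have hcard : ∀ i ≤ j, (((Pk D z k).powersetCard i).card : ℝ) ≤ z ^ j := by
    intro i hi
    rw [card_powersetCard]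
    have h1 : (Pk D z k).card.choose i ≤ z ^ j :=
      ((Nat.choose_le_pow _ _).trans (Nat.pow_le_pow_left card_Pk _)).trans
        (Nat.pow_le_pow_right hz hi)
    exact_mod_cast h1
  have h1 := sieve_one (s := s) (c := c) (D := D) (z := z) (j := j) hk
  have h2 : |∑ i ∈ range j, (-1 : ℝ) ^ i * ∑ S ∈ (Pk D z k).powersetCard i, pr s c (k * ∏ p ∈ S, p)
      - gs D z j k| ≤ j * (z ^ j * η) := by
    unfold gs
    rw [← sum_sub_distrib]
    refine (abs_sum_le_sum_abs _ _).trans ?_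
    have h3 : ∀ i ∈ range j, |(-1 : ℝ) ^ i * ∑ S ∈ (Pk D z k).powersetCard i, pr s c (k * ∏ p ∈ S, p)
        - (-1 : ℝ) ^ i * ∑ S ∈ (Pk D z k).powersetCard i, 1 / ((k * ∏ p ∈ S, p : ℕ) : ℝ)|
        ≤ z ^ j * η := by
      intro i hi
      rw [mem_range] at hi
      rw [← mul_sub, abs_mul, abs_pow, abs_neg, abs_one, one_pow, one_mul, ← sum_sub_distrib]
      refine (abs_sum_le_sum_abs _ _).trans ((sum_le_card_nsmul _ _ _ (hp i hi.le)).trans ?_)
      rw [nsmul_eq_mul]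
      exact mul_le_mul_of_nonneg_right (hcard i hi.le) hη
    refine (sum_le_card_nsmul _ _ _ h3).trans (le_of_eq ?_)
    rw [card_range, nsmul_eq_mul]
  have h3 : ∑ S ∈ (Pk D z k).powersetCard j, pr s c (k * ∏ p ∈ S, p)
      ≤ z ^ j * η + 1 / (k : ℝ) * Real.exp (3 * (1 + Real.log z) - j) := by
    have h4 : ∀ S ∈ (Pk D z k).powersetCard j, pr s c (k * ∏ p ∈ S, p)
        ≤ η + 1 / (k : ℝ) * (1 / ((∏ p ∈ S, p : ℕ) : ℝ)) := by
      intro S hS
      have h5 := hp j le_rfl S hS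
      rw [abs_le] at h5
      have h6 : 1 / ((k * ∏ p ∈ S, p : ℕ) : ℝ) = 1 / (k : ℝ) * (1 / ((∏ p ∈ S, p : ℕ) : ℝ)) := by
        push_cast
        rw [one_div_mul_one_div]
      linarith [h5.2]
    refine (sum_le_sum h4).trans ?_
    rw [sum_add_distrib, sum_const, nsmul_eq_mul, ← mul_sum]
    refine add_le_add (mul_le_mul_of_nonneg_right (hcard j le_rfl) hη) ?_
    refine mul_le_mul_of_nonneg_left (rankin fun p hp => ?_) (by positivity)
    have := Pk_prop hp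
    exact ⟨this.1.pos, this.2.2⟩
  have h4 : |Ex s (Ak c D z k) - gs D z j k| ≤
      |Ex s (Ak c D z k) - ∑ i ∈ range j, (-1 : ℝ) ^ i *
      ∑ S ∈ (Pk D z k).powersetCard i, pr s c (k * ∏ p ∈ S, p)|
      + |∑ i ∈ range j, (-1 : ℝ) ^ i * ∑ S ∈ (Pk D z k).powersetCard i, pr s c (k * ∏ p ∈ S, p)
      - gs D z j k| := abs_sub_le _ _ _
  have h5 : (j : ℝ) * (z ^ j * η) + z ^ j * η ≤ (2 * j + 1) * z ^ j * η := by
    have : 0 ≤ (j : ℝ) * (z ^ j * η) := by positivity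
    nlinarith
  linarith

end Pool.Agent.W5h45.RC
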