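import Pool.Agent.W5h45.RC.X1

/-! The sieve theorem for the law of the greatest common divisor. -/

namespace Pool.Agent.W5h45.RC
open Finset Filter Topology ArithmeticFunction

variable {Ω : Type*}

lemma Ak_eq_one {c : Ω → ℕ} {D z k : ℕ} {ω : Ω} (h : Ak c D z k ω ≠ 0) :
    k ∣ c ω ∧ ∀ p ∈ Pk D z k, ¬ (k * p ∣ c ω) := by
  unfold Ak at h
  by_contra hcon
  rw [if_neg hcon] at h
  exact h rfl

lemma Ak_nonneg (c : Ω → ℕ) (D z k : ℕ) (ω : Ω) : 0 ≤ Ak c D z k ω := by
  unfold Ak; split_ifs <;> norm_num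

lemma Ak_le_one (c : Ω → ℕ) (D z k : ℕ) (ω : Ω) : Ak c D z k ω ≤ 1 := by
  unfold Ak; split_ifs <;> norm_num

lemma mem_Pk {D z k p : ℕ} (hD : D ≠ 0) (hkD : k ∣ D) (hp : p.Prime) (hpz : p ≤ z)
    (hkp : k * p ∣ D) : p ∈ Pk D z k := by
  rw [Pk, mem_filter, Nat.mem_primeFactors]
  have hk : 0 < k := Nat.pos_of_dvd_of_pos hkD (Nat.pos_of_ne_zero hD)
  refine ⟨⟨hp, ?_, ?_⟩, hpz⟩
  · obtain ⟨m, hm⟩ := hkp
    rw [hm, mul_assoc, Nat.mul_div_cancel_left _ hk]
    exact Dvd.intro _ rfl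
  · exact (Nat.div_pos (Nat.le_of_dvd (Nat.pos_of_ne_zero hD) hkD) hk).ne'

lemma Ak_disjoint {c : Ω → ℕ} {D z K k k' : ℕ} {ω : Ω} (hk : k ∈ Kset D z K) (hk' : k' ∈ Kset D z K)
    (h : Ak c D z k ω ≠ 0) (h' : Ak c D z k' ω ≠ 0) : k' ∣ k := by
  rw [mem_Kset] at hk hk'
  obtain ⟨h1, h2⟩ := Ak_eq_one h
  obtain ⟨h1', h2'⟩ := Ak_eq_one h'
  have hD := hk.1.2
  have hk0 : 0 < k := Nat.pos_of_dvd_of_pos hk.1.1 (Nat.pos_of_ne_zero hD)
  by_contra hcon
  -- a prime dividing lcm / k
  have hM : Nat.lcm k k' ≠ k := by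
    intro h3
    exact hcon (h3 ▸ Nat.dvd_lcm_right k k')
  obtain ⟨m, hm⟩ := Nat.dvd_lcm_left k k'
  have hm1 : m ≠ 1 := by
    rintro rfl
    exact hM (by rw [hm, mul_one])
  obtain ⟨p, hp, hpm⟩ := Nat.exists_prime_and_dvd hm1
  have hkp : k * p ∣ Nat.lcm k k' := by rw [hm]; exact Nat.mul_dvd_mul_left k hpm
  have hMc : Nat.lcm k k' ∣ c ω := Nat.lcm_dvd h1 h1'
  have hMD : Nat.lcm k k' ∣ D := Nat.lcm_dvd hk.1.1 hk'.1.1
  have hpk' : p ∣ k' := by
    have h3 : Nat.gcd k k' * (k * m) = k * k' := by rw [← hm]; exact Nat.gcd_mul_lcm k k'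
    have h4 : Nat.gcd k k' * m = k' := by
      have : k * (Nat.gcd k k' * m) = k * k' := by rw [← h3]; ring
      exact Nat.eq_of_mul_eq_mul_left hk0 this
    rw [← h4]
    exact hpm.mul_left _
  have hpz : p ≤ z := hk'.2.2 p hp hpk'
  exact h2 p (mem_Pk hD hk.1.1 hp hpz (hkp.trans hMD)) (hkp.trans hMc)

lemma sum_Ak_le (c : Ω → ℕ) (D z K : ℕ) (ω : Ω) : ∑ k ∈ Kset D z K, Ak c D z k ω ≤ 1 := by
  classical
  have h1 : ∑ k ∈ Kset D z K, Ak c D z k ω = ∑ k ∈ (Kset D z K).filter (fun k => Ak c D z k ω ≠ 0),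
      Ak c D z k ω := by
    rw [sum_filter]
    refine sum_congr rfl fun k _ => ?_
    split_ifs with h
    · rfl
    · push Not at h; exact h
  rw [h1]
  refine (sum_le_card_nsmul _ _ 1 (fun k _ => Ak_le_one _ _ _ _ _)).trans ?_
  have h2 : ((Kset D z K).filter (fun k => Ak c D z k ω ≠ 0)).card ≤ 1 := by
    rw [card_le_one]
    intro k hk k' hk'
    rw [mem_filter] at hk hk'
    exact Nat.dvd_antisymm (Ak_disjoint hk'.1 hk.1 hk'.2 hk.2) (Ak_disjoint hk.1 hk'.1 hk.2 hk'.2)
  rw [nsmul_eq_mul, mul_one]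
  exact_mod_cast h2

/-- The indicator of the event that `c ω` is divisible by a large prime factor of `D`. -/
noncomputable def big (c : Ω → ℕ) (D z : ℕ) (ω : Ω) : ℝ :=
  ∑ p ∈ D.primeFactors.filter (fun p => z < p), if p ∣ c ω then (1 : ℝ) else 0

lemma big_nonneg (c : Ω → ℕ) (D z : ℕ) (ω : Ω) : 0 ≤ big c D z ω :=
  sum_nonneg fun _ _ => by split_ifs <;> norm_num

lemma one_le_big {c : Ω → ℕ} {D z : ℕ} {ω : Ω} (hD : D ≠ 0)
    (h : ∃ p, p.Prime ∧ p ∣ Nat.gcd (c ω) D ∧ z < p) : 1 ≤ big c D z ω := by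
  obtain ⟨p, hp, hpg, hpz⟩ := h
  have hm : p ∈ D.primeFactors.filter (fun p => z < p) := by
    rw [mem_filter, Nat.mem_primeFactors]
    exact ⟨⟨hp, hpg.trans (Nat.gcd_dvd_right _ _), hD⟩, hpz⟩
  have h1 : (if p ∣ c ω then (1 : ℝ) else 0) ≤ big c D z ω :=
    single_le_sum (f := fun p => if p ∣ c ω then (1 : ℝ) else 0)
      (fun _ _ => by split_ifs <;> norm_num) hm
  rwa [if_pos (hpg.trans (Nat.gcd_dvd_left _ _))] at h1

lemma gcd_le_Ak {c : Ω → ℕ} {D z K k : ℕ} {ω : Ω} (hk : k ∈ Kset D z K) :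
    (if Nat.gcd (c ω) D = k then (1 : ℝ) else 0) ≤ Ak c D z k ω := by
  rw [mem_Kset] at hk
  split_ifs with h
  · unfold Ak
    rw [if_pos]
    refine ⟨h ▸ Nat.gcd_dvd_left _ _, fun p hp hkp => ?_⟩
    have hpp := Pk_prop hp
    have hk0 : 0 < k := Nat.pos_of_dvd_of_pos hk.1.1 (Nat.pos_of_ne_zero hk.1.2)
    have h1 : k * p ∣ D := by
      calc k * p ∣ k * (D / k) := Nat.mul_dvd_mul_left k hpp.2.1
        _ = D := Nat.mul_div_cancel' hk.1.1
    have h2 : k * p ∣ k := by
      conv_rhs => rw [← h]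
      exact Nat.dvd_gcd hkp h1
    have h3 : k * p ≤ k := Nat.le_of_dvd hk0 h2
    have h4 := hpp.1.two_le
    nlinarith
  · exact Ak_nonneg _ _ _ _ _

lemma sum_diff_le {c : Ω → ℕ} {D z K : ℕ} (hD : D ≠ 0) (ω : Ω) :
    ∑ k ∈ Kset D z K, (Ak c D z k ω - if Nat.gcd (c ω) D = k then (1 : ℝ) else 0) ≤ big c D z ω := by
  by_cases hbig : ∃ p, p.Prime ∧ p ∣ Nat.gcd (c ω) D ∧ z < p
  · refine le_trans ?_ (one_le_big hD hbig)
    rw [sum_sub_distrib]
    have h1 := sum_Ak_le c D z K ω
    have h2 : 0 ≤ ∑ k ∈ Kset D z K, (if Nat.gcd (c ω) D = k then (1 : ℝ) else 0) :=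
      sum_nonneg fun _ _ => by split_ifs <;> norm_num
    linarith
  · refine le_trans (le_of_eq ?_) (big_nonneg c D z ω)
    refine sum_eq_zero fun k hk => ?_
    rw [sub_eq_zero]
    have hk' := hk
    rw [mem_Kset] at hk'
    by_cases hA : Ak c D z k ω = 0
    · rw [hA]
      have := gcd_le_Ak (c := c) (ω := ω) hk
      rw [hA] at this
      have h2 : 0 ≤ (if Nat.gcd (c ω) D = k then (1 : ℝ) else 0) := by split_ifs <;> norm_num
      linarith
    · obtain ⟨h1, h2⟩ := Ak_eq_one hA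
      have hg : Nat.gcd (c ω) D = k := by
        have hkg : k ∣ Nat.gcd (c ω) D := Nat.dvd_gcd h1 hk'.1.1
        by_contra hne
        obtain ⟨m, hm⟩ := hkg
        have hm1 : m ≠ 1 := by
          rintro rfl
          exact hne (by rw [hm, mul_one])
        obtain ⟨p, hp, hpm⟩ := Nat.exists_prime_and_dvd hm1
        have hkp : k * p ∣ Nat.gcd (c ω) D := by rw [hm]; exact Nat.mul_dvd_mul_left k hpm
        have hpg : p ∣ Nat.gcd (c ω) D := (Dvd.intro_left k rfl).trans hkp
        have hpz : p ≤ z := by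
          by_contra hcon
          push Not at hcon
          exact hbig ⟨p, hp, hpg, hcon⟩
        exact h2 p (mem_Pk hD hk'.1.1 hp hpz (hkp.trans (Nat.gcd_dvd_right _ _)))
          (hkp.trans (Nat.gcd_dvd_left _ _))
      rw [if_pos hg]
      unfold Ak
      rw [if_pos ⟨h1, h2⟩]

/-- The sieve theorem. -/
theorem sieve_law {s : Finset Ω} {c : Ω → ℕ} {D z j K : ℕ} (hD : D ≠ 0)
    (hz : 1 ≤ z) (hK : 2 ≤ K) (hj : 1 ≤ j) {η τ : ℝ} (hη : 0 ≤ η) (hτ : 0 ≤ τ)
    (H1 : ∀ d, d ∣ D → d ≤ K * z ^ j → |pr s c d - 1 / (d : ℝ)| ≤ η)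
    (H2 : ∀ d, d ∣ D → z < d → pr s c d ≤ τ) :
    ∑ k ∈ D.divisors, |gl s c D k - if k ∈ Kset D z K then gs D z j k else 0|
      ≤ 2 * (D.primeFactors.card * τ) + (HH z + (η + τ) * Real.log D) / Real.log K
        + (K * ((2 * j + 1) * z ^ j * η) + (1 + Real.log K) * Real.exp (3 * (1 + Real.log z) - j)) := by
  classical
  have hlogK : 0 < Real.log K := Real.log_pos (by exact_mod_cast (by omega : 1 < K))
  -- the mean of `big`
  have hbig : Ex s (big c D z) ≤ D.primeFactors.card * τ := by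
    have h1 : Ex s (big c D z) = ∑ p ∈ D.primeFactors.filter (fun p => z < p), pr s c p := by
      unfold big pr
      exact Ex_sum s _ _
    rw [h1]
    have h2 : ∀ p ∈ D.primeFactors.filter (fun p => z < p), pr s c p ≤ τ := by
      intro p hp
      rw [mem_filter] at hp
      exact H2 p (Nat.dvd_of_mem_primeFactors hp.1) hp.2
    refine (sum_le_card_nsmul _ _ _ h2).trans ?_
    rw [nsmul_eq_mul]
    refine mul_le_mul_of_nonneg_right ?_ hτ
    exact_mod_cast card_filter_le _ _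
  -- splitting
  have hsub : Kset D z K ⊆ D.divisors := filter_subset _ _
  rw [← sum_sdiff hsub]
  -- the first part
  have p1 : ∑ k ∈ D.divisors \ Kset D z K, |gl s c D k - if k ∈ Kset D z K then gs D z j k else 0|
      ≤ D.primeFactors.card * τ + (HH z + (η + τ) * Real.log D) / Real.log K := by
    have h1 : ∑ k ∈ D.divisors \ Kset D z K, |gl s c D k - if k ∈ Kset D z K then gs D z j k else 0|
        = Ex s (fun ω => ∑ k ∈ D.divisors \ Kset D z K,
          if Nat.gcd (c ω) D = k then (1 : ℝ) else 0) := by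
      rw [Ex_sum]
      refine sum_congr rfl fun k hk => ?_
      rw [Finset.mem_sdiff] at hk
      rw [if_neg hk.2, sub_zero, abs_of_nonneg]
      · rfl
      · exact Ex_nonneg fun ω _ => by split_ifs <;> norm_num
    rw [h1]
    have h2 : ∀ ω ∈ s, (∑ k ∈ D.divisors \ Kset D z K, if Nat.gcd (c ω) D = k then (1 : ℝ) else 0)
        ≤ big c D z ω + 1 / Real.log K * Real.log (Nat.gcd (c ω) D : ℕ) := by
      intro ω _
      rw [sum_ite_eq]
      have hlg : 0 ≤ 1 / Real.log K * Real.log (Nat.gcd (c ω) D : ℕ) :=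
        mul_nonneg (by positivity) (Real.log_natCast_nonneg _)
      have hbn := big_nonneg c D z ω
      split_ifs with hmem
      · rw [Finset.mem_sdiff, mem_Kset] at hmem
        by_cases hbig : ∃ p, p.Prime ∧ p ∣ Nat.gcd (c ω) D ∧ z < p
        · have := one_le_big hD hbig
          linarith
        · have hgK : K < Nat.gcd (c ω) D := by
            by_contra hcon
            push Not at hcon
            apply hmem.2
            refine ⟨⟨Nat.gcd_dvd_right _ _, hD⟩, hcon, fun p hp hpg => ?_⟩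
            by_contra hcon2
            push Not at hcon2
            exact hbig ⟨p, hp, hpg, hcon2⟩
          have h3 : Real.log K ≤ Real.log (Nat.gcd (c ω) D : ℕ) :=
            Real.log_le_log (by exact_mod_cast (by omega : 0 < K)) (by exact_mod_cast hgK.le)
          have h4 : 1 ≤ 1 / Real.log K * Real.log (Nat.gcd (c ω) D : ℕ) := by
            rw [one_div, inv_mul_eq_div, le_div_iff₀ hlogK, one_mul]
            exact h3
          linarith
      · linarith
    refine (Ex_mono h2).trans ?_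
    have h3 : Ex s (fun ω => big c D z ω + 1 / Real.log K * Real.log (Nat.gcd (c ω) D : ℕ))
        = Ex s (big c D z) + 1 / Real.log K * Ex s (fun ω => Real.log (Nat.gcd (c ω) D : ℕ)) := by
      unfold Ex
      rw [sum_add_distrib, add_div, ← mul_sum, mul_div_assoc]
    rw [h3]
    refine add_le_add hbig ?_
    rw [one_div, inv_mul_eq_div]
    refine div_le_div_of_nonneg_right ?_ hlogK.le
    -- the mean of the logarithm
    have h4 : Ex s (fun ω => Real.log (Nat.gcd (c ω) D : ℕ))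
        = ∑ d ∈ D.divisors, (vonMangoldt d : ℝ) * pr s c d := by
      have h5 : Ex s (fun ω => Real.log (Nat.gcd (c ω) D : ℕ))
          = Ex s (fun ω => ∑ d ∈ D.divisors, (vonMangoldt d : ℝ) * if d ∣ c ω then (1 : ℝ) else 0) := by
        refine Ex_congr fun ω _ => ?_
        rw [log_gcd hD]
        refine sum_congr rfl fun d _ => ?_
        rw [mul_ite, mul_one, mul_zero]
      rw [h5, Ex_sum]
      refine sum_congr rfl fun d _ => ?_
      rw [Ex_mul]
      rfl
    rw [h4]
    have h5 : ∀ d ∈ D.divisors, (vonMangoldt d : ℝ) * pr s c d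
        ≤ (if d ≤ z then (vonMangoldt d : ℝ) / d else 0) + (vonMangoldt d : ℝ) * (η + τ) := by
      intro d hd
      rw [Nat.mem_divisors] at hd
      have hΛ : 0 ≤ (vonMangoldt d : ℝ) := vonMangoldt_nonneg
      split_ifs with hdz
      · have hle : d ≤ K * z ^ j := by
          calc d ≤ z := hdz
            _ = z ^ 1 := (pow_one z).symm
            _ ≤ z ^ j := Nat.pow_le_pow_right hz hj
            _ ≤ K * z ^ j := Nat.le_mul_of_pos_left _ (by omega)
        have h6 := H1 d hd.1 hle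
        rw [abs_le] at h6
        have h7 : pr s c d ≤ 1 / (d : ℝ) + (η + τ) := by linarith [h6.2]
        calc (vonMangoldt d : ℝ) * pr s c d ≤ (vonMangoldt d : ℝ) * (1 / (d : ℝ) + (η + τ)) :=
              mul_le_mul_of_nonneg_left h7 hΛ
          _ = (vonMangoldt d : ℝ) / d + (vonMangoldt d : ℝ) * (η + τ) := by ring
      · have h6 := H2 d hd.1 (by omega)
        rw [zero_add]
        exact mul_le_mul_of_nonneg_left (by linarith) hΛ
    refine (sum_le_sum h5).trans ?_
    rw [sum_add_distrib, ← sum_mul, vonMangoldt_sum, mul_comm (Real.log _)]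
    have h6 : ∑ d ∈ D.divisors, (if d ≤ z then (vonMangoldt d : ℝ) / d else 0) ≤ HH z := by
      rw [← sum_filter]
      unfold HH
      refine sum_le_sum_of_subset_of_nonneg ?_
        (fun _ _ _ => div_nonneg vonMangoldt_nonneg (Nat.cast_nonneg _))
      intro d hd
      rw [mem_filter] at hd
      rw [mem_range]
      omega
    linarith
  -- the second part
  have p2 : ∑ k ∈ Kset D z K, |gl s c D k - if k ∈ Kset D z K then gs D z j k else 0|
      ≤ D.primeFactors.card * τ
        + (K * ((2 * j + 1) * z ^ j * η) + (1 + Real.log K) * Real.exp (3 * (1 + Real.log z) - j)) := by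
    have h1 : ∀ k ∈ Kset D z K, |gl s c D k - if k ∈ Kset D z K then gs D z j k else 0|
        ≤ (Ex s (Ak c D z k) - gl s c D k) + |Ex s (Ak c D z k) - gs D z j k| := by
      intro k hk
      rw [if_pos hk]
      have h2 : gl s c D k ≤ Ex s (Ak c D z k) := Ex_mono fun ω _ => gcd_le_Ak hk
      have h3 := abs_sub_le (gl s c D k) (Ex s (Ak c D z k)) (gs D z j k)
      rw [abs_of_nonpos (by linarith : gl s c D k - Ex s (Ak c D z k) ≤ 0)] at h3
      linarith
    refine (sum_le_sum h1).trans ?_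
    rw [sum_add_distrib]
    refine add_le_add ?_ ?_
    · have h2 : ∑ k ∈ Kset D z K, (Ex s (Ak c D z k) - gl s c D k)
          = Ex s (fun ω => ∑ k ∈ Kset D z K,
              (Ak c D z k ω - if Nat.gcd (c ω) D = k then (1 : ℝ) else 0)) := by
        rw [Ex_sum]
        refine sum_congr rfl fun k _ => ?_
        rw [Ex_sub]
        rfl
      rw [h2]
      exact (Ex_mono fun ω _ => sum_diff_le hD ω).trans hbig
    · have hsubK : Kset D z K ⊆ Ico 1 (K + 1) := by
        intro k hk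
        rw [mem_Kset] at hk
        have : 0 < k := Nat.pos_of_dvd_of_pos hk.1.1 (Nat.pos_of_ne_zero hD)
        rw [mem_Ico]
        omega
      have h2 : ∀ k ∈ Kset D z K, |Ex s (Ak c D z k) - gs D z j k|
          ≤ (2 * j + 1) * z ^ j * η + 1 / (k : ℝ) * Real.exp (3 * (1 + Real.log z) - j) := by
        intro k hk
        have hk' := mem_Kset.1 hk
        exact sieve_two (Nat.pos_of_dvd_of_pos hk'.1.1 (Nat.pos_of_ne_zero hD)) hk'.1.1 hk'.2.1 hz hη H1
      refine (sum_le_sum h2).trans ?_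
      rw [sum_add_distrib, sum_const, nsmul_eq_mul, ← sum_mul]
      refine add_le_add ?_ ?_
      · refine mul_le_mul_of_nonneg_right ?_ (by positivity)
        have := card_le_card hsubK
        rw [Nat.card_Ico, Nat.add_sub_cancel] at this
        exact_mod_cast this
      · refine mul_le_mul_of_nonneg_right ?_ (Real.exp_pos _).le
        refine (sum_le_sum_of_subset_of_nonneg hsubK (fun _ _ _ => by positivity)).trans ?_
        have h5 := harmonic_le_one_add_log K
        rw [harmonic] at h5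
        push_cast at h5
        refine le_trans (le_of_eq ?_) h5
        rw [Finset.sum_Ico_eq_sum_range]
        simp only [Nat.add_sub_cancel]
        refine sum_congr rfl fun i _ => ?_
        push_cast
        rw [one_div, add_comm]
  linarith

end Pool.Agent.W5h45.RC
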