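import Pool.Agent.W5h45.RC.X2
import Pool.Agent.W5h45.RC.V4

/-! The law of the greatest common divisor at a fixed number of odd letters. -/

namespace Pool.Agent.W5h45.RC
open Finset Filter Topology ArithmeticFunction

/-- The words of length `L` with `o` letters `true`. -/
def Wo (L o : ℕ) : Finset (List Bool) := (Wd L).filter (fun w => on w = o)

lemma card_Wo (L o : ℕ) : (Wo L o).card = L.choose o := card_on L o

lemma pr_words (a L o d : ℕ) : pr (Wo L o) (cw a) d = (cnt a L o d 0 : ℝ) / L.choose o := by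
  unfold pr Ex
  rw [card_Wo]
  congr 1
  rw [← sum_filter, ← Nat.cast_one, ← Nat.cast_sum, ← Finset.card_eq_sum_ones, Wo, filter_filter, cnt]
  congr 2
  ext w
  simp only [mem_filter, Nat.modEq_zero_iff_dvd]

lemma pr_uniform {D d : ℕ} (hD : D ≠ 0) (hd : d ∣ D) : pr (range D) (fun u => u) d = 1 / (d : ℝ) := by
  unfold pr Ex
  obtain ⟨m, rfl⟩ := hd
  have hd0 : 0 < d := Nat.pos_of_ne_zero (left_ne_zero_of_mul hD)
  have hm0 : 0 < m := Nat.pos_of_ne_zero (right_ne_zero_of_mul hD)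
  have h1 : (range (d * m)).filter (fun u => d ∣ u) = (range m).image (fun v => d * v) := by
    ext u
    rw [mem_filter, mem_image, mem_range]
    constructor
    · rintro ⟨h1, v, rfl⟩
      exact ⟨v, by rw [mem_range]; exact Nat.lt_of_mul_lt_mul_left h1, rfl⟩
    · rintro ⟨v, hv, rfl⟩
      rw [mem_range] at hv
      exact ⟨Nat.mul_lt_mul_of_pos_left hv hd0, Dvd.intro _ rfl⟩
  have h2 : ∑ ω ∈ range (d * m), (if d ∣ ω then (1 : ℝ) else 0) = m := by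
    rw [← sum_filter, h1, sum_image (by
      intro x _ y _ h
      exact Nat.eq_of_mul_eq_mul_left hd0 h)]
    simp
  have h2' : ∑ ω ∈ range (d * m), (if d ∣ (fun u => u) ω then (1 : ℝ) else 0) = m := h2
  rw [h2', card_range]
  push_cast
  have hm' : (m : ℝ) ≠ 0 := by exact_mod_cast hm0.ne'
  have hd' : (d : ℝ) ≠ 0 := by exact_mod_cast hd0.ne'
  field_simp

lemma gl_uniform {D k : ℕ} (hk : k ∣ D) :
    gl (range D) (fun u => u) D k = (Nat.totient (D / k) : ℝ) / D := by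
  unfold gl Ex
  rw [card_range, Nat.totient_div_of_dvd hk]
  congr 1
  rw [← sum_filter, Finset.card_eq_sum_ones, Nat.cast_sum, Nat.cast_one]
  refine sum_congr ?_ fun _ _ => rfl
  ext u
  rw [mem_filter, mem_filter, Nat.gcd_comm]

/-- The error in the sieve. -/
noncomputable def errf (c : ℝ) (r n : ℕ) : ℝ :=
  2 * ((c * 2 ^ n) * (1 / 4 ^ n + Real.exp (-(n : ℝ) ^ (2 * r + 6)) + Real.exp (-(n : ℝ) ^ (r + 2))))
  + ((1 + 2 * n) ^ 2 + (2 * Real.exp (-(n : ℝ) ^ (2 * r + 6)) + 1 / 4 ^ n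
      + Real.exp (-(n : ℝ) ^ (r + 2))) * (c * 2 ^ n)) / ((n : ℝ) ^ (r + 2) / 2)
  + ((2 * (n : ℝ) ^ 2 + 1) * Real.exp (3 * (n : ℝ) ^ (r + 2) - (n : ℝ) ^ (2 * r + 6))
      + (1 + (n : ℝ) ^ (r + 2)) * Real.exp (3 * (1 + 2 * n) - (n : ℝ) ^ 2))

lemma two_pow_le_exp (n : ℕ) : (2 : ℝ) ^ n ≤ Real.exp n := by
  have h14 : (2 : ℝ) ≤ Real.exp 1 := by
    have := Real.add_one_le_exp (1 : ℝ)
    linarith
  calc (2 : ℝ) ^ n ≤ (Real.exp 1) ^ n := pow_le_pow_left₀ (by norm_num) h14 _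
    _ = Real.exp n := by rw [← Real.exp_nat_mul]; congr 1; ring

lemma errf_le {c : ℝ} (hc : 0 ≤ c) {r : ℕ} (hr : 1 ≤ r) :
    ∀ᶠ n : ℕ in atTop, errf c r n ≤ 30 / (n : ℝ) ^ r := by
  filter_upwards [eventually_poly_le (6 * c) r, eventually_poly_le (4 * c) 0, eventually_poly_le 1 r,
    eventually_poly_le 2 (2 * r + 2), eventually_poly_le' 6 (r + 2) (2 * r + 6) (by omega),
    eventually_ge_atTop 10] with n e1 e2 e3 e4 e5 hn
  have hn10 : (10 : ℝ) ≤ n := by exact_mod_cast hn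
  have hn1 : (1 : ℝ) ≤ n := by linarith
  have hn0 : (0 : ℝ) < n := by linarith
  have h2n : (0 : ℝ) < 2 ^ n := by positivity
  have hnr : (0 : ℝ) < (n : ℝ) ^ r := by positivity
  have hexp1 : Real.exp (-(n : ℝ)) ≤ 1 / 2 ^ n := by
    rw [Real.exp_neg, ← one_div]
    exact one_div_le_one_div_of_le h2n (two_pow_le_exp n)
  -- powers
  have p1 : (n : ℝ) ≤ (n : ℝ) ^ 2 := by nlinarith
  have p2 : 2 * (n : ℝ) ≤ (n : ℝ) ^ 2 := by nlinarith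
  have p3 : (n : ℝ) ^ 2 ≤ (n : ℝ) ^ (r + 2) := pow_le_pow_right₀ hn1 (by omega)
  have p4 : (n : ℝ) ^ (r + 2) ≤ (n : ℝ) ^ (2 * r + 6) := pow_le_pow_right₀ hn1 (by omega)
  -- small exponentials times `2 ^ n`
  have q1 : (2 : ℝ) ^ n * Real.exp (-(n : ℝ) ^ (r + 2)) ≤ 1 / 2 ^ n := by
    refine le_trans ?_ hexp1
    calc (2 : ℝ) ^ n * Real.exp (-(n : ℝ) ^ (r + 2)) ≤ Real.exp n * Real.exp (-(n : ℝ) ^ (r + 2)) :=
          mul_le_mul_of_nonneg_right (two_pow_le_exp n) (Real.exp_pos _).le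
      _ = Real.exp (n - (n : ℝ) ^ (r + 2)) := by rw [← Real.exp_add]; congr 1
      _ ≤ Real.exp (-(n : ℝ)) := Real.exp_le_exp.2 (by linarith)
  have q2 : (2 : ℝ) ^ n * Real.exp (-(n : ℝ) ^ (2 * r + 6)) ≤ 1 / 2 ^ n := by
    refine le_trans (mul_le_mul_of_nonneg_left (Real.exp_le_exp.2 ?_) h2n.le) q1
    linarith
  have q3 : (2 : ℝ) ^ n * (1 / 4 ^ n) = 1 / 2 ^ n := by
    rw [show (4 : ℝ) = 2 * 2 by norm_num, mul_pow]
    field_simp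
  -- the four terms
  have t1 : 2 * ((c * 2 ^ n) * (1 / 4 ^ n + Real.exp (-(n : ℝ) ^ (2 * r + 6))
      + Real.exp (-(n : ℝ) ^ (r + 2)))) ≤ 1 / (n : ℝ) ^ r := by
    have h1 : 2 * ((c * 2 ^ n) * (1 / 4 ^ n + Real.exp (-(n : ℝ) ^ (2 * r + 6))
      + Real.exp (-(n : ℝ) ^ (r + 2)))) = 2 * c * ((2 : ℝ) ^ n * (1 / 4 ^ n)
        + (2 : ℝ) ^ n * Real.exp (-(n : ℝ) ^ (2 * r + 6))
        + (2 : ℝ) ^ n * Real.exp (-(n : ℝ) ^ (r + 2))) := by ring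
    rw [h1, q3]
    have h2 : 2 * c * (1 / 2 ^ n + (2 : ℝ) ^ n * Real.exp (-(n : ℝ) ^ (2 * r + 6))
        + (2 : ℝ) ^ n * Real.exp (-(n : ℝ) ^ (r + 2))) ≤ 2 * c * (1 / 2 ^ n + 1 / 2 ^ n + 1 / 2 ^ n) := by
      refine mul_le_mul_of_nonneg_left ?_ (by positivity)
      linarith
    refine h2.trans ?_
    have h3 : 2 * c * (1 / 2 ^ n + 1 / 2 ^ n + 1 / 2 ^ n) = 6 * c / 2 ^ n := by ring
    rw [h3, div_le_div_iff₀ h2n hnr, one_mul]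
    exact e1
  have t2 : ((1 + 2 * (n : ℝ)) ^ 2 + (2 * Real.exp (-(n : ℝ) ^ (2 * r + 6)) + 1 / 4 ^ n
      + Real.exp (-(n : ℝ) ^ (r + 2))) * (c * 2 ^ n)) / ((n : ℝ) ^ (r + 2) / 2) ≤ 20 / (n : ℝ) ^ r := by
    have h1 : (2 * Real.exp (-(n : ℝ) ^ (2 * r + 6)) + 1 / 4 ^ n
      + Real.exp (-(n : ℝ) ^ (r + 2))) * (c * 2 ^ n) ≤ 4 * c / 2 ^ n := by
      have h2 : (2 * Real.exp (-(n : ℝ) ^ (2 * r + 6)) + 1 / 4 ^ n
        + Real.exp (-(n : ℝ) ^ (r + 2))) * (c * 2 ^ n) = c * (2 * ((2 : ℝ) ^ n *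
          Real.exp (-(n : ℝ) ^ (2 * r + 6))) + (2 : ℝ) ^ n * (1 / 4 ^ n)
          + (2 : ℝ) ^ n * Real.exp (-(n : ℝ) ^ (r + 2))) := by ring
      rw [h2, q3]
      have h3 : c * (2 * ((2 : ℝ) ^ n * Real.exp (-(n : ℝ) ^ (2 * r + 6))) + 1 / 2 ^ n
          + (2 : ℝ) ^ n * Real.exp (-(n : ℝ) ^ (r + 2))) ≤ c * (2 * (1 / 2 ^ n) + 1 / 2 ^ n + 1 / 2 ^ n) := by
        refine mul_le_mul_of_nonneg_left ?_ hc
        linarith
      refine h3.trans (le_of_eq ?_)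
      ring
    have h2 : 4 * c / 2 ^ n ≤ 1 := by
      rw [div_le_one h2n]
      simpa using e2
    have h3 : (1 + 2 * (n : ℝ)) ^ 2 + (2 * Real.exp (-(n : ℝ) ^ (2 * r + 6)) + 1 / 4 ^ n
      + Real.exp (-(n : ℝ) ^ (r + 2))) * (c * 2 ^ n) ≤ 10 * (n : ℝ) ^ 2 := by nlinarith
    rw [div_le_div_iff₀ (by positivity) hnr]
    calc _ ≤ 10 * (n : ℝ) ^ 2 * (n : ℝ) ^ r := mul_le_mul_of_nonneg_right h3 hnr.le
      _ = 20 * ((n : ℝ) ^ (r + 2) / 2) := by rw [pow_add]; ring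
  have t3 : (2 * (n : ℝ) ^ 2 + 1) * Real.exp (3 * (n : ℝ) ^ (r + 2) - (n : ℝ) ^ (2 * r + 6))
      ≤ 1 / (n : ℝ) ^ r := by
    have h1 : 2 * (n : ℝ) ^ 2 + 1 ≤ Real.exp (2 * (n : ℝ) ^ 2) := Real.add_one_le_exp _
    have h2 : (2 * (n : ℝ) ^ 2 + 1) * Real.exp (3 * (n : ℝ) ^ (r + 2) - (n : ℝ) ^ (2 * r + 6))
        ≤ Real.exp (-(n : ℝ)) := by
      calc (2 * (n : ℝ) ^ 2 + 1) * Real.exp (3 * (n : ℝ) ^ (r + 2) - (n : ℝ) ^ (2 * r + 6))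
          ≤ Real.exp (2 * (n : ℝ) ^ 2) * Real.exp (3 * (n : ℝ) ^ (r + 2) - (n : ℝ) ^ (2 * r + 6)) :=
            mul_le_mul_of_nonneg_right h1 (Real.exp_pos _).le
        _ = Real.exp (2 * (n : ℝ) ^ 2 + (3 * (n : ℝ) ^ (r + 2) - (n : ℝ) ^ (2 * r + 6))) := by
            rw [← Real.exp_add]
        _ ≤ Real.exp (-(n : ℝ)) := Real.exp_le_exp.2 (by linarith)
    refine (h2.trans hexp1).trans ?_
    rw [one_mul] at e3
    exact one_div_le_one_div_of_le hnr e3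
  have t4 : (1 + (n : ℝ) ^ (r + 2)) * Real.exp (3 * (1 + 2 * n) - (n : ℝ) ^ 2) ≤ 1 / (n : ℝ) ^ r := by
    have h1 : 1 + (n : ℝ) ^ (r + 2) ≤ 2 * (n : ℝ) ^ (r + 2) := by
      have : (1 : ℝ) ≤ (n : ℝ) ^ (r + 2) := one_le_pow₀ hn1
      linarith
    have h2 : Real.exp (3 * (1 + 2 * n) - (n : ℝ) ^ 2) ≤ Real.exp (-(n : ℝ)) := by
      apply Real.exp_le_exp.2
      nlinarith
    calc (1 + (n : ℝ) ^ (r + 2)) * Real.exp (3 * (1 + 2 * n) - (n : ℝ) ^ 2)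
        ≤ (2 * (n : ℝ) ^ (r + 2)) * (1 / 2 ^ n) :=
          mul_le_mul h1 (h2.trans hexp1) (Real.exp_pos _).le (by positivity)
      _ ≤ 1 / (n : ℝ) ^ r := by
          rw [mul_one_div, div_le_div_iff₀ h2n hnr, one_mul]
          calc 2 * (n : ℝ) ^ (r + 2) * (n : ℝ) ^ r = 2 * (n : ℝ) ^ (2 * r + 2) := by
                rw [mul_assoc, ← pow_add]; congr 2; ring
            _ ≤ 2 ^ n := e4
  have hfin : errf c r n ≤ 1 / (n : ℝ) ^ r + 20 / (n : ℝ) ^ r + (1 / (n : ℝ) ^ r + 1 / (n : ℝ) ^ r) :=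
    add_le_add (add_le_add t1 t2) (add_le_add t3 t4)
  refine hfin.trans ?_
  rw [← add_div, ← add_div, ← add_div]
  exact div_le_div_of_nonneg_right (by norm_num) hnr.le

end Pool.Agent.W5h45.RC
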